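import Mathlib

/-!
# The sequence `u`, the constant `c0` and the nondecreasing solutions
-/

namespace Pool.Agent.Lib.MP_9dd88f_nt.UB

/-- `u 0 = 1`, `u (m + 1) = u m * (u m + 1)`: the sequence `1, 2, 6, 42, 1806, …`. -/
def u : ℕ → ℕ
  | 0 => 1
  | m + 1 => u m * (u m + 1)

/-- `c0 = sup u_m ^ (2 ^ (-m)) = 1.5979…`. -/
noncomputable def c0 : ℝ := ⨆ m : ℕ, (u m : ℝ) ^ (((2 : ℝ) ^ m)⁻¹)

/-- The solutions of `1 = 1 / n_1 + … + 1 / n_k` in positive integers `n_1 ≤ … ≤ n_k`. -/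
def msols (k : ℕ) : Set (Fin k → ℕ) :=
  {n | Monotone n ∧ (∀ i, 0 < n i) ∧ ∑ i, (1 : ℚ) / n i = 1}

end Pool.Agent.Lib.MP_9dd88f_nt.UB
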