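import Mathlib
import Pool.Agent.Lib.MP_9dd88f_nt.Defs
import Pool.Agent.Lib.MP_9dd88f_nt.UB.Seq

/-!
# Upper bound for the number of Egyptian fractions: auxiliary definitions
-/

namespace Pool.Agent.Lib.MP_9dd88f_nt.UB

/-- The numerator of `1 - ∑ 1 / n` over the denominator `l.prod` (the entries of `l` are listed
from the last one to the first one). -/
def Q : List ℕ → ℕ
  | [] => 1
  | a :: l => Q l * a - l.prod

/-- The possible beginnings of a solution with `k` terms (listed from the last entry to the first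
one). -/
def Pre (k : ℕ) : List ℕ → Prop
  | [] => True
  | a :: l => Pre k l ∧ l.prod < Q l * a ∧ Q l * a ≤ k * l.prod ∧ ∀ x ∈ l, x ≤ a

/-- Solutions of `m / n = 1 / t₁ + 1 / t₂ + 1 / t₃` with `t₁ ≤ t₂ ≤ t₃`. -/
def Sol3 (m n : ℕ) : Set (ℕ × ℕ × ℕ) :=
  {t | 0 < t.1 ∧ t.1 ≤ t.2.1 ∧ t.2.1 ≤ t.2.2 ∧
    (m : ℚ) / n = 1 / t.1 + 1 / t.2.1 + 1 / t.2.2}

/-- Solutions of `m / n = 1 / t₁ + … + 1 / t₅` with `t₁ ≤ … ≤ t₅`. -/
def Sol5 (m n : ℕ) : Set (ℕ × ℕ × ℕ × ℕ × ℕ) :=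
  {t | 0 < t.1 ∧ t.1 ≤ t.2.1 ∧ t.2.1 ≤ t.2.2.1 ∧ t.2.2.1 ≤ t.2.2.2.1 ∧
    t.2.2.2.1 ≤ t.2.2.2.2 ∧
    (m : ℚ) / n = 1 / t.1 + 1 / t.2.1 + 1 / t.2.2.1 + 1 / t.2.2.2.1 + 1 / t.2.2.2.2}

/-- The quadruples `(α, β, γ, δ)` of the parametrisation. -/
def Quad (m c1 c2 c3 : ℕ) (q : ℕ × ℕ × ℕ × ℕ) : Prop :=
  0 < q.1 ∧ 0 < q.2.1 ∧ 0 < q.2.2.1 ∧ 0 < q.2.2.2 ∧
    m * (q.1 * q.2.1 * q.2.2.1 * q.2.2.2) = c1 * q.2.2.1 + c2 * q.2.1 + c3 * q.1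

/-- Admissible pairs `(a, b)` of the two-step lemma. -/
def Adm (m n a b : ℕ) : Prop :=
  n < m * a ∧ m * a ≤ 5 * n ∧ n * a < (m * a - n) * b ∧ (m * a - n) * b ≤ 4 * (n * a)

/-- Numerator of `m / n - 1 / a - 1 / b` over the denominator `n * a * b`. -/
def NN (m n a b : ℕ) : ℕ := (m * a - n) * b - n * a

/-- The common divisor of numerator and denominator. -/
def GG (m n a b : ℕ) : ℕ := Nat.gcd (NN m n a b) (n * a * b)

/-- The weight `n''^(2/3) / m''` of the reduced fraction `m'' / n'' = m / n - 1 / a - 1 / b`. -/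
noncomputable def wt (m n a b : ℕ) : ℝ :=
  ((n * a * b / GG m n a b : ℕ) : ℝ) ^ ((2 : ℝ) / 3) / ((NN m n a b / GG m n a b : ℕ) : ℝ)

/-- the index `j` of a pair -/
def jj (m n a b : ℕ) : ℕ := (NN m n a b / b.gcd (n * a) - 1) / (m * a - n)

/-- lists of length `k`, the entries of a solution listed from the last to the first -/
def Lsol (k : ℕ) : Set (List ℕ) :=
  {l | l.length = k ∧ l.Pairwise (· ≥ ·) ∧ (∀ x ∈ l, 0 < x) ∧
    (l.map (fun x : ℕ => (1 : ℚ) / x)).sum = 1}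

end Pool.Agent.Lib.MP_9dd88f_nt.UB
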