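import Mathlib
import Pool.Agent.Lib.MP_9dd88f_nt.UB.Base
import Pool.Agent.Lib.MP_9dd88f_nt.UB.Div

/-!
# class 1 of the counting argument  (S-M)

Write q = (α, β, γ, δ) = (q.1, q.2.1, q.2.2.1, q.2.2.2).  `Quad` says: all four positive and
m αβγδ = c1 γ + c2 β + c3 α.  Hypotheses for every q in S: αδ ≤ Z, αδ ≤ M and
W := c1 c2 + m α² δ c3 ≤ M.  τ(x) ≤ T for 1 ≤ x ≤ M.  Claim: |S| ≤ Z T².
Proof.  Step 1: the number of pairs (α, δ) occurring is ≤ Z T: the product k = αδ is in [1, ⌊Z⌋]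
(at most Z values; S empty is trivial), and for given k ≤ M, α is a divisor of k and δ = k/α,
so at most τ(k) ≤ T pairs.  Step 2: for a given pair (α, δ) there are at most T quadruples:
put X = mαδβ - c1 (natural subtraction is fine) and Y = mαδγ - c2.  From the equation
γ (mαβδ - c1) = c2 β + c3 α > 0 and β (mαγδ - c2) = c1 γ + c3 α > 0, so X, Y > 0 and
X Y = m²α²δ²βγ - mαδ(c2 β + c1 γ) + c1 c2 = mαδ (mαβγδ - c1γ - c2β) + c1 c2
    = mαδ c3 α + c1 c2 = W  (do this in ℤ, nlinarith / linear_combination).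
So X is a divisor of W, 1 ≤ W ≤ M; X determines β, and β (with α, δ) determines γ by
γ (mαβδ - c1) = c2 β + c3 α.
Counting tools: `Finset.card_le_mul_card_image` (fibres of q ↦ (α, δ), and of (α, δ) ↦ αδ) and
`Finset.card_le_card_of_injOn` into `Nat.divisors _`.  T is real: pass through
`(card : ℝ) ≤ T`, or use sums: `Finset.card_eq_sum_card_image`.
-/

namespace Pool.Agent.Lib.MP_9dd88f_nt.UB

open Finset

/-- the basic identities of a quadruple -/
private lemma C1_XY {m c1 c2 c3 a β γ d : ℕ} (hc3 : 0 < c3) (ha : 0 < a)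
    (hβ : 0 < β) (hγ : 0 < γ)
    (h : m * (a * β * γ * d) = c1 * γ + c2 * β + c3 * a) :
    ∃ X Y : ℕ, m * a * d * β = c1 + X ∧ m * a * d * γ = c2 + Y ∧ 0 < X ∧ 0 < Y ∧
      X * Y = c1 * c2 + m * a ^ 2 * d * c3 ∧ γ * X = c2 * β + c3 * a := by
  have h3 : 0 < c3 * a := Nat.mul_pos hc3 ha
  have e1 : γ * (m * a * d * β) = c1 * γ + c2 * β + c3 * a := by rw [← h]; ring
  have e2 : β * (m * a * d * γ) = c1 * γ + c2 * β + c3 * a := by rw [← h]; ring
  have l1 : c1 < m * a * d * β := by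
    by_contra hcon
    push Not at hcon
    have := Nat.mul_le_mul_left γ hcon
    rw [e1] at this
    have h5 : γ * c1 = c1 * γ := mul_comm _ _
    omega
  have l2 : c2 < m * a * d * γ := by
    by_contra hcon
    push Not at hcon
    have := Nat.mul_le_mul_left β hcon
    rw [e2] at this
    have h5 : β * c2 = c2 * β := mul_comm _ _
    have h6 : 0 ≤ c1 * γ := Nat.zero_le _
    omega
  obtain ⟨X, hX⟩ := Nat.exists_eq_add_of_lt l1
  obtain ⟨Y, hY⟩ := Nat.exists_eq_add_of_lt l2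
  refine ⟨X + 1, Y + 1, by rw [hX, add_assoc], by rw [hY, add_assoc], by omega, by omega, ?_, ?_⟩
  · have hX' : ((m : ℤ) * a * d * β) = c1 + (X + 1) := by
      have := congrArg (fun x : ℕ => (x : ℤ)) hX
      push_cast at this
      linarith
    have hY' : ((m : ℤ) * a * d * γ) = c2 + (Y + 1) := by
      have := congrArg (fun x : ℕ => (x : ℤ)) hY
      push_cast at this
      linarith
    have h' : (m : ℤ) * (a * β * γ * d) = c1 * γ + c2 * β + c3 * a := by exact_mod_cast h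
    have hx : ((X : ℤ) + 1) = (m : ℤ) * a * d * β - c1 := by rw [hX']; ring
    have hy : ((Y : ℤ) + 1) = (m : ℤ) * a * d * γ - c2 := by rw [hY']; ring
    have : ((X : ℤ) + 1) * (Y + 1) = c1 * c2 + m * a ^ 2 * d * c3 := by
      rw [hx, hy]
      linear_combination (m : ℤ) * a * d * h'
    exact_mod_cast this
  · have hX2 : m * a * d * β = c1 + (X + 1) := by rw [hX, add_assoc]
    rw [hX2] at e1
    have e3 : γ * (c1 + (X + 1)) = c1 * γ + γ * (X + 1) := by ring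
    rw [e3] at e1
    omega

private lemma C1_fib (m c1 c2 c3 M a d : ℕ) (T : ℝ) (hm : 0 < m) (hc1 : 0 < c1) (hc2 : 0 < c2)
    (hc3 : 0 < c3) (ha : 0 < a) (hd : 0 < d)
    (hT : ∀ x : ℕ, 1 ≤ x → x ≤ M → (x.divisors.card : ℝ) ≤ T)
    (hW : c1 * c2 + m * a ^ 2 * d * c3 ≤ M)
    (F : Finset (ℕ × ℕ × ℕ × ℕ))
    (hF : ∀ q ∈ F, Quad m c1 c2 c3 q ∧ q.1 = a ∧ q.2.2.2 = d) :
    (F.card : ℝ) ≤ T := by
  have hW1 : 1 ≤ c1 * c2 + m * a ^ 2 * d * c3 :=
    Nat.succ_le_of_lt (Nat.add_pos_left (Nat.mul_pos hc1 hc2) _)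
  refine le_trans ?_ (hT _ hW1 hW)
  have hmad : 0 < m * a * d := Nat.mul_pos (Nat.mul_pos hm ha) hd
  have h : F.card ≤ (c1 * c2 + m * a ^ 2 * d * c3).divisors.card := by
    apply Finset.card_le_card_of_injOn (fun q => m * a * d * q.2.1 - c1)
    · rintro ⟨a', β, γ, d'⟩ hq
      obtain ⟨⟨h1, h2, h3, h4, h5⟩, rfl, rfl⟩ := hF _ hq
      simp only at h1 h2 h3 h4 h5
      obtain ⟨X, Y, e1, e2, hX, hY, e3, e4⟩ := C1_XY hc3 h1 h2 h3 h5
      simp only [Finset.mem_coe, Nat.mem_divisors]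
      refine ⟨⟨Y, ?_⟩, Nat.ne_of_gt hW1⟩
      rw [← e3, e1, Nat.add_sub_cancel_left]
    · rintro ⟨a', β, γ, d'⟩ hq ⟨a'', β', γ', d''⟩ hq' heq
      obtain ⟨⟨h1, h2, h3, h4, h5⟩, hh1, hh2⟩ := hF _ hq
      obtain ⟨⟨k1, k2, k3, k4, k5⟩, kk1, kk2⟩ := hF _ hq'
      simp only at h1 h2 h3 h4 h5 hh1 hh2 k1 k2 k3 k4 k5 kk1 kk2 heq
      subst hh1 hh2 kk1 kk2
      obtain ⟨X, Y, e1, e2, hX, hY, e3, e4⟩ := C1_XY hc3 h1 h2 h3 h5
      obtain ⟨X', Y', f1, f2, hX', hY', f3, f4⟩ := C1_XY hc3 k1 k2 k3 k5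
      rw [e1, f1, Nat.add_sub_cancel_left, Nat.add_sub_cancel_left] at heq
      subst heq
      have hβ : β = β' := by
        apply Nat.eq_of_mul_eq_mul_left hmad
        rw [e1, f1]
      subst hβ
      have hγ : γ = γ' := by
        apply Nat.eq_of_mul_eq_mul_right hX
        rw [e4, f4]
      subst hγ
      rfl
  exact_mod_cast h

theorem class1 (m c1 c2 c3 M : ℕ) (T Z : ℝ) (hm : 0 < m) (hc1 : 0 < c1) (hc2 : 0 < c2)
    (hc3 : 0 < c3) (hZ : 0 ≤ Z)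
    (hT : ∀ x : ℕ, 1 ≤ x → x ≤ M → (x.divisors.card : ℝ) ≤ T)
    (S : Finset (ℕ × ℕ × ℕ × ℕ))
    (hS : ∀ q ∈ S, Quad m c1 c2 c3 q ∧ ((q.1 * q.2.2.2 : ℕ) : ℝ) ≤ Z ∧ q.1 * q.2.2.2 ≤ M ∧
      c1 * c2 + m * q.1 ^ 2 * q.2.2.2 * c3 ≤ M) :
    (S.card : ℝ) ≤ Z * T ^ 2 := by
  classical
  rcases S.eq_empty_or_nonempty with rfl | ⟨q0, hq0⟩
  · simp only [Finset.card_empty, Nat.cast_zero]
    positivity
  have hM1 : 1 ≤ M := by
    obtain ⟨⟨h1, h2, h3, h4, h5⟩, -, h7, -⟩ := hS q0 hq0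
    exact le_trans (Nat.succ_le_of_lt (Nat.mul_pos h1 h4)) h7
  have hT1 : 1 ≤ T := by
    have := hT 1 le_rfl hM1
    simpa using this
  set A : Finset (ℕ × ℕ) := S.image (fun q => (q.1, q.2.2.2)) with hA
  have hAS : ∀ p ∈ A, ∃ q ∈ S, q.1 = p.1 ∧ q.2.2.2 = p.2 := by
    intro p hp
    obtain ⟨q, hq, hqp⟩ := Finset.mem_image.1 hp
    exact ⟨q, hq, by rw [← hqp], by rw [← hqp]⟩
  have h1 : (S.card : ℝ) ≤ A.card * T := by
    rw [Finset.card_eq_sum_card_image (fun q : ℕ × ℕ × ℕ × ℕ => (q.1, q.2.2.2)) S]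
    push_cast
    refine (Finset.sum_le_card_nsmul _ _ T ?_).trans (le_of_eq (nsmul_eq_mul _ _))
    intro p hp
    obtain ⟨q, hq, hq1, hq2⟩ := hAS p hp
    obtain ⟨⟨k1, k2, k3, k4, k5⟩, -, -, k6⟩ := hS q hq
    refine C1_fib m c1 c2 c3 M p.1 p.2 T hm hc1 hc2 hc3 (hq1 ▸ k1) (hq2 ▸ k4) hT ?_ _ ?_
    · rw [← hq1, ← hq2]
      exact k6
    · intro r hr
      obtain ⟨hr1, hr2⟩ := Finset.mem_filter.1 hr
      exact ⟨(hS r hr1).1, by rw [← hr2], by rw [← hr2]⟩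
  set B : Finset ℕ := A.image (fun p => p.1 * p.2) with hB
  have h2 : (A.card : ℝ) ≤ B.card * T := by
    rw [Finset.card_eq_sum_card_image (fun p : ℕ × ℕ => p.1 * p.2) A]
    push_cast
    refine (Finset.sum_le_card_nsmul _ _ T ?_).trans (le_of_eq (nsmul_eq_mul _ _))
    intro k hk
    obtain ⟨p, hp, hpk⟩ := Finset.mem_image.1 hk
    obtain ⟨q, hq, hq1, hq2⟩ := hAS p hp
    obtain ⟨⟨k1, k2, k3, k4, k5⟩, -, k7, -⟩ := hS q hq
    have hpk' : q.1 * q.2.2.2 = k := by rw [hq1, hq2]; exact hpk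
    have hk1 : 1 ≤ k := by rw [← hpk']; exact Nat.succ_le_of_lt (Nat.mul_pos k1 k4)
    have hkM : k ≤ M := by rw [← hpk']; exact k7
    refine le_trans ?_ (hT k hk1 hkM)
    have h : (A.filter (fun p : ℕ × ℕ => p.1 * p.2 = k)).card ≤ k.divisors.card := by
      apply Finset.card_le_card_of_injOn (fun p => p.1)
      · intro r hr
        have hr' := Finset.mem_filter.1 (Finset.mem_coe.1 hr)
        simp only [Finset.mem_coe, Nat.mem_divisors]
        exact ⟨⟨r.2, hr'.2.symm⟩, by omega⟩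
      · intro r hr s hs hrs
        have hr' := Finset.mem_filter.1 (Finset.mem_coe.1 hr)
        have hs' := Finset.mem_filter.1 (Finset.mem_coe.1 hs)
        simp only at hrs
        have hr1 : 0 < r.1 := by
          rcases Nat.eq_zero_or_pos r.1 with h0 | h0
          · have := hr'.2
            rw [h0, zero_mul] at this
            omega
          · exact h0
        have h5 : r.1 * r.2 = r.1 * s.2 := by
          rw [hr'.2, hrs, hs'.2]
        exact Prod.ext hrs (Nat.eq_of_mul_eq_mul_left hr1 h5)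
    exact_mod_cast h
  have h3 : (B.card : ℝ) ≤ Z := by
    have hsub : B ⊆ Finset.Icc 1 ⌊Z⌋₊ := by
      intro k hk
      obtain ⟨p, hp, hpk⟩ := Finset.mem_image.1 hk
      obtain ⟨q, hq, hq1, hq2⟩ := hAS p hp
      obtain ⟨⟨k1, k2, k3, k4, k5⟩, k6, k7, -⟩ := hS q hq
      have hpk' : q.1 * q.2.2.2 = k := by rw [hq1, hq2]; exact hpk
      rw [Finset.mem_Icc, ← hpk']
      exact ⟨Nat.succ_le_of_lt (Nat.mul_pos k1 k4), Nat.le_floor k6⟩
    have := Finset.card_le_card hsub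
    rw [Nat.card_Icc, Nat.add_sub_cancel] at this
    calc (B.card : ℝ) ≤ (⌊Z⌋₊ : ℝ) := by exact_mod_cast this
      _ ≤ Z := Nat.floor_le hZ
  have hT0 : 0 ≤ T := by linarith
  calc (S.card : ℝ) ≤ A.card * T := h1
    _ ≤ (B.card * T) * T := mul_le_mul_of_nonneg_right h2 hT0
    _ ≤ (Z * T) * T := mul_le_mul_of_nonneg_right (mul_le_mul_of_nonneg_right h3 hT0) hT0
    _ = Z * T ^ 2 := by ring

end Pool.Agent.Lib.MP_9dd88f_nt.UB
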