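import Mathlib
import Pool.Agent.Lib.MP_9dd88f_nt.UB.Base
import Pool.Agent.Lib.MP_9dd88f_nt.UB.Div

/-!
# class 2 of the counting argument  (S-M)

Write q = (α, β, γ, δ) = (q.1, q.2.1, q.2.2.1, q.2.2.2).  `Quad` says: all four positive and
m αβγδ = c1 γ + c2 β + c3 α.  Hypotheses for every q in S: there is e with h e + c3 = m βγδ and
e ≤ X; m βγδ ≤ M; gcd(h, m) = 1.  τ(x) ≤ T for 1 ≤ x ≤ M.  Claim: |S| ≤ (X/m + 1) T².
Proof.  Let e(q) = (m βγδ - c3) / h (this is the e of the hypothesis).  Any two values e, e' that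
occur satisfy h e ≡ h e' ≡ -c3 (mod m), hence e ≡ e' (mod m) because gcd(h, m) = 1.  A set of
naturals ≤ X which are pairwise congruent mod m has at most ⌊X/m⌋ + 1 ≤ X/m + 1 elements
(the map e ↦ e / m is injective on it, into range(⌊X/m⌋ + 1)).
For given e there are at most T² quadruples: w = βγδ is determined (m w = h e + c3, m > 0),
1 ≤ w ≤ m w ≤ M, β and γ are divisors of w, δ = w/(βγ), and α is determined by
α (m w - c3) = c1 γ + c2 β, where m w > c3 (because α m w = c1γ + c2β + c3α > c3α).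
So q ↦ (β, γ) is injective on the fibre, into divisors(w) × divisors(w).
Counting tools: `Finset.card_eq_sum_card_image` / `Finset.card_le_mul_card_image` and
`Finset.card_le_card_of_injOn`.  S empty is trivial.
-/

namespace Pool.Agent.Lib.MP_9dd88f_nt.UB

open Finset

theorem C2_fibre (m c1 c2 c3 h M : ℕ) (T : ℝ) (hm : 0 < m) (hc1 : 0 < c1) (hc2 : 0 < c2)
    (hT : ∀ x : ℕ, 1 ≤ x → x ≤ M → (x.divisors.card : ℝ) ≤ T)
    (S : Finset (ℕ × ℕ × ℕ × ℕ)) (e : ℕ)
    (hS : ∀ q ∈ S, Quad m c1 c2 c3 q ∧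
      h * e + c3 = m * (q.2.1 * q.2.2.1 * q.2.2.2) ∧
      m * (q.2.1 * q.2.2.1 * q.2.2.2) ≤ M) :
    (S.card : ℝ) ≤ T ^ 2 := by
  classical
  rcases S.eq_empty_or_nonempty with h0 | ⟨q0, hq0⟩
  · subst h0
    simp only [Finset.card_empty, Nat.cast_zero]
    positivity
  set w : ℕ := q0.2.1 * q0.2.2.1 * q0.2.2.2 with hw
  obtain ⟨⟨a0, a1, a2, a3, a4⟩, b0, b1⟩ := hS q0 hq0
  have hwpos : 0 < w := Nat.mul_pos (Nat.mul_pos a1 a2) a3
  have hwM : w ≤ M := le_trans (Nat.le_mul_of_pos_left w hm) b1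
  have hwq : ∀ q ∈ S, q.2.1 * q.2.2.1 * q.2.2.2 = w := by
    intro q hq
    obtain ⟨-, c0, -⟩ := hS q hq
    have : m * (q.2.1 * q.2.2.1 * q.2.2.2) = m * w := by rw [← c0, ← b0]
    exact Nat.eq_of_mul_eq_mul_left hm this
  have hcard : S.card ≤ (w.divisors ×ˢ w.divisors).card := by
    apply Finset.card_le_card_of_injOn (fun q => (q.2.1, q.2.2.1))
    · intro q hq
      have hq' : q ∈ S := hq
      have e1 := hwq q hq'
      simp only [Finset.coe_product, Set.mem_prod, Finset.mem_coe, Nat.mem_divisors]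
      refine ⟨⟨⟨q.2.2.1 * q.2.2.2, ?_⟩, hwpos.ne'⟩, ⟨⟨q.2.1 * q.2.2.2, ?_⟩, hwpos.ne'⟩⟩
      · rw [← e1]; ring
      · rw [← e1]; ring
    · intro q hq r hr hqr
      have hq' : q ∈ S := hq
      have hr' : r ∈ S := hr
      obtain ⟨⟨p0, p1, p2, p3, p4⟩, p5, -⟩ := hS q hq'
      obtain ⟨⟨r0, r1, r2, r3, r4⟩, r5, -⟩ := hS r hr'
      have e1 := hwq q hq'
      have e2 := hwq r hr'
      simp only [Prod.mk.injEq] at hqr
      obtain ⟨g1, g2⟩ := hqr
      obtain ⟨α, β, γ, δ⟩ := q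
      obtain ⟨α', β', γ', δ'⟩ := r
      simp only at g1 g2 e1 e2 p0 p1 p2 p3 p4 r0 r1 r2 r3 r4
      subst g1 g2
      have hd : δ = δ' := by
        have : β * γ * δ = β * γ * δ' := by rw [e1, e2]
        exact Nat.eq_of_mul_eq_mul_left (Nat.mul_pos p1 p2) this
      subst hd
      have ha : α = α' := by
        have k1 : (α : ℤ) * (m * w - c3) = c1 * γ + c2 * β := by
          have : (m : ℤ) * (α * β * γ * δ) = c1 * γ + c2 * β + c3 * α := by exact_mod_cast p4
          have hwz : (β : ℤ) * γ * δ = w := by exact_mod_cast e1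
          rw [← hwz]; linarith
        have k2 : (α' : ℤ) * (m * w - c3) = c1 * γ + c2 * β := by
          have : (m : ℤ) * (α' * β * γ * δ) = c1 * γ + c2 * β + c3 * α' := by exact_mod_cast r4
          have hwz : (β : ℤ) * γ * δ = w := by exact_mod_cast e1
          rw [← hwz]; linarith
        have k3 : (0 : ℤ) < c1 * γ + c2 * β := by positivity
        have k4 : ((m : ℤ) * w - c3) ≠ 0 := by
          intro h0
          rw [h0, mul_zero] at k1
          omega
        have k5 : (α : ℤ) = α' := mul_right_cancel₀ k4 (k1.trans k2.symm)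
        exact_mod_cast k5
      rw [ha]
  have h1 : (w.divisors.card : ℝ) ≤ T := hT w hwpos hwM
  have h2 : (0 : ℝ) ≤ (w.divisors.card : ℝ) := by positivity
  calc (S.card : ℝ) ≤ ((w.divisors ×ˢ w.divisors).card : ℝ) := by exact_mod_cast hcard
    _ = (w.divisors.card : ℝ) * (w.divisors.card : ℝ) := by
        rw [Finset.card_product]; push_cast; rfl
    _ ≤ T * T := mul_le_mul h1 h1 h2 (h2.trans h1)
    _ = T ^ 2 := by ring

theorem class2 (m c1 c2 c3 h M : ℕ) (T X : ℝ) (hm : 0 < m) (hc1 : 0 < c1) (hc2 : 0 < c2)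
    (hc3 : 0 < c3) (hh : 0 < h) (hco : h.Coprime m) (hX : 0 ≤ X)
    (hT : ∀ x : ℕ, 1 ≤ x → x ≤ M → (x.divisors.card : ℝ) ≤ T)
    (S : Finset (ℕ × ℕ × ℕ × ℕ))
    (hS : ∀ q ∈ S, Quad m c1 c2 c3 q ∧
      (∃ e : ℕ, h * e + c3 = m * (q.2.1 * q.2.2.1 * q.2.2.2) ∧ (e : ℝ) ≤ X) ∧
      m * (q.2.1 * q.2.2.1 * q.2.2.2) ≤ M) :
    (S.card : ℝ) ≤ (X / m + 1) * T ^ 2 := by
  classical
  set ef : ℕ × ℕ × ℕ × ℕ → ℕ := fun q => (m * (q.2.1 * q.2.2.1 * q.2.2.2) - c3) / h with hef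
  have hefq : ∀ q ∈ S, h * ef q + c3 = m * (q.2.1 * q.2.2.1 * q.2.2.2) ∧ (ef q : ℝ) ≤ X := by
    intro q hq
    obtain ⟨-, ⟨e, e1, e2⟩, -⟩ := hS q hq
    have : ef q = e := by
      rw [hef]
      simp only
      rw [← e1, Nat.add_sub_cancel, Nat.mul_div_cancel_left e hh]
    rw [this]
    exact ⟨e1, e2⟩
  have hcong : ∀ q ∈ S, ∀ r ∈ S, ef q ≡ ef r [MOD m] := by
    intro q hq r hr
    have e1 := (hefq q hq).1
    have e2 := (hefq r hr).1
    have e3 : h * ef q + c3 ≡ h * ef r + c3 [MOD m] := by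
      rw [e1, e2]
      exact (Nat.modEq_zero_iff_dvd.mpr (dvd_mul_right _ _)).trans
        (Nat.modEq_zero_iff_dvd.mpr (dvd_mul_right _ _)).symm
    have e4 : h * ef q ≡ h * ef r [MOD m] := Nat.ModEq.add_right_cancel' c3 e3
    exact Nat.ModEq.cancel_left_of_coprime (by rw [Nat.gcd_comm]; exact hco) e4
  set I : Finset ℕ := S.image ef with hI
  have hXm : 0 ≤ X / m := by positivity
  have hIcard : (I.card : ℝ) ≤ X / m + 1 := by
    have h1 : I.card ≤ (Finset.range (⌊X / m⌋₊ + 1)).card := by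
      apply Finset.card_le_card_of_injOn (fun e => e / m)
      · intro e he
        have he' : e ∈ I := he
        rw [hI, Finset.mem_image] at he'
        obtain ⟨q, hq, rfl⟩ := he'
        simp only [Finset.coe_range, Set.mem_Iio]
        have h2 := (hefq q hq).2
        have h3 : ((ef q / m : ℕ) : ℝ) ≤ X / m := by
          calc ((ef q / m : ℕ) : ℝ) ≤ (ef q : ℝ) / m := Nat.cast_div_le
            _ ≤ X / m := by gcongr
        exact Nat.lt_succ_of_le (Nat.le_floor h3)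
      · intro e he e' he' hee
        have he1 : e ∈ I := he
        have he1' : e' ∈ I := he'
        rw [hI, Finset.mem_image] at he1 he1'
        obtain ⟨q, hq, rfl⟩ := he1
        obtain ⟨r, hr, rfl⟩ := he1'
        have h4 : ef q % m = ef r % m := hcong q hq r hr
        simp only at hee
        rw [← Nat.div_add_mod (ef q) m, ← Nat.div_add_mod (ef r) m, hee, h4]
    rw [Finset.card_range] at h1
    calc (I.card : ℝ) ≤ ((⌊X / m⌋₊ + 1 : ℕ) : ℝ) := by exact_mod_cast h1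
      _ = (⌊X / m⌋₊ : ℝ) + 1 := by push_cast; rfl
      _ ≤ X / m + 1 := by gcongr; exact Nat.floor_le hXm
  have hsum : S.card = ∑ e ∈ I, (S.filter (fun q => ef q = e)).card :=
    Finset.card_eq_sum_card_image ef S
  have hfib : ∀ e ∈ I, ((S.filter (fun q => ef q = e)).card : ℝ) ≤ T ^ 2 := by
    intro e _
    apply C2_fibre m c1 c2 c3 h M T hm hc1 hc2 hT _ e
    intro q hq
    rw [Finset.mem_filter] at hq
    obtain ⟨hq1, hq2⟩ := hq
    refine ⟨(hS q hq1).1, ?_, (hS q hq1).2.2⟩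
    rw [← hq2]
    exact (hefq q hq1).1
  calc (S.card : ℝ) = ∑ e ∈ I, ((S.filter (fun q => ef q = e)).card : ℝ) := by
        rw [hsum]; push_cast; rfl
    _ ≤ ∑ _e ∈ I, T ^ 2 := Finset.sum_le_sum hfib
    _ = (I.card : ℝ) * T ^ 2 := by rw [Finset.sum_const, nsmul_eq_mul]
    _ ≤ (X / m + 1) * T ^ 2 := by gcongr

end Pool.Agent.Lib.MP_9dd88f_nt.UB
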