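import Mathlib
import Pool.Agent.Lib.MP_9dd88f_nt.UB.Base
import Pool.Agent.Lib.MP_9dd88f_nt.UB.Div

/-!
# class 3 of the counting argument  (S-M)

Write q = (α, β, γ, δ) = (q.1, q.2.1, q.2.2.1, q.2.2.2).  `Quad` says: all four positive and
m αβγδ = c1 γ + c2 β + c3 α.  Hypotheses for every q in S: m αβδ ≤ c1 + X and αβδ ≤ M.
τ(x) ≤ T for 1 ≤ x ≤ M.  Claim: |S| ≤ (X/m + 1) T².
Proof.  Let w(q) = αβδ.  The equation gives γ (m w - c1) = c2 β + c3 α > 0, so c1 < m w ≤ c1 + X,
i.e. w lies in the real interval (c1/m, (c1+X)/m], which contains at most X/m + 1 integers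
(for instance: w ↦ w - (c1/m + 1) with c1/m the natural-number quotient maps injectively into
range(⌊X/m⌋ + 1): with w0 = c1/m + 1 one has w ≥ w0 and m (w - w0) < m w - c1 ≤ X since
m w0 > c1).
For given w there are at most T² quadruples: 1 ≤ w ≤ M, α and β are divisors of w, δ = w/(αβ), and
γ is determined by γ (m w - c1) = c2 β + c3 α.  So q ↦ (α, β) is injective on the fibre, into
divisors(w) × divisors(w).
Counting tools: `Finset.card_eq_sum_card_image` / `Finset.card_le_mul_card_image` and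
`Finset.card_le_card_of_injOn`.  S empty is trivial.
-/

namespace Pool.Agent.Lib.MP_9dd88f_nt.UB

open Finset

theorem class3 (m c1 c2 c3 M : ℕ) (T X : ℝ) (hm : 0 < m) (hc1 : 0 < c1) (hc2 : 0 < c2)
    (hc3 : 0 < c3) (hX : 0 ≤ X)
    (hT : ∀ x : ℕ, 1 ≤ x → x ≤ M → (x.divisors.card : ℝ) ≤ T)
    (S : Finset (ℕ × ℕ × ℕ × ℕ))
    (hS : ∀ q ∈ S, Quad m c1 c2 c3 q ∧
      ((m * (q.1 * q.2.1 * q.2.2.2) : ℕ) : ℝ) ≤ c1 + X ∧ q.1 * q.2.1 * q.2.2.2 ≤ M) :
    (S.card : ℝ) ≤ (X / m + 1) * T ^ 2 := by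
  classical
  have hmR : (0 : ℝ) < (m : ℝ) := by exact_mod_cast hm
  set w : ℕ × ℕ × ℕ × ℕ → ℕ := fun q => q.1 * q.2.1 * q.2.2.2 with hw
  have heq : ∀ q : ℕ × ℕ × ℕ × ℕ, Quad m c1 c2 c3 q →
      m * w q * q.2.2.1 = c1 * q.2.2.1 + (c2 * q.2.1 + c3 * q.1) := by
    intro q hq
    obtain ⟨_, _, _, _, h5⟩ := hq
    have h6 : m * w q * q.2.2.1 = m * (q.1 * q.2.1 * q.2.2.1 * q.2.2.2) := by
      simp only [hw]
      ring
    rw [h6, h5]
    ring
  have hgt : ∀ q : ℕ × ℕ × ℕ × ℕ, Quad m c1 c2 c3 q → c1 < m * w q := by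
    intro q hq
    have h1 := heq q hq
    obtain ⟨ha, hb, hg, hd, _⟩ := hq
    have h2 : 0 < c2 * q.2.1 := Nat.mul_pos hc2 hb
    have h3 : c1 * q.2.2.1 < m * w q * q.2.2.1 := by omega
    exact lt_of_mul_lt_mul_right h3 (Nat.zero_le _)
  set W0 : ℕ := c1 / m + 1 with hW0
  set N : ℕ := ⌊X / m⌋₊ + 1 with hN
  have hW0gt : c1 < m * W0 := Nat.lt_mul_div_succ c1 hm
  have hmap : ∀ q ∈ S, w q ∈ Finset.Ico W0 (W0 + N) := by
    intro q hq
    obtain ⟨h1, h2, _⟩ := hS q hq
    have h3 := hgt q h1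
    rw [Finset.mem_Ico]
    have h4 : W0 ≤ w q := by
      rw [hW0, Nat.succ_le_iff, Nat.div_lt_iff_lt_mul hm, mul_comm]
      exact h3
    refine ⟨h4, ?_⟩
    have h5 : ((w q - W0 : ℕ) : ℝ) ≤ X / m := by
      rw [le_div_iff₀ hmR, Nat.cast_sub h4]
      have h6 : ((m * w q : ℕ) : ℝ) ≤ c1 + X := h2
      have h7 : (c1 : ℝ) < ((m * W0 : ℕ) : ℝ) := by exact_mod_cast hW0gt
      rw [Nat.cast_mul] at h6 h7
      nlinarith
    have h8 : w q - W0 ≤ ⌊X / m⌋₊ := Nat.le_floor h5
    omega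
  rw [Finset.card_eq_sum_card_fiberwise hmap, Nat.cast_sum]
  have hfib : ∀ b ∈ Finset.Ico W0 (W0 + N), ((S.filter (fun q => w q = b)).card : ℝ) ≤ T ^ 2 := by
    intro b _
    rcases (S.filter (fun q => w q = b)).eq_empty_or_nonempty with he | ⟨q0, hq0⟩
    · rw [he, Finset.card_empty, Nat.cast_zero]
      exact sq_nonneg T
    · rw [Finset.mem_filter] at hq0
      obtain ⟨hq0S, hq0b⟩ := hq0
      obtain ⟨h1, _, h3⟩ := hS q0 hq0S
      obtain ⟨ha, hb, hg, hd, _⟩ := id h1
      have hb1 : 1 ≤ b := by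
        rw [← hq0b]
        exact Nat.mul_pos (Nat.mul_pos ha hb) hd
      have hbM : b ≤ M := by
        rw [← hq0b]
        exact h3
      have hbgt : c1 < m * b := by
        rw [← hq0b]
        exact hgt q0 h1
      have hcard : (S.filter (fun q => w q = b)).card ≤ (b.divisors ×ˢ b.divisors).card := by
        apply Finset.card_le_card_of_injOn (fun q => (q.1, q.2.1))
        · intro q hq
          have hq1 : q ∈ S.filter (fun q => w q = b) := hq
          rw [Finset.mem_filter] at hq1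
          have hwb : q.1 * q.2.1 * q.2.2.2 = b := hq1.2
          have hd1 : q.1 ∣ b := ⟨q.2.1 * q.2.2.2, by rw [← hwb]; ring⟩
          have hd2 : q.2.1 ∣ b := ⟨q.1 * q.2.2.2, by rw [← hwb]; ring⟩
          have hmem : (q.1, q.2.1) ∈ b.divisors ×ˢ b.divisors := by
            rw [Finset.mem_product]
            exact ⟨Nat.mem_divisors.mpr ⟨hd1, by omega⟩, Nat.mem_divisors.mpr ⟨hd2, by omega⟩⟩
          exact hmem
        · intro q hq q' hq' hqq
          have hq1 : q ∈ S.filter (fun q => w q = b) := hq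
          have hq1' : q' ∈ S.filter (fun q => w q = b) := hq'
          rw [Finset.mem_filter] at hq1 hq1'
          have hwb : q.1 * q.2.1 * q.2.2.2 = b := hq1.2
          have hwb' : q'.1 * q'.2.1 * q'.2.2.2 = b := hq1'.2
          have hqq1 : (q.1, q.2.1) = (q'.1, q'.2.1) := hqq
          have e1 : q.1 = q'.1 := (Prod.mk.inj hqq1).1
          have e2 : q.2.1 = q'.2.1 := (Prod.mk.inj hqq1).2
          have hQ := (hS q hq1.1).1
          have hQ' := (hS q' hq1'.1).1
          have hm1 := heq q hQ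
          have hm1' := heq q' hQ'
          have hwq : w q = b := hq1.2
          have hwq' : w q' = b := hq1'.2
          obtain ⟨ha', hb', _, _, _⟩ := hQ
          have e3 : q.2.2.2 = q'.2.2.2 := by
            rw [← e1, ← e2] at hwb'
            exact Nat.eq_of_mul_eq_mul_left (Nat.mul_pos ha' hb') (hwb.trans hwb'.symm)
          have e4 : q.2.2.1 = q'.2.2.1 := by
            rw [hwq] at hm1
            rw [hwq', ← e1, ← e2] at hm1'
            obtain ⟨r, hr⟩ := Nat.exists_eq_add_of_lt hbgt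
            rw [hr] at hm1 hm1'
            have h9 : (r + 1) * q.2.2.1 = c2 * q.2.1 + c3 * q.1 := by
              have : (c1 + r + 1) * q.2.2.1 = c1 * q.2.2.1 + (r + 1) * q.2.2.1 := by ring
              omega
            have h10 : (r + 1) * q'.2.2.1 = c2 * q.2.1 + c3 * q.1 := by
              have : (c1 + r + 1) * q'.2.2.1 = c1 * q'.2.2.1 + (r + 1) * q'.2.2.1 := by ring
              omega
            exact Nat.eq_of_mul_eq_mul_left (Nat.succ_pos r) (h9.trans h10.symm)
          exact Prod.ext e1 (Prod.ext e2 (Prod.ext e4 e3))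
      rw [Finset.card_product] at hcard
      have hTb := hT b hb1 hbM
      have h0 : (0 : ℝ) ≤ (b.divisors.card : ℝ) := Nat.cast_nonneg _
      calc ((S.filter (fun q => w q = b)).card : ℝ)
          ≤ ((b.divisors.card * b.divisors.card : ℕ) : ℝ) := by exact_mod_cast hcard
        _ = (b.divisors.card : ℝ) * (b.divisors.card : ℝ) := by rw [Nat.cast_mul]
        _ ≤ T * T := mul_le_mul hTb hTb h0 (h0.trans hTb)
        _ = T ^ 2 := (sq T).symm
  refine (Finset.sum_le_card_nsmul _ _ _ hfib).trans ?_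
  rw [Nat.card_Ico, nsmul_eq_mul]
  apply mul_le_mul_of_nonneg_right _ (sq_nonneg T)
  have h11 : W0 + N - W0 = N := by omega
  rw [h11, hN, Nat.cast_add, Nat.cast_one]
  have h12 := Nat.floor_le (div_nonneg hX hmR.le)
  linarith

end Pool.Agent.Lib.MP_9dd88f_nt.UB
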