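import Mathlib
import Pool.Agent.Lib.MP_9dd88f_nt.UB.Base
import Pool.Agent.Lib.MP_9dd88f_nt.UB.Div

/-!
# the gcd parametrisation of m / n = 1/t1 + 1/t2 + 1/t3  (M)

Statement: `param`.  Proof.  Put n_i = gcd(t_i, n), c_i = n / n_i, τ_i = t_i / n_i, so that
gcd(c_i, τ_i) = 1 (`Nat.coprime_div_gcd_div_gcd`), n = n_i c_i, t_i = n_i τ_i and, because
m/n = Σ 1/t_i, m = Σ n/t_i = Σ c_i/τ_i (rationals), i.e.
m τ1 τ2 τ3 = c1 τ2 τ3 + c2 τ1 τ3 + c3 τ1 τ2.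
Let L = lcm(τ1, τ2, τ3) > 0 and γ = L/τ1, β = L/τ2, α = L/τ3 (so τ1 γ = τ2 β = τ3 α = L).
Multiplying by L: m L = c1 γ + c2 β + c3 α.
Pairwise coprimality of α, β, γ: let a prime p divide two of them, say β and γ (the other two
cases are symmetric; prove an auxiliary lemma and use it three times).  If p | α as well then
τ1, τ2, τ3 all divide L/p, so L | L/p, a contradiction.  So p does not divide α.  p | γ | L = τ3 α,
hence p | τ3.  p | L, γ, β, hence p | c3 α by the equation, hence p | c3, which contradicts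
gcd(c3, τ3) = 1.
Hence α β γ | L (α | L, β | L, γ | L and pairwise coprime); put δ = L/(αβγ).  Then τ1 = L/γ = αβδ,
τ2 = L/β = αγδ, τ3 = L/α = βγδ, and m (α β γ δ) = m L = c1 γ + c2 β + c3 α.  The last claim is
gcd(c1, τ1) = 1.
-/

namespace Pool.Agent.Lib.MP_9dd88f_nt.UB

open Finset

private theorem Param_cop {m L τ1 τ2 τ3 γ β α c1 c2 c3 : ℕ} (hL : 0 < L) (h1 : τ1 * γ = L)
    (h2 : τ2 * β = L) (h3 : τ3 * α = L) (hmin : ∀ M, τ1 ∣ M → τ2 ∣ M → τ3 ∣ M → L ∣ M)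
    (hc3 : τ3.Coprime c3) (heq : m * L = c1 * γ + c2 * β + c3 * α) : γ.Coprime β := by
  by_contra hc
  obtain ⟨p, hp, ⟨γ', hγ⟩, ⟨β', hβ⟩⟩ := Nat.Prime.not_coprime_iff_dvd.1 hc
  have hp0 : 0 < p := hp.pos
  have hpL : p ∣ L := by
    rw [← h1, hγ]
    exact Dvd.intro_left (τ1 * γ') (by ring)
  by_cases hα : p ∣ α
  · obtain ⟨α', hα⟩ := hα
    have hM : L = p * (τ1 * γ') := by
      rw [← h1, hγ]
      ring
    have h4 : p * (τ1 * γ') = p * (τ2 * β') := by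
      rw [← hM, ← h2, hβ]
      ring
    have h5 : p * (τ1 * γ') = p * (τ3 * α') := by
      rw [← hM, ← h3, hα]
      ring
    have h6 : τ1 * γ' = τ2 * β' := Nat.eq_of_mul_eq_mul_left hp0 h4
    have h7 : τ1 * γ' = τ3 * α' := Nat.eq_of_mul_eq_mul_left hp0 h5
    have h8 : L ∣ τ1 * γ' := hmin _ (Dvd.intro _ rfl) (h6 ▸ Dvd.intro _ rfl) (h7 ▸ Dvd.intro _ rfl)
    have hM0 : 0 < τ1 * γ' := by
      rcases Nat.eq_zero_or_pos (τ1 * γ') with h9 | h9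
      · rw [h9, mul_zero] at hM
        lia
      · exact h9
    have h9 := Nat.le_of_dvd hM0 h8
    have h10 := hp.two_le
    nlinarith
  · have h4 : p ∣ τ3 := by
      have h5 : p ∣ τ3 * α := h3 ▸ hpL
      rcases hp.dvd_mul.1 h5 with h6 | h6
      · exact h6
      · exact absurd h6 hα
    have h5 : p ∣ c1 * γ + c2 * β := by
      refine dvd_add ?_ ?_
      · exact Dvd.dvd.mul_left ⟨γ', hγ⟩ c1
      · exact Dvd.dvd.mul_left ⟨β', hβ⟩ c2
    have h6 : p ∣ c3 * α := by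
      have h7 : p ∣ c1 * γ + c2 * β + c3 * α := heq ▸ Dvd.dvd.mul_left hpL m
      exact (Nat.dvd_add_right h5).1 h7
    have h7 : p ∣ c3 := by
      rcases hp.dvd_mul.1 h6 with h8 | h8
      · exact h8
      · exact absurd h8 hα
    have h8 : p ∣ 1 := by
      rw [← hc3]
      exact Nat.dvd_gcd h4 h7
    exact absurd (Nat.le_of_dvd one_pos h8) (not_le.2 hp.one_lt)

/-- the equation in natural numbers -/
private theorem Param_eq {m n t1 t2 t3 n1 n2 n3 c1 c2 c3 τ1 τ2 τ3 : ℕ} (hn : 0 < n)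
    (h1 : 0 < t1) (h2 : 0 < t2) (h3 : 0 < t3)
    (ht1 : t1 = n1 * τ1) (ht2 : t2 = n2 * τ2) (ht3 : t3 = n3 * τ3)
    (hn1 : n = n1 * c1) (hn2 : n = n2 * c2) (hn3 : n = n3 * c3)
    (heq : (m : ℚ) / n = 1 / t1 + 1 / t2 + 1 / t3) :
    m * (τ1 * τ2 * τ3) = c1 * (τ2 * τ3) + c2 * (τ1 * τ3) + c3 * (τ1 * τ2) := by
  have hn' : (n : ℚ) ≠ 0 := by exact_mod_cast hn.ne'
  have hτ1 : (τ1 : ℚ) ≠ 0 := by
    intro h
    have h' : τ1 = 0 := by exact_mod_cast h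
    rw [h', mul_zero] at ht1
    lia
  have hτ2 : (τ2 : ℚ) ≠ 0 := by
    intro h
    have h' : τ2 = 0 := by exact_mod_cast h
    rw [h', mul_zero] at ht2
    lia
  have hτ3 : (τ3 : ℚ) ≠ 0 := by
    intro h
    have h' : τ3 = 0 := by exact_mod_cast h
    rw [h', mul_zero] at ht3
    lia
  have key : ∀ {a b c t : ℕ}, t = a * b → n = a * c → (b : ℚ) ≠ 0 → 0 < t →
      (1 : ℚ) / t = (c / b) / n := by
    intro a b c t hab hac hb ht
    have hc : (c : ℚ) ≠ 0 := by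
      intro h
      have h' : c = 0 := by exact_mod_cast h
      rw [h', mul_zero] at hac
      lia
    have ha : (a : ℚ) ≠ 0 := by
      intro h
      have h' : a = 0 := by exact_mod_cast h
      rw [h', zero_mul] at hac
      lia
    have e1 : (t : ℚ) = a * b := by exact_mod_cast hab
    have e2 : (n : ℚ) = a * c := by exact_mod_cast hac
    rw [e1, e2]
    field_simp
  rw [key ht1 hn1 hτ1 h1, key ht2 hn2 hτ2 h2, key ht3 hn3 hτ3 h3, ← add_div, ← add_div] at heq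
  have h4 := (div_left_inj' hn').1 heq
  have h5 : (m : ℚ) * (τ1 * τ2 * τ3) = c1 * (τ2 * τ3) + c2 * (τ1 * τ3) + c3 * (τ1 * τ2) := by
    rw [h4]
    field_simp
  exact_mod_cast h5

theorem param (m n t1 t2 t3 : ℕ) (hm : 0 < m) (hn : 0 < n) (hco : m.Coprime n)
    (h1 : 0 < t1) (h2 : 0 < t2) (h3 : 0 < t3)
    (heq : (m : ℚ) / n = 1 / t1 + 1 / t2 + 1 / t3) :
    ∃ α β γ δ : ℕ, Quad m (n / t1.gcd n) (n / t2.gcd n) (n / t3.gcd n) (α, β, γ, δ) ∧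
      t1 = t1.gcd n * (α * β * δ) ∧ t2 = t2.gcd n * (α * γ * δ) ∧
      t3 = t3.gcd n * (β * γ * δ) ∧ (n / t1.gcd n).Coprime (α * β * δ) := by
  have hg1 : 0 < t1.gcd n := Nat.gcd_pos_of_pos_left _ h1
  have hg2 : 0 < t2.gcd n := Nat.gcd_pos_of_pos_left _ h2
  have hg3 : 0 < t3.gcd n := Nat.gcd_pos_of_pos_left _ h3
  have hco1 : (t1 / t1.gcd n).Coprime (n / t1.gcd n) := Nat.coprime_div_gcd_div_gcd hg1
  have hco2 : (t2 / t2.gcd n).Coprime (n / t2.gcd n) := Nat.coprime_div_gcd_div_gcd hg2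
  have hco3 : (t3 / t3.gcd n).Coprime (n / t3.gcd n) := Nat.coprime_div_gcd_div_gcd hg3
  have ht1 : t1 = t1.gcd n * (t1 / t1.gcd n) := (Nat.mul_div_cancel' (Nat.gcd_dvd_left _ _)).symm
  have ht2 : t2 = t2.gcd n * (t2 / t2.gcd n) := (Nat.mul_div_cancel' (Nat.gcd_dvd_left _ _)).symm
  have ht3 : t3 = t3.gcd n * (t3 / t3.gcd n) := (Nat.mul_div_cancel' (Nat.gcd_dvd_left _ _)).symm
  have hn1 : n = t1.gcd n * (n / t1.gcd n) := (Nat.mul_div_cancel' (Nat.gcd_dvd_right _ _)).symm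
  have hn2 : n = t2.gcd n * (n / t2.gcd n) := (Nat.mul_div_cancel' (Nat.gcd_dvd_right _ _)).symm
  have hn3 : n = t3.gcd n * (n / t3.gcd n) := (Nat.mul_div_cancel' (Nat.gcd_dvd_right _ _)).symm
  have hE := Param_eq hn h1 h2 h3 ht1 ht2 ht3 hn1 hn2 hn3 heq
  generalize hc1 : n / t1.gcd n = c1 at *
  generalize hc2 : n / t2.gcd n = c2 at *
  generalize hc3 : n / t3.gcd n = c3 at *
  generalize hτ1 : t1 / t1.gcd n = τ1 at *
  generalize hτ2 : t2 / t2.gcd n = τ2 at *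
  generalize hτ3 : t3 / t3.gcd n = τ3 at *
  have hp1 : 0 < τ1 := by
    rcases Nat.eq_zero_or_pos τ1 with h | h
    · rw [h, mul_zero] at ht1
      lia
    · exact h
  have hp2 : 0 < τ2 := by
    rcases Nat.eq_zero_or_pos τ2 with h | h
    · rw [h, mul_zero] at ht2
      lia
    · exact h
  have hp3 : 0 < τ3 := by
    rcases Nat.eq_zero_or_pos τ3 with h | h
    · rw [h, mul_zero] at ht3
      lia
    · exact h
  obtain ⟨L, hL0, ⟨γ, hγ⟩, ⟨β, hβ⟩, ⟨α, hα⟩, hmin⟩ : ∃ L : ℕ, 0 < L ∧ τ1 ∣ L ∧ τ2 ∣ L ∧ τ3 ∣ L ∧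
      ∀ M, τ1 ∣ M → τ2 ∣ M → τ3 ∣ M → L ∣ M := by
    refine ⟨Nat.lcm τ1 (Nat.lcm τ2 τ3), Nat.lcm_pos hp1 (Nat.lcm_pos hp2 hp3),
      Nat.dvd_lcm_left _ _, (Nat.dvd_lcm_left _ _).trans (Nat.dvd_lcm_right _ _),
      (Nat.dvd_lcm_right _ _).trans (Nat.dvd_lcm_right _ _), fun M g1 g2 g3 => ?_⟩
    exact Nat.lcm_dvd g1 (Nat.lcm_dvd g2 g3)
  have hγ0 : 0 < γ := by
    rcases Nat.eq_zero_or_pos γ with h | h
    · rw [h, mul_zero] at hγ
      lia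
    · exact h
  have hβ0 : 0 < β := by
    rcases Nat.eq_zero_or_pos β with h | h
    · rw [h, mul_zero] at hβ
      lia
    · exact h
  have hα0 : 0 < α := by
    rcases Nat.eq_zero_or_pos α with h | h
    · rw [h, mul_zero] at hα
      lia
    · exact h
  have hmL : m * L = c1 * γ + c2 * β + c3 * α := by
    have h4 : (τ1 * τ2 * τ3) * (m * L) = (τ1 * τ2 * τ3) * (c1 * γ + c2 * β + c3 * α) := by
      calc (τ1 * τ2 * τ3) * (m * L) = (m * (τ1 * τ2 * τ3)) * L := by ring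
        _ = (c1 * (τ2 * τ3) + c2 * (τ1 * τ3) + c3 * (τ1 * τ2)) * L := by rw [hE]
        _ = c1 * (τ2 * τ3) * L + c2 * (τ1 * τ3) * L + c3 * (τ1 * τ2) * L := by ring
        _ = c1 * (τ2 * τ3) * (τ1 * γ) + c2 * (τ1 * τ3) * (τ2 * β) + c3 * (τ1 * τ2) * (τ3 * α) := by
            rw [← hγ, ← hβ, ← hα]
        _ = (τ1 * τ2 * τ3) * (c1 * γ + c2 * β + c3 * α) := by ring
    exact Nat.eq_of_mul_eq_mul_left (by positivity) h4
  have hγβ : γ.Coprime β := Param_cop hL0 hγ.symm hβ.symm hα.symm hmin hco3 hmL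
  have hγα : γ.Coprime α := Param_cop hL0 hγ.symm hα.symm hβ.symm
    (fun M g1 g2 g3 => hmin M g1 g3 g2) hco2 (hmL.trans (by ring) :
      m * L = c1 * γ + c3 * α + c2 * β)
  have hβα : β.Coprime α := Param_cop hL0 hβ.symm hα.symm hγ.symm
    (fun M g1 g2 g3 => hmin M g3 g1 g2) hco1 (hmL.trans (by ring) :
      m * L = c2 * β + c3 * α + c1 * γ)
  have hdvd : α * β * γ ∣ L := by
    refine Nat.Coprime.mul_dvd_of_dvd_of_dvd ?_ ?_ ⟨τ1, by rw [hγ]; ring⟩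
    · exact Nat.Coprime.mul_left hγα.symm hγβ.symm
    · exact Nat.Coprime.mul_dvd_of_dvd_of_dvd hβα.symm ⟨τ3, by rw [hα]; ring⟩ ⟨τ2, by rw [hβ]; ring⟩
  obtain ⟨δ, hδ⟩ := hdvd
  have hδ0 : 0 < δ := by
    rcases Nat.eq_zero_or_pos δ with h | h
    · rw [h, mul_zero] at hδ
      lia
    · exact h
  have e1 : τ1 = α * β * δ := by
    refine Nat.eq_of_mul_eq_mul_right hγ0 ?_
    rw [← hγ, hδ]
    ring
  have e2 : τ2 = α * γ * δ := by
    refine Nat.eq_of_mul_eq_mul_right hβ0 ?_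
    rw [← hβ, hδ]
    ring
  have e3 : τ3 = β * γ * δ := by
    refine Nat.eq_of_mul_eq_mul_right hα0 ?_
    rw [← hα, hδ]
    ring
  refine ⟨α, β, γ, δ, ⟨hα0, hβ0, hγ0, hδ0, ?_⟩, ?_, ?_, ?_, ?_⟩
  · simp only
    rw [← hmL, hδ]
  · rw [← e1]
    exact ht1
  · rw [← e2]
    exact ht2
  · rw [← e3]
    exact ht3
  · rw [← e1]
    exact hco1.symm

end Pool.Agent.Lib.MP_9dd88f_nt.UB
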