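import Mathlib
import Pool.Agent.Lib.MP_9dd88f_nt.UB.Base
import Pool.Agent.Lib.MP_9dd88f_nt.UB.C1
import Pool.Agent.Lib.MP_9dd88f_nt.UB.C2
import Pool.Agent.Lib.MP_9dd88f_nt.UB.C3
import Pool.Agent.Lib.MP_9dd88f_nt.UB.Param
import Pool.Agent.Lib.MP_9dd88f_nt.UB.Div

/-!
# solutions with three terms and given gcds  (M-L)

Proof.  S ⊆ Sol3 m n, all t in S have gcds n1, n2, n3 with n.  If S is empty the claim is trivial
(T² ≥ 0, Z ≥ 0).  Otherwise n_i | n, n_i > 0; put c_i = n / n_i > 0.  By `param` choose for each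
t in S a quadruple q(t) = (α, β, γ, δ) (`choose!` or a function by cases); t ↦ q(t) is injective on
S because t1 = n1 αβδ, t2 = n2 αγδ, t3 = n3 βγδ.  Let Q = image; |S| = |Q|.
Size facts for t in S (t1 ≤ t2 ≤ t3):
(s1) m/n ≤ 3/t1, i.e. m t1 ≤ 3n, hence m αβδ ≤ 3n (even m n1 αβδ ≤ 3 n); in particular αβδ ≤ 3n.
(s2) 2/t2 ≥ m/n - 1/t1 = (m t1 - n)/(n t1) ≥ 1/(n t1), so t2 ≤ 2 n t1 and m t2 ≤ 2 n m t1 ≤ 6 n²,
     so αγδ ≤ t2 ≤ 6 n².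
(s3) t1 ≤ t2: n1 β ≤ n2 γ.   (s4) t2 ≤ t3: n2 α ≤ n3 β.
With (s3): c2 β ≤ c1 γ  (c1 = n/n1, c2 = n/n2: n1 c1 = n2 c2 = n; n1 n2 c2 β = n n1 β ≤ n n2 γ =
n1 n2 c1 γ).  With (s4): c3 α ≤ c2 β.
Put h = gcd(c1, c2) > 0.  α (m βγδ - c3) = c1 γ + c2 β, so h | α (m βγδ - c3), and gcd(h, α) = 1
(h | c1 and gcd(c1, αβδ) = 1), so there is e with h e + c3 = m βγδ and α h e = c1 γ + c2 β ≤ 2 c1 γ.
gcd(h, m) = 1 since h | n.  Moreover n ≤ n1 n2 h:  h n1 n2 ≥ n, because n | n1 n2 h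
(n1 n2 gcd(c1, c2) = gcd(n1 n2 c1, n1 n2 c2) = gcd(n n2, n n1) = n gcd(n1, n2)).  Hence
α e ≤ 2 γ n2:  α h e n1 ≤ 2 c1 n1 γ = 2 n γ ≤ 2 n1 n2 h γ.
Split Q into three filters:
 Q1: αδ ≤ Z;   Q2: γ n2 ≤ Z α m (reals);   Q3: n β ≤ Z n2 γ m.
Every q is in one of them: otherwise αδ > Z, γ n2 > Z α m, nβ > Z n2 γ m; multiply the three
(all positive or Z ≥ 0): αδ · γ n2 · nβ > Z³ α m · n2 γ m, i.e. (cancel α γ n2 > 0)  δ n β > Z³ m²,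
so m³ Z³ < m n βδ ≤ 3 n² (as m βδ ≤ m αβδ ≤ 3n), contradiction with hZ.  (If Z = 0 the product
inequality still holds since the three left sides are > 0 = right sides.)
 Q1: `class1` with M = 18 n³: αδ ≤ αβδ ≤ 3n ≤ M; c1 c2 ≤ n², m α² δ c3 = α (m αδ) c3 ≤ 3n·3n·n.
   |Q1| ≤ Z T².
 Q2: e ≤ 2 Z m since α e ≤ 2 γ n2 ≤ 2 Z α m; m βγδ ≤ (m β)(γδ) ≤ 3n·6n² = 18 n³ (m β ≤ m αβδ ≤ 3n,
   γδ ≤ αγδ ≤ 6n²).  `class2` with X = 2 Z m: |Q2| ≤ (2Z + 1) T².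
 Q3: γ (m αβδ - c1) = c2 β + c3 α ≤ 2 c2 β, and 2 c2 β n2 = 2 n β ≤ 2 Z n2 γ m, so
   m αβδ - c1 ≤ 2 Z m.  `class3` with X = 2 Z m: |Q3| ≤ (2Z + 1) T².
Sum: (5Z + 2) T².
-/

namespace Pool.Agent.Lib.MP_9dd88f_nt.UB

open Finset



theorem F3a_facts {m n n1 n2 n3 c1 c2 c3 α β γ δ : ℕ} (hm : 0 < m) (hn : 0 < n)
    (e1 : n1 * c1 = n) (e2 : n2 * c2 = n) (e3 : n3 * c3 = n)
    (hα : 0 < α) (hβ : 0 < β) (hγ : 0 < γ) (hδ : 0 < δ)
    (hq : m * (α * β * γ * δ) = c1 * γ + c2 * β + c3 * α)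
    (h12 : n1 * (α * β * δ) ≤ n2 * (α * γ * δ)) (h23 : n2 * (α * γ * δ) ≤ n3 * (β * γ * δ)) :
    m * (α * β * δ) ≤ 3 * n ∧ α * γ * δ ≤ 6 * n ^ 2 ∧ c2 * β ≤ c1 * γ ∧ c3 * α ≤ c2 * β := by
  have hn1 : 0 < n1 := Nat.pos_of_ne_zero fun h => by rw [h, zero_mul] at e1; omega
  have hn2 : 0 < n2 := Nat.pos_of_ne_zero fun h => by rw [h, zero_mul] at e2; omega
  have hn3 : 0 < n3 := Nat.pos_of_ne_zero fun h => by rw [h, zero_mul] at e3; omega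
  have hc1 : 0 < c1 := Nat.pos_of_ne_zero fun h => by rw [h, mul_zero] at e1; omega
  have hc2 : 0 < c2 := Nat.pos_of_ne_zero fun h => by rw [h, mul_zero] at e2; omega
  have s3 : n1 * β ≤ n2 * γ := by
    have h1 : (α * δ) * (n1 * β) ≤ (α * δ) * (n2 * γ) := by
      calc (α * δ) * (n1 * β) = n1 * (α * β * δ) := by ring
        _ ≤ n2 * (α * γ * δ) := h12
        _ = (α * δ) * (n2 * γ) := by ring
    exact Nat.le_of_mul_le_mul_left h1 (by positivity)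
  have s4 : n2 * α ≤ n3 * β := by
    have h1 : (γ * δ) * (n2 * α) ≤ (γ * δ) * (n3 * β) := by
      calc (γ * δ) * (n2 * α) = n2 * (α * γ * δ) := by ring
        _ ≤ n3 * (β * γ * δ) := h23
        _ = (γ * δ) * (n3 * β) := by ring
    exact Nat.le_of_mul_le_mul_left h1 (by positivity)
  have c21 : c2 * β ≤ c1 * γ := by
    have h1 : (n1 * n2) * (c2 * β) ≤ (n1 * n2) * (c1 * γ) := by
      calc (n1 * n2) * (c2 * β) = (n2 * c2) * (n1 * β) := by ring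
        _ = n * (n1 * β) := by rw [e2]
        _ ≤ n * (n2 * γ) := Nat.mul_le_mul_left _ s3
        _ = (n1 * c1) * (n2 * γ) := by rw [e1]
        _ = (n1 * n2) * (c1 * γ) := by ring
    exact Nat.le_of_mul_le_mul_left h1 (by positivity)
  have c32 : c3 * α ≤ c2 * β := by
    have h1 : (n2 * n3) * (c3 * α) ≤ (n2 * n3) * (c2 * β) := by
      calc (n2 * n3) * (c3 * α) = (n3 * c3) * (n2 * α) := by ring
        _ = n * (n2 * α) := by rw [e3]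
        _ ≤ n * (n3 * β) := Nat.mul_le_mul_left _ s4
        _ = (n2 * c2) * (n3 * β) := by rw [e2]
        _ = (n2 * n3) * (c2 * β) := by ring
    exact Nat.le_of_mul_le_mul_left h1 (by positivity)
  have hc1n : c1 ≤ n := by rw [← e1]; exact Nat.le_mul_of_pos_left _ hn1
  have hc2n : c2 ≤ n := by rw [← e2]; exact Nat.le_mul_of_pos_left _ hn2
  have a1 : m * (α * β * δ) ≤ 3 * c1 := by
    have h1 : γ * (m * (α * β * δ)) ≤ γ * (3 * c1) := by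
      calc γ * (m * (α * β * δ)) = m * (α * β * γ * δ) := by ring
        _ = c1 * γ + c2 * β + c3 * α := hq
        _ ≤ c1 * γ + c1 * γ + c1 * γ := by omega
        _ = γ * (3 * c1) := by ring
    exact Nat.le_of_mul_le_mul_left h1 hγ
  have a2 : α * β * δ ≤ 3 * c1 := le_trans (Nat.le_mul_of_pos_left _ hm) a1
  have b1 : c1 < m * (α * β * δ) := by
    by_contra hcon
    have h1 : m * (α * β * δ) ≤ c1 := not_lt.mp hcon
    have h2 : γ * (m * (α * β * δ)) ≤ γ * c1 := Nat.mul_le_mul_left _ h1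
    have h3 : γ * (m * (α * β * δ)) = γ * c1 + c2 * β + c3 * α := by
      calc γ * (m * (α * β * δ)) = m * (α * β * γ * δ) := by ring
        _ = c1 * γ + c2 * β + c3 * α := hq
        _ = γ * c1 + c2 * β + c3 * α := by ring
    have h4 : 0 < c2 * β := by positivity
    omega
  have b2 : γ ≤ 2 * (c2 * β) := by
    have h2 : γ * (c1 + 1) ≤ γ * (m * (α * β * δ)) := Nat.mul_le_mul_left _ b1
    have h3 : γ * (m * (α * β * δ)) = γ * c1 + c2 * β + c3 * α := by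
      calc γ * (m * (α * β * δ)) = m * (α * β * γ * δ) := by ring
        _ = c1 * γ + c2 * β + c3 * α := hq
        _ = γ * c1 + c2 * β + c3 * α := by ring
    have h4 : γ * (c1 + 1) = γ * c1 + γ := by ring
    omega
  refine ⟨a1.trans (by omega), ?_, c21, c32⟩
  calc α * γ * δ ≤ α * (2 * (c2 * β)) * δ :=
        Nat.mul_le_mul_right _ (Nat.mul_le_mul_left _ b2)
    _ = 2 * c2 * (α * β * δ) := by ring
    _ ≤ 2 * n * (3 * n) := Nat.mul_le_mul (by omega) (a2.trans (by omega))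
    _ = 6 * n ^ 2 := by ring

theorem f3_fixed (m n n1 n2 n3 : ℕ) (T Z : ℝ) (hm : 0 < m) (hn : 0 < n) (hco : m.Coprime n)
    (hT : ∀ x : ℕ, 1 ≤ x → x ≤ 18 * n ^ 3 → (x.divisors.card : ℝ) ≤ T)
    (hZ0 : 0 ≤ Z) (hZ : 3 * (n : ℝ) ^ 2 ≤ (m : ℝ) ^ 3 * Z ^ 3)
    (S : Finset (ℕ × ℕ × ℕ))
    (hS : ∀ t ∈ S, t ∈ Sol3 m n ∧ t.1.gcd n = n1 ∧ t.2.1.gcd n = n2 ∧ t.2.2.gcd n = n3) :
    (S.card : ℝ) ≤ T ^ 2 * (5 * Z + 2) := by
  classical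
  rcases S.eq_empty_or_nonempty with rfl | ⟨t0, ht0⟩
  · rw [card_empty, Nat.cast_zero]
    positivity
  obtain ⟨-, g1, g2, g3⟩ := hS t0 ht0
  have d1 : n1 ∣ n := g1 ▸ Nat.gcd_dvd_right _ _
  have d2 : n2 ∣ n := g2 ▸ Nat.gcd_dvd_right _ _
  have d3 : n3 ∣ n := g3 ▸ Nat.gcd_dvd_right _ _
  obtain ⟨c1, hc1⟩ : ∃ c, c = n / n1 := ⟨_, rfl⟩
  obtain ⟨c2, hc2⟩ : ∃ c, c = n / n2 := ⟨_, rfl⟩
  obtain ⟨c3, hc3⟩ : ∃ c, c = n / n3 := ⟨_, rfl⟩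
  have e1 : n1 * c1 = n := by rw [hc1]; exact Nat.mul_div_cancel' d1
  have e2 : n2 * c2 = n := by rw [hc2]; exact Nat.mul_div_cancel' d2
  have e3 : n3 * c3 = n := by rw [hc3]; exact Nat.mul_div_cancel' d3
  have hn1 : 0 < n1 := Nat.pos_of_dvd_of_pos d1 hn
  have hn2 : 0 < n2 := Nat.pos_of_dvd_of_pos d2 hn
  have hn3 : 0 < n3 := Nat.pos_of_dvd_of_pos d3 hn
  have hc1p : 0 < c1 := Nat.pos_of_ne_zero fun h => by rw [h, mul_zero] at e1; omega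
  have hc2p : 0 < c2 := Nat.pos_of_ne_zero fun h => by rw [h, mul_zero] at e2; omega
  have hc3p : 0 < c3 := Nat.pos_of_ne_zero fun h => by rw [h, mul_zero] at e3; omega
  have hc1n : c1 ≤ n := by rw [← e1]; exact Nat.le_mul_of_pos_left _ hn1
  have hc2n : c2 ≤ n := by rw [← e2]; exact Nat.le_mul_of_pos_left _ hn2
  have hc3n : c3 ≤ n := by rw [← e3]; exact Nat.le_mul_of_pos_left _ hn3
  have key : ∀ t ∈ S, ∃ q : ℕ × ℕ × ℕ × ℕ, Quad m c1 c2 c3 q ∧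
      t.1 = n1 * (q.1 * q.2.1 * q.2.2.2) ∧ t.2.1 = n2 * (q.1 * q.2.2.1 * q.2.2.2) ∧
      t.2.2 = n3 * (q.2.1 * q.2.2.1 * q.2.2.2) ∧ c1.Coprime (q.1 * q.2.1 * q.2.2.2) := by
    intro t ht
    obtain ⟨⟨p1, p2, p3, heq⟩, r1, r2, r3⟩ := hS t ht
    have q2 : 0 < t.2.1 := lt_of_lt_of_le p1 p2
    have q3 : 0 < t.2.2 := lt_of_lt_of_le q2 p3
    obtain ⟨α, β, γ, δ, h1, h2, h3, h4, h5⟩ := param m n t.1 t.2.1 t.2.2 hm hn hco p1 q2 q3 heq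
    rw [r1, r2, r3, ← hc1, ← hc2, ← hc3] at h1
    rw [r1] at h2
    rw [r2] at h3
    rw [r3] at h4
    rw [r1, ← hc1] at h5
    exact ⟨(α, β, γ, δ), h1, h2, h3, h4, h5⟩
  choose! q hq using key
  have hinj : Set.InjOn q (S : Set (ℕ × ℕ × ℕ)) := by
    intro t ht t' ht' h
    obtain ⟨-, a1, a2, a3, -⟩ := hq t ht
    obtain ⟨-, b1, b2, b3, -⟩ := hq t' ht'
    rw [h] at a1 a2 a3
    exact Prod.ext (a1.trans b1.symm) (Prod.ext (a2.trans b2.symm) (a3.trans b3.symm))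
  obtain ⟨Qs, hQs⟩ : ∃ Qs : Finset (ℕ × ℕ × ℕ × ℕ), Qs = S.image q := ⟨_, rfl⟩
  have hcard : S.card = Qs.card := by rw [hQs, card_image_of_injOn hinj]
  have hfacts : ∀ x ∈ Qs, Quad m c1 c2 c3 x ∧ c1.Coprime (x.1 * x.2.1 * x.2.2.2) ∧
      m * (x.1 * x.2.1 * x.2.2.2) ≤ 3 * n ∧ x.1 * x.2.2.1 * x.2.2.2 ≤ 6 * n ^ 2 ∧
      c2 * x.2.1 ≤ c1 * x.2.2.1 ∧ c3 * x.1 ≤ c2 * x.2.1 := by
    intro x hx
    rw [hQs, mem_image] at hx
    obtain ⟨t, ht, rfl⟩ := hx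
    obtain ⟨hQ, a1, a2, a3, a4⟩ := hq t ht
    obtain ⟨⟨p1, p2, p3, -⟩, -⟩ := hS t ht
    obtain ⟨w1, w2, w3, w4, w5⟩ := id hQ
    rw [a1, a2] at p2
    rw [a2, a3] at p3
    exact ⟨hQ, a4, F3a_facts hm hn e1 e2 e3 w1 w2 w3 w4 w5 p2 p3⟩
  obtain ⟨Q1, hQ1⟩ : ∃ Q1 : Finset (ℕ × ℕ × ℕ × ℕ),
      Q1 = Qs.filter fun x => ((x.1 * x.2.2.2 : ℕ) : ℝ) ≤ Z := ⟨_, rfl⟩
  obtain ⟨Q2, hQ2⟩ : ∃ Q2 : Finset (ℕ × ℕ × ℕ × ℕ),
      Q2 = Qs.filter fun x => (x.2.2.1 : ℝ) * n2 ≤ Z * x.1 * m := ⟨_, rfl⟩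
  obtain ⟨Q3, hQ3⟩ : ∃ Q3 : Finset (ℕ × ℕ × ℕ × ℕ),
      Q3 = Qs.filter fun x => (n : ℝ) * x.2.1 ≤ Z * n2 * x.2.2.1 * m := ⟨_, rfl⟩
  have hmR : (0 : ℝ) < m := by exact_mod_cast hm
  have hnR : (0 : ℝ) < n := by exact_mod_cast hn
  have hn2R : (0 : ℝ) < n2 := by exact_mod_cast hn2
  have hcov : Qs ⊆ Q1 ∪ (Q2 ∪ Q3) := by
    intro x hx
    obtain ⟨⟨w1, w2, w3, w4, w5⟩, -, f1, -⟩ := hfacts x hx
    rw [mem_union, mem_union, hQ1, hQ2, hQ3, mem_filter, mem_filter, mem_filter]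
    by_contra hcon
    simp only [hx, true_and, not_or, not_le] at hcon
    obtain ⟨k1, k2, k3⟩ := hcon
    have v1 : (0 : ℝ) < x.1 := by exact_mod_cast w1
    have v2 : (0 : ℝ) < x.2.1 := by exact_mod_cast w2
    have v3 : (0 : ℝ) < x.2.2.1 := by exact_mod_cast w3
    have v4 : (0 : ℝ) < x.2.2.2 := by exact_mod_cast w4
    have l1 : Z * (Z * x.1 * m) < ((x.1 * x.2.2.2 : ℕ) : ℝ) * (x.2.2.1 * n2) :=
      mul_lt_mul'' k1 k2 hZ0 (by positivity)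
    have l2 : Z * (Z * x.1 * m) * (Z * n2 * x.2.2.1 * m) <
        ((x.1 * x.2.2.2 : ℕ) : ℝ) * (x.2.2.1 * n2) * (n * x.2.1) :=
      mul_lt_mul'' l1 k3 (by positivity) (by positivity)
    have l3 : ((x.1 : ℝ) * x.2.2.1 * n2) * (Z ^ 3 * m ^ 2) <
        ((x.1 : ℝ) * x.2.2.1 * n2) * (x.2.2.2 * n * x.2.1) := by
      push_cast at l2
      calc ((x.1 : ℝ) * x.2.2.1 * n2) * (Z ^ 3 * m ^ 2)
          = Z * (Z * x.1 * m) * (Z * n2 * x.2.2.1 * m) := by ring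
        _ < (x.1 : ℝ) * x.2.2.2 * (x.2.2.1 * n2) * (n * x.2.1) := l2
        _ = _ := by ring
    have l4 : Z ^ 3 * (m : ℝ) ^ 2 < x.2.2.2 * n * x.2.1 := lt_of_mul_lt_mul_left l3 (by positivity)
    have l5 : (m : ℝ) * (x.2.1 * x.2.2.2) ≤ 3 * n := by
      have : m * (x.2.1 * x.2.2.2) ≤ 3 * n := by
        refine le_trans (Nat.mul_le_mul_left _ ?_) f1
        calc x.2.1 * x.2.2.2 ≤ x.1 * (x.2.1 * x.2.2.2) := Nat.le_mul_of_pos_left _ w1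
          _ = x.1 * x.2.1 * x.2.2.2 := by ring
      exact_mod_cast this
    have l6 : (m : ℝ) * (Z ^ 3 * m ^ 2) < m * (x.2.2.2 * n * x.2.1) :=
      mul_lt_mul_of_pos_left l4 hmR
    have l7 : (m : ℝ) * (x.2.2.2 * n * x.2.1) = n * (m * (x.2.1 * x.2.2.2)) := by ring
    have l8 : (n : ℝ) * (m * (x.2.1 * x.2.2.2)) ≤ n * (3 * n) :=
      mul_le_mul_of_nonneg_left l5 hnR.le
    have l9 : (m : ℝ) ^ 3 * Z ^ 3 = m * (Z ^ 3 * m ^ 2) := by ring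
    nlinarith
  have hn1' : 1 ≤ n := hn
  have hpow : n ≤ n ^ 3 := Nat.le_self_pow (by norm_num) n
  have hpow2 : n ^ 2 ≤ n ^ 3 := Nat.pow_le_pow_right hn (by norm_num)
  -- first class
  have b1 : (Q1.card : ℝ) ≤ Z * T ^ 2 := by
    refine class1 m c1 c2 c3 (18 * n ^ 3) T Z hm hc1p hc2p hc3p hZ0 hT Q1 ?_
    intro x hx
    rw [hQ1, mem_filter] at hx
    obtain ⟨hx, hz⟩ := hx
    obtain ⟨hQ, -, f1, -⟩ := hfacts x hx
    obtain ⟨w1, w2, w3, w4, w5⟩ := id hQ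
    have u1 : m * (x.1 * x.2.2.2) ≤ 3 * n := by
      refine le_trans (Nat.mul_le_mul_left _ ?_) f1
      calc x.1 * x.2.2.2 ≤ x.2.1 * (x.1 * x.2.2.2) := Nat.le_mul_of_pos_left _ w2
        _ = x.1 * x.2.1 * x.2.2.2 := by ring
    have u2 : x.1 * x.2.2.2 ≤ 3 * n := le_trans (Nat.le_mul_of_pos_left _ hm) u1
    have u3 : x.1 ≤ 3 * n := le_trans (Nat.le_mul_of_pos_right _ w4) u2
    refine ⟨hQ, hz, by omega, ?_⟩
    have u4 : m * x.1 ^ 2 * x.2.2.2 * c3 ≤ 9 * n ^ 3 := by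
      calc m * x.1 ^ 2 * x.2.2.2 * c3 = x.1 * (m * (x.1 * x.2.2.2)) * c3 := by ring
        _ ≤ (3 * n) * (3 * n) * n := Nat.mul_le_mul (Nat.mul_le_mul u3 u1) hc3n
        _ = 9 * n ^ 3 := by ring
    have u5 : c1 * c2 ≤ n ^ 2 := by
      calc c1 * c2 ≤ n * n := Nat.mul_le_mul hc1n hc2n
        _ = n ^ 2 := by ring
    omega
  -- second class
  obtain ⟨h, hh⟩ : ∃ h, h = Nat.gcd c1 c2 := ⟨_, rfl⟩
  have hhp : 0 < h := by rw [hh]; exact Nat.gcd_pos_of_pos_left _ hc1p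
  have hhc1 : h ∣ c1 := by rw [hh]; exact Nat.gcd_dvd_left _ _
  have hhc2 : h ∣ c2 := by rw [hh]; exact Nat.gcd_dvd_right _ _
  have hhn : h ∣ n := hhc1.trans ⟨n1, by rw [mul_comm]; exact e1.symm⟩
  have hhm : h.Coprime m := (Nat.Coprime.coprime_dvd_right hhn hco).symm
  have hnh : n ≤ n1 * n2 * h := by
    have h1 : n1 * n2 * h = n * Nat.gcd n2 n1 := by
      rw [hh, ← Nat.gcd_mul_left, ← Nat.gcd_mul_left]
      have a1 : n1 * n2 * c1 = n * n2 := by rw [← e1]; ring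
      have a2 : n1 * n2 * c2 = n * n1 := by
        calc n1 * n2 * c2 = n2 * c2 * n1 := by ring
          _ = n * n1 := by rw [e2]
      rw [a1, a2]
    rw [h1]
    exact Nat.le_mul_of_pos_right _ (Nat.gcd_pos_of_pos_left _ hn2)
  have hX : 0 ≤ 2 * Z * m := by positivity
  have hXm : 2 * Z * m / m = 2 * Z := by field_simp
  have b2 : (Q2.card : ℝ) ≤ (2 * Z + 1) * T ^ 2 := by
    rw [← hXm]
    refine class2 m c1 c2 c3 h (18 * n ^ 3) T (2 * Z * m) hm hc1p hc2p hc3p hhp hhm hX hT Q2 ?_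
    intro x hx
    rw [hQ2, mem_filter] at hx
    obtain ⟨hx, hz⟩ := hx
    obtain ⟨hQ, f0, f1, f2, f3, f4⟩ := hfacts x hx
    obtain ⟨w1, w2, w3, w4, w5⟩ := id hQ
    have v1 : (0 : ℝ) < x.1 := by exact_mod_cast w1
    have hE : x.1 * (m * (x.2.1 * x.2.2.1 * x.2.2.2)) = c1 * x.2.2.1 + c2 * x.2.1 + c3 * x.1 := by
      rw [← w5]; ring
    have hgt : c3 ≤ m * (x.2.1 * x.2.2.1 * x.2.2.2) := by
      have h1 : x.1 * c3 ≤ x.1 * (m * (x.2.1 * x.2.2.1 * x.2.2.2)) := by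
        rw [hE, mul_comm x.1 c3]; omega
      exact Nat.le_of_mul_le_mul_left h1 w1
    obtain ⟨D, hD⟩ := Nat.exists_eq_add_of_le hgt
    have hD2 : x.1 * D = c1 * x.2.2.1 + c2 * x.2.1 := by
      have h1 := hE
      rw [hD, mul_add, mul_comm x.1 c3] at h1
      omega
    have hdv : h ∣ D := by
      have h1 : h ∣ x.1 * D := by
        rw [hD2]
        exact (hhc1.mul_right _).add (hhc2.mul_right _)
      have h2 : h.Coprime x.1 := by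
        refine Nat.Coprime.coprime_dvd_left hhc1 (Nat.Coprime.coprime_dvd_right ?_ f0)
        exact ⟨x.2.1 * x.2.2.2, by ring⟩
      exact h2.dvd_of_dvd_mul_left h1
    obtain ⟨e, he⟩ := hdv
    refine ⟨hQ, ⟨e, ?_, ?_⟩, ?_⟩
    · rw [hD, he]; ring
    · have h1 : x.1 * e ≤ 2 * (n2 * x.2.2.1) := by
        have h2 : (n1 * h) * (x.1 * e) ≤ (n1 * h) * (2 * (n2 * x.2.2.1)) := by
          calc (n1 * h) * (x.1 * e) = n1 * (x.1 * D) := by rw [he]; ring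
            _ ≤ n1 * (2 * (c1 * x.2.2.1)) := Nat.mul_le_mul_left _ (by omega)
            _ = 2 * (n * x.2.2.1) := by rw [← e1]; ring
            _ ≤ 2 * ((n1 * n2 * h) * x.2.2.1) :=
                Nat.mul_le_mul_left _ (Nat.mul_le_mul_right _ hnh)
            _ = (n1 * h) * (2 * (n2 * x.2.2.1)) := by ring
        exact Nat.le_of_mul_le_mul_left h2 (by positivity)
      have h3 : (x.1 : ℝ) * e ≤ 2 * (n2 * x.2.2.1) := by exact_mod_cast h1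
      have h4 : (x.1 : ℝ) * e ≤ x.1 * (2 * Z * m) := by
        have : (x.1 : ℝ) * (2 * Z * m) = 2 * (Z * x.1 * m) := by ring
        rw [this]
        linarith
      exact le_of_mul_le_mul_left h4 v1
    · have h1 : 1 ≤ x.1 ^ 2 * x.2.2.2 := Nat.succ_le_of_lt (by positivity)
      calc m * (x.2.1 * x.2.2.1 * x.2.2.2)
          ≤ (m * (x.2.1 * x.2.2.1 * x.2.2.2)) * (x.1 ^ 2 * x.2.2.2) := Nat.le_mul_of_pos_right _ h1
        _ = (m * (x.1 * x.2.1 * x.2.2.2)) * (x.1 * x.2.2.1 * x.2.2.2) := by ring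
        _ ≤ (3 * n) * (6 * n ^ 2) := Nat.mul_le_mul f1 f2
        _ = 18 * n ^ 3 := by ring
  -- third class
  have b3 : (Q3.card : ℝ) ≤ (2 * Z + 1) * T ^ 2 := by
    rw [← hXm]
    refine class3 m c1 c2 c3 (18 * n ^ 3) T (2 * Z * m) hm hc1p hc2p hc3p hX hT Q3 ?_
    intro x hx
    rw [hQ3, mem_filter] at hx
    obtain ⟨hx, hz⟩ := hx
    obtain ⟨hQ, f0, f1, f2, f3, f4⟩ := hfacts x hx
    obtain ⟨w1, w2, w3, w4, w5⟩ := id hQ
    have v3 : (0 : ℝ) < x.2.2.1 := by exact_mod_cast w3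
    refine ⟨hQ, ?_, ?_⟩
    · have h1 : x.2.2.1 * (m * (x.1 * x.2.1 * x.2.2.2)) ≤ x.2.2.1 * c1 + 2 * (c2 * x.2.1) := by
        have h2 : x.2.2.1 * (m * (x.1 * x.2.1 * x.2.2.2)) =
            c1 * x.2.2.1 + c2 * x.2.1 + c3 * x.1 := by
          rw [← w5]; ring
        rw [h2, mul_comm x.2.2.1 c1]
        omega
      have h3 : (x.2.2.1 : ℝ) * ((m * (x.1 * x.2.1 * x.2.2.2) : ℕ) : ℝ) ≤
          x.2.2.1 * c1 + 2 * (c2 * x.2.1) := by exact_mod_cast h1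
      have h4 : (c2 : ℝ) * x.2.1 ≤ Z * x.2.2.1 * m := by
        have h5 : (n2 : ℝ) * (c2 * x.2.1) ≤ n2 * (Z * x.2.2.1 * m) := by
          have h6 : (n2 : ℝ) * c2 = n := by exact_mod_cast e2
          calc (n2 : ℝ) * (c2 * x.2.1) = n * x.2.1 := by rw [← mul_assoc, h6]
            _ ≤ Z * n2 * x.2.2.1 * m := hz
            _ = n2 * (Z * x.2.2.1 * m) := by ring
        exact le_of_mul_le_mul_left h5 hn2R
      have h7 : (x.2.2.1 : ℝ) * ((m * (x.1 * x.2.1 * x.2.2.2) : ℕ) : ℝ) ≤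
          x.2.2.1 * (c1 + 2 * Z * m) := by
        have : (x.2.2.1 : ℝ) * (c1 + 2 * Z * m) = x.2.2.1 * c1 + 2 * (Z * x.2.2.1 * m) := by ring
        rw [this]
        linarith
      exact le_of_mul_le_mul_left h7 v3
    · have h1 : x.1 * x.2.1 * x.2.2.2 ≤ m * (x.1 * x.2.1 * x.2.2.2) := Nat.le_mul_of_pos_left _ hm
      omega
  have hsum : (Qs.card : ℝ) ≤ Q1.card + (Q2.card + Q3.card) := by
    have h1 : Qs.card ≤ Q1.card + (Q2.card + Q3.card) :=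
      (card_le_card hcov).trans ((card_union_le _ _).trans
        (Nat.add_le_add_left (card_union_le _ _) _))
    exact_mod_cast h1
  rw [hcard]
  calc (Qs.card : ℝ) ≤ Q1.card + (Q2.card + Q3.card) := hsum
    _ ≤ Z * T ^ 2 + ((2 * Z + 1) * T ^ 2 + (2 * Z + 1) * T ^ 2) := by linarith
    _ = T ^ 2 * (5 * Z + 2) := by ring

end Pool.Agent.Lib.MP_9dd88f_nt.UB
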