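import Mathlib
import Pool.Agent.Lib.MP_9dd88f_nt.UB.Base
import Pool.Agent.Lib.MP_9dd88f_nt.UB.F3a
import Pool.Agent.Lib.MP_9dd88f_nt.UB.Div

/-!
# sum over the gcds  (S)

Proof from `f3_fixed`.  Map t ↦ (gcd(t1, n), gcd(t2, n), gcd(t3, n)), with values in
divisors(n)³, which has at most T³ elements (n ≤ 18 n³).  Each fibre has at most T²(5Z + 2)
elements by `f3_fixed`.  Use `Finset.card_eq_sum_card_image` (or fiberwise) and
`Finset.sum_le_card_nsmul`.  T ≥ 0 (even T ≥ 1, take x = 1).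
-/

namespace Pool.Agent.Lib.MP_9dd88f_nt.UB

open Finset



theorem f3_bound (m n : ℕ) (T Z : ℝ) (hm : 0 < m) (hn : 0 < n) (hco : m.Coprime n)
    (hT : ∀ x : ℕ, 1 ≤ x → x ≤ 18 * n ^ 3 → (x.divisors.card : ℝ) ≤ T)
    (hZ0 : 0 ≤ Z) (hZ : 3 * (n : ℝ) ^ 2 ≤ (m : ℝ) ^ 3 * Z ^ 3)
    (S : Finset (ℕ × ℕ × ℕ)) (hS : ∀ t ∈ S, t ∈ Sol3 m n) :
    (S.card : ℝ) ≤ T ^ 5 * (5 * Z + 2) := by
  classical
  have hn1 : 1 ≤ n := hn
  have hn3 : n ≤ 18 * n ^ 3 := by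
    have h1 : n ^ 1 ≤ n ^ 3 := Nat.pow_le_pow_right hn1 (by norm_num)
    rw [pow_one] at h1
    omega
  have hTn : (n.divisors.card : ℝ) ≤ T := hT n hn1 hn3
  have hT0 : 0 ≤ T := le_trans (Nat.cast_nonneg _) hTn
  set f : ℕ × ℕ × ℕ → ℕ × ℕ × ℕ := fun t => (t.1.gcd n, t.2.1.gcd n, t.2.2.gcd n) with hf
  have himg : S.image f ⊆ n.divisors ×ˢ (n.divisors ×ˢ n.divisors) := by
    intro x hx
    rw [Finset.mem_image] at hx
    obtain ⟨t, _, rfl⟩ := hx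
    have hd : ∀ a : ℕ, a.gcd n ∈ n.divisors := fun a =>
      Nat.mem_divisors.2 ⟨Nat.gcd_dvd_right a n, hn.ne'⟩
    exact Finset.mem_product.2 ⟨hd _, Finset.mem_product.2 ⟨hd _, hd _⟩⟩
  have hcard : ((S.image f).card : ℝ) ≤ T ^ 3 := by
    have h1 := Finset.card_le_card himg
    rw [Finset.card_product, Finset.card_product] at h1
    have h2 : ((S.image f).card : ℝ) ≤
        (n.divisors.card : ℝ) * ((n.divisors.card : ℝ) * (n.divisors.card : ℝ)) := by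
      exact_mod_cast h1
    have h3 : (n.divisors.card : ℝ) * ((n.divisors.card : ℝ) * (n.divisors.card : ℝ)) ≤
        T * (T * T) := by gcongr
    calc ((S.image f).card : ℝ) ≤ T * (T * T) := h2.trans h3
      _ = T ^ 3 := by ring
  have hB0 : 0 ≤ T ^ 2 * (5 * Z + 2) := by positivity
  have hfib : ∀ b ∈ S.image f, ((S.filter (fun a => f a = b)).card : ℝ) ≤
      T ^ 2 * (5 * Z + 2) := by
    intro b _
    refine f3_fixed m n b.1 b.2.1 b.2.2 T Z hm hn hco hT hZ0 hZ _ ?_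
    intro t ht
    rw [Finset.mem_filter] at ht
    obtain ⟨h1, h2⟩ := ht
    refine ⟨hS t h1, ?_, ?_, ?_⟩
    · exact congrArg (fun x : ℕ × ℕ × ℕ => x.1) h2
    · exact congrArg (fun x : ℕ × ℕ × ℕ => x.2.1) h2
    · exact congrArg (fun x : ℕ × ℕ × ℕ => x.2.2) h2
  have hsum : (S.card : ℝ) = ∑ b ∈ S.image f, ((S.filter (fun a => f a = b)).card : ℝ) := by
    rw [Finset.card_eq_sum_card_image f S]
    push_cast
    rfl
  rw [hsum]
  calc ∑ b ∈ S.image f, ((S.filter (fun a => f a = b)).card : ℝ)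
      ≤ (S.image f).card • (T ^ 2 * (5 * Z + 2)) := Finset.sum_le_card_nsmul _ _ _ hfib
    _ = ((S.image f).card : ℝ) * (T ^ 2 * (5 * Z + 2)) := by rw [nsmul_eq_mul]
    _ ≤ T ^ 3 * (T ^ 2 * (5 * Z + 2)) := mul_le_mul_of_nonneg_right hcard hB0
    _ = T ^ 5 * (5 * Z + 2) := by ring

end Pool.Agent.Lib.MP_9dd88f_nt.UB
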