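import Mathlib
import Pool.Agent.Lib.MP_9dd88f_nt.UB.Base
import Pool.Agent.Lib.MP_9dd88f_nt.UB.Div

/-!
# the number of admissible pairs  (S)

For (a, b) admissible: t = m a - n ≥ 1 and b ≤ 4 n a/t, a ≤ 5n/m, b ≥ 1; so for a given a the
number of b is ≤ 4 n a/t ≤ 20 n²/(m t).  The t = m a - n are distinct for distinct a and
1 ≤ t ≤ 4 n ≤ 16 n², so Σ_a 1/t ≤ H_{16 n²} ≤ 1 + log(16 n²) (`harmonic_le_one_add_log`).
Hence |I| ≤ Σ_a 20 n²/(m t_a) ≤ 20 (1 + log(16 n²)) n²/m.  Use `Finset.card_eq_sum_card_image`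
with the projection to a.
-/

namespace Pool.Agent.Lib.MP_9dd88f_nt.UB

open Finset

theorem card_adm (m n : ℕ) (hm : 0 < m) (hmn : m ≤ n)
    (I : Finset (ℕ × ℕ)) (hI : ∀ p ∈ I, Adm m n p.1 p.2) :
    (I.card : ℝ) ≤ 20 * (1 + Real.log (16 * n ^ 2)) * ((n : ℝ) ^ 2 / m) := by
  classical
  have hn : 0 < n := lt_of_lt_of_le hm hmn
  have hmR : (0 : ℝ) < m := by exact_mod_cast hm
  have hnR : (0 : ℝ) < n := by exact_mod_cast hn
  have h1 : I.card = ∑ a ∈ I.image Prod.fst, (I.filter (fun p => p.1 = a)).card :=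
    Finset.card_eq_sum_card_image Prod.fst I
  have hA : ∀ a ∈ I.image Prod.fst, n < m * a ∧ m * a ≤ 5 * n := by
    intro a ha
    obtain ⟨p, hp, rfl⟩ := mem_image.mp ha
    exact ⟨(hI p hp).1, (hI p hp).2.1⟩
  have hfib : ∀ a ∈ I.image Prod.fst, ((I.filter (fun p => p.1 = a)).card : ℝ) ≤
      20 * ((n : ℝ) ^ 2 / m) * (((m * a - n : ℕ) : ℝ))⁻¹ := by
    intro a ha
    obtain ⟨hlo, hhi⟩ := hA a ha
    have ht : 0 < m * a - n := by omega
    have hcard : (I.filter (fun q => q.1 = a)).card ≤ 4 * (n * a) / (m * a - n) := by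
      calc (I.filter (fun q => q.1 = a)).card
          ≤ (Finset.Icc 1 (4 * (n * a) / (m * a - n))).card := by
            apply Finset.card_le_card_of_injOn Prod.snd
            · intro q hq
              have hq' := Finset.mem_filter.mp (Finset.mem_coe.mp hq)
              obtain ⟨hqI, hqa⟩ := hq'
              obtain ⟨_, _, h3, h4⟩ := hI q hqI
              rw [hqa] at h3 h4
              rw [Finset.mem_coe, mem_Icc]
              constructor
              · by_contra hb
                have hb0 : q.2 = 0 := by omega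
                rw [hb0] at h3
                simp at h3
              · rw [Nat.le_div_iff_mul_le ht]
                calc q.2 * (m * a - n) = (m * a - n) * q.2 := Nat.mul_comm _ _
                  _ ≤ 4 * (n * a) := h4
            · intro q hq r hr hqr
              have hq' := Finset.mem_filter.mp (Finset.mem_coe.mp hq)
              have hr' := Finset.mem_filter.mp (Finset.mem_coe.mp hr)
              exact Prod.ext (hq'.2.trans hr'.2.symm) hqr
        _ = 4 * (n * a) / (m * a - n) := by simp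
    have htR : (0 : ℝ) < ((m * a - n : ℕ) : ℝ) := by exact_mod_cast ht
    have haR : (m : ℝ) * a ≤ 5 * n := by exact_mod_cast hhi
    calc ((I.filter (fun p => p.1 = a)).card : ℝ)
        ≤ ((4 * (n * a) / (m * a - n) : ℕ) : ℝ) := by exact_mod_cast hcard
      _ ≤ ((4 * (n * a) : ℕ) : ℝ) / ((m * a - n : ℕ) : ℝ) := Nat.cast_div_le
      _ = 4 * (n * a) * (((m * a - n : ℕ) : ℝ))⁻¹ := by
          rw [div_eq_mul_inv]; push_cast; ring
      _ ≤ 20 * ((n : ℝ) ^ 2 / m) * (((m * a - n : ℕ) : ℝ))⁻¹ := by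
          apply mul_le_mul_of_nonneg_right _ (inv_nonneg.mpr htR.le)
          have h5 : (a : ℝ) ≤ 5 * n / m := by
            rw [le_div_iff₀ hmR]; linarith
          calc (4 : ℝ) * (n * a) ≤ 4 * (n * (5 * n / m)) := by gcongr
            _ = 20 * ((n : ℝ) ^ 2 / m) := by ring
  have hsum : ∑ a ∈ I.image Prod.fst, (((m * a - n : ℕ) : ℝ))⁻¹ ≤
      1 + Real.log (16 * n ^ 2) := by
    have hinj : Set.InjOn (fun a => m * a - n) (I.image Prod.fst : Finset ℕ) := by
      intro a ha b hb hab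
      have ha' := hA a (Finset.mem_coe.mp ha)
      have hb' := hA b (Finset.mem_coe.mp hb)
      have hab' : m * a - n = m * b - n := hab
      have : m * a = m * b := by omega
      exact Nat.eq_of_mul_eq_mul_left hm this
    calc ∑ a ∈ I.image Prod.fst, (((m * a - n : ℕ) : ℝ))⁻¹
        = ∑ t ∈ (I.image Prod.fst).image (fun a => m * a - n), ((t : ℝ))⁻¹ := by
          rw [Finset.sum_image hinj]
      _ ≤ ∑ t ∈ (Finset.Icc 1 (16 * n ^ 2) : Finset ℕ), ((t : ℝ))⁻¹ := by
          apply Finset.sum_le_sum_of_subset_of_nonneg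
          · intro t ht
            obtain ⟨a, ha, rfl⟩ := mem_image.mp ht
            obtain ⟨hlo, hhi⟩ := hA a ha
            rw [mem_Icc]
            constructor
            · omega
            · have h16 : 4 * n ≤ 16 * n ^ 2 := by nlinarith
              omega
          · intro t _ _
            exact inv_nonneg.mpr (Nat.cast_nonneg t)
      _ = ((harmonic (16 * n ^ 2) : ℚ) : ℝ) := by
          rw [harmonic_eq_sum_Icc]; push_cast; rfl
      _ ≤ 1 + Real.log ((16 * n ^ 2 : ℕ) : ℝ) := harmonic_le_one_add_log _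
      _ = 1 + Real.log (16 * n ^ 2) := by push_cast; rfl
  calc (I.card : ℝ) = ∑ a ∈ I.image Prod.fst, ((I.filter (fun p => p.1 = a)).card : ℝ) := by
        rw [h1]; push_cast; rfl
    _ ≤ ∑ a ∈ I.image Prod.fst, 20 * ((n : ℝ) ^ 2 / m) * (((m * a - n : ℕ) : ℝ))⁻¹ :=
        Finset.sum_le_sum hfib
    _ = 20 * ((n : ℝ) ^ 2 / m) * ∑ a ∈ I.image Prod.fst, (((m * a - n : ℕ) : ℝ))⁻¹ := by
        rw [Finset.mul_sum]
    _ ≤ 20 * ((n : ℝ) ^ 2 / m) * (1 + Real.log (16 * n ^ 2)) :=
        mul_le_mul_of_nonneg_left hsum (by positivity)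
    _ = 20 * (1 + Real.log (16 * n ^ 2)) * ((n : ℝ) ^ 2 / m) := by ring

end Pool.Agent.Lib.MP_9dd88f_nt.UB
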