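import Mathlib
import Pool.Agent.Lib.MP_9dd88f_nt.UB.Base
import Pool.Agent.Lib.MP_9dd88f_nt.UB.Div

/-!
# the weight estimate  (M)

`gcd_dvd_aux`: N + y = t b, G = gcd(N, y b), c = gcd(b, y).  Claim G | t c².
 G | N, G | y b.  (1) G | t b²: t b² = b N + y b.  (2) G | t y²: t y² = y·t·y and
 y ≡ t b (mod G): in ℤ, t y² = t y (t b - N) = t² (y b) - t y N.
 Write b = c b', y = c y' with gcd(b', y') = 1 (`Nat.exists_coprime`).  Then G | (t c²) b'² and
 G | (t c²) y'², so G | gcd((t c²) b'², (t c²) y'²) = (t c²) gcd(b'², y'²) = t c²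
 (`Nat.gcd_mul_left`, `Nat.Coprime.pow`).

`wt_le`: put t = m a - n ≥ 1, N = NN m n a b = t b - n a ≥ 1, D = n a b, G = gcd(N, D) ≥ 1,
 c = gcd(b, n a) ≥ 1, j = jj m n a b = (N/c - 1)/t (natural quotients).
 wt = (D/G)^(2/3) / (N/G) = D^(2/3) G^(1/3) / N   (Nat.cast_div for the exact quotients).
 D ≤ 100 n⁴/(m² t): t b ≤ 4 n a and m a ≤ 5 n, so m² t D = m² n a (t b) ≤ 4 n² (m a)² ≤ 100 n⁴.
 Hence D^(2/3) ≤ 100^(2/3) (n⁴/m²)^(2/3) t^(-2/3) ≤ 22 (n²/m)^(4/3) t^(-2/3)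
 (100² = 10000 ≤ 10648 = 22³).
 It remains: t^(-2/3) G^(1/3) / N ≤ 1/N + 1/(t max(j,1)).
 Case j ≥ 1: N/c - 1 ≥ j t, so N ≥ c j t; and G ≤ t c² by `gcd_dvd_aux` (y = n a, y b = D up to
   commutativity: D = n * a * b).  So t^(-2/3) G^(1/3)/N ≤ t^(-2/3) t^(1/3) c^(2/3) / (c j t) =
   t^(-4/3) c^(-1/3)/j ≤ 1/(t j).
 Case j = 0: max = 1, and G ≤ N gives t^(-2/3) G^(1/3)/N ≤ t^(-2/3) N^(-2/3); if t ≥ N this is
   ≤ N^(-4/3) ≤ 1/N, otherwise ≤ t^(-4/3) ≤ 1/t.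
 (A cube-free way to do the inequalities: all are between positive reals, take cubes / use
 Real.rpow_le_rpow; or use x = t^(1/3) etc. as new real variables with x³ = t.)
-/

namespace Pool.Agent.Lib.MP_9dd88f_nt.UB

open Finset

theorem gcd_dvd_aux (N t b y : ℕ) (h : N + y = t * b) :
    N.gcd (y * b) ∣ t * (b.gcd y) ^ 2 := by
  have hGN : N.gcd (y * b) ∣ N := Nat.gcd_dvd_left _ _
  have hGy : N.gcd (y * b) ∣ y * b := Nat.gcd_dvd_right _ _
  set G := N.gcd (y * b) with hG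
  have h1 : G ∣ t * b ^ 2 := by
    have e : t * b ^ 2 = N * b + y * b := by
      calc t * b ^ 2 = (t * b) * b := by ring
        _ = (N + y) * b := by rw [h]
        _ = N * b + y * b := by ring
    rw [e]
    exact Nat.dvd_add (Dvd.dvd.mul_right hGN b) hGy
  have h2 : G ∣ t * y ^ 2 := by
    have e : N * (t * y) + t * y ^ 2 = (y * b) * t ^ 2 := by
      calc N * (t * y) + t * y ^ 2 = (N + y) * (t * y) := by ring
        _ = (t * b) * (t * y) := by rw [h]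
        _ = (y * b) * t ^ 2 := by ring
    have h3 : G ∣ N * (t * y) + t * y ^ 2 := by
      rw [e]
      exact Dvd.dvd.mul_right hGy _
    exact (Nat.dvd_add_right (Dvd.dvd.mul_right hGN _)).1 h3
  obtain ⟨b', y', hco, hb, hy⟩ := Nat.exists_coprime b y
  have h4 : G ∣ t * (b.gcd y) ^ 2 * b' ^ 2 := by
    have e : t * (b.gcd y) ^ 2 * b' ^ 2 = t * b ^ 2 := by
      calc t * (b.gcd y) ^ 2 * b' ^ 2 = t * (b' * b.gcd y) ^ 2 := by ring
        _ = t * b ^ 2 := by rw [← hb]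
    rw [e]
    exact h1
  have h5 : G ∣ t * (b.gcd y) ^ 2 * y' ^ 2 := by
    have e : t * (b.gcd y) ^ 2 * y' ^ 2 = t * y ^ 2 := by
      calc t * (b.gcd y) ^ 2 * y' ^ 2 = t * (y' * b.gcd y) ^ 2 := by ring
        _ = t * y ^ 2 := by rw [← hy]
    rw [e]
    exact h2
  have h6 := Nat.dvd_gcd h4 h5
  rw [Nat.gcd_mul_left, Nat.Coprime.pow 2 2 hco, mul_one] at h6
  exact h6

private lemma TA_cube (x : ℝ) (hx : 0 ≤ x) : (x ^ ((1 : ℝ) / 3)) ^ 3 = x := by
  rw [← Real.rpow_natCast, ← Real.rpow_mul hx]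
  norm_num

private lemma TA_sq (x : ℝ) (hx : 0 ≤ x) : x ^ ((2 : ℝ) / 3) = (x ^ ((1 : ℝ) / 3)) ^ 2 := by
  rw [← Real.rpow_natCast, ← Real.rpow_mul hx]
  norm_num

private lemma TA_four (x : ℝ) (hx : 0 ≤ x) : x ^ ((4 : ℝ) / 3) = (x ^ ((1 : ℝ) / 3)) ^ 4 := by
  rw [← Real.rpow_natCast, ← Real.rpow_mul hx]
  norm_num

/-- the final inequality between real numbers, case `j ≥ 1` -/
private lemma TA_real1 (g s c N t M : ℝ) (hg : 0 < g) (hs : 1 ≤ s) (hc : 1 ≤ c) (hM : 0 < M)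
    (hst : s ^ 3 = t) (hN : c * M * t ≤ N) (hG : g ^ 3 ≤ t * c ^ 2) :
    g / (s ^ 2 * N) ≤ 1 / (t * M) := by
  have hs0 : 0 < s := by linarith
  have hc0 : 0 < c := by linarith
  have ht0 : 0 < t := by rw [← hst]; positivity
  have hN0 : 0 < N := lt_of_lt_of_le (by positivity) hN
  have h1 : g ≤ s * c := by
    have h2 : g ^ 3 ≤ (s * c) ^ 3 := by
      calc g ^ 3 ≤ t * c ^ 2 := hG
        _ = s ^ 3 * c ^ 2 * 1 := by rw [hst]; ring
        _ ≤ s ^ 3 * c ^ 2 * c := mul_le_mul_of_nonneg_left hc (by positivity)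
        _ = (s * c) ^ 3 := by ring
    exact (pow_le_pow_iff_left₀ hg.le (by positivity) (by norm_num)).1 h2
  rw [div_le_div_iff₀ (by positivity) (by positivity)]
  calc g * (t * M) ≤ (s * c) * (t * M) := mul_le_mul_of_nonneg_right h1 (by positivity)
    _ = s * (c * M * t) := by ring
    _ ≤ s * N := mul_le_mul_of_nonneg_left hN hs0.le
    _ = s * 1 * N := by ring
    _ ≤ s * s * N := by
        apply mul_le_mul_of_nonneg_right _ hN0.le
        exact mul_le_mul_of_nonneg_left hs hs0.le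
    _ = 1 * (s ^ 2 * N) := by ring

/-- the final inequality between real numbers, case `j = 0` -/
private lemma TA_real0 (g s N t : ℝ) (hg : 0 < g) (hs : 1 ≤ s) (hN : 0 < N)
    (hst : s ^ 3 = t) (hG : g ^ 3 ≤ N) :
    g / (s ^ 2 * N) ≤ 1 / N + 1 / t := by
  have hs0 : 0 < s := by linarith
  have ht0 : 0 < t := by rw [← hst]; positivity
  rcases le_total g (s ^ 2) with h | h
  · have h1 : g / (s ^ 2 * N) ≤ 1 / N := by
      rw [div_le_div_iff₀ (by positivity) hN]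
      calc g * N ≤ s ^ 2 * N := mul_le_mul_of_nonneg_right h hN.le
        _ = 1 * (s ^ 2 * N) := by ring
    have h2 : 0 ≤ 1 / t := by positivity
    linarith
  · have h1 : g / (s ^ 2 * N) ≤ 1 / t := by
      rw [div_le_div_iff₀ (by positivity) ht0]
      have h3 : t ≤ s ^ 2 * g ^ 2 := by
        have h4 : s ^ 3 ≤ s ^ 2 * g ^ 2 := by
          have h5 : s ≤ g := by
            have : s ≤ s ^ 2 := by nlinarith
            linarith
          have h6 : s * 1 ≤ g * g := by nlinarith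
          calc s ^ 3 = s ^ 2 * (s * 1) := by ring
            _ ≤ s ^ 2 * (g * g) := mul_le_mul_of_nonneg_left h6 (by positivity)
            _ = s ^ 2 * g ^ 2 := by ring
        rw [hst] at h4
        exact h4
      calc g * t ≤ g * (s ^ 2 * g ^ 2) := mul_le_mul_of_nonneg_left h3 hg.le
        _ = s ^ 2 * g ^ 3 := by ring
        _ ≤ s ^ 2 * N := mul_le_mul_of_nonneg_left hG (by positivity)
        _ = 1 * (s ^ 2 * N) := by ring
    have h2 : 0 ≤ 1 / N := by positivity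
    linarith

theorem wt_le (m n a b : ℕ) (hm : 0 < m) (hn : 0 < n) (hA : Adm m n a b) :
    wt m n a b ≤ 22 * ((n : ℝ) ^ 2 / m) ^ ((4 : ℝ) / 3) *
      (1 / (NN m n a b : ℝ) + 1 / (((m * a - n : ℕ) : ℝ) * (max (jj m n a b) 1 : ℕ))) := by
  obtain ⟨h1, h2, h3, h4⟩ := hA
  have ha : 0 < a := by
    rcases Nat.eq_zero_or_pos a with h | h
    · rw [h, Nat.mul_zero] at h1
      omega
    · exact h
  unfold wt GG jj NN
  obtain ⟨t, ht⟩ : ∃ t, t = m * a - n := ⟨_, rfl⟩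
  rw [← ht] at h3 h4 ⊢
  have ht1 : 1 ≤ t := by omega
  have hb : 0 < b := by
    rcases Nat.eq_zero_or_pos b with h | h
    · rw [h, Nat.mul_zero] at h3
      omega
    · exact h
  obtain ⟨N, hN⟩ : ∃ N, N = t * b - n * a := ⟨_, rfl⟩
  rw [← hN]
  have hN1 : 1 ≤ N := by omega
  have hNe : N + n * a = t * b := by omega
  obtain ⟨D, hD⟩ : ∃ D, D = n * a * b := ⟨_, rfl⟩
  have hD1 : 1 ≤ D := by
    rw [hD]
    exact Nat.mul_pos (Nat.mul_pos hn ha) hb
  have hGdvd : N.gcd (n * a * b) ∣ t * (b.gcd (n * a)) ^ 2 := gcd_dvd_aux N t b (n * a) hNe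
  rw [← hD] at hGdvd ⊢
  obtain ⟨G, hG⟩ : ∃ G, G = N.gcd D := ⟨_, rfl⟩
  rw [← hG] at hGdvd ⊢
  have hG1 : 1 ≤ G := by
    rw [hG]
    exact Nat.gcd_pos_of_pos_left _ hN1
  have hGN : G ∣ N := by rw [hG]; exact Nat.gcd_dvd_left _ _
  have hGD : G ∣ D := by rw [hG]; exact Nat.gcd_dvd_right _ _
  obtain ⟨c, hc⟩ : ∃ c, c = b.gcd (n * a) := ⟨_, rfl⟩
  rw [← hc] at hGdvd ⊢
  have hc1 : 1 ≤ c := by
    rw [hc]
    exact Nat.gcd_pos_of_pos_left _ hb
  have hcN : c ∣ N := by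
    have e1 : c ∣ t * b := Dvd.dvd.mul_left (by rw [hc]; exact Nat.gcd_dvd_left _ _) t
    have e2 : c ∣ n * a := by rw [hc]; exact Nat.gcd_dvd_right _ _
    rw [← hNe] at e1
    exact (Nat.dvd_add_left e2).1 e1
  have hGle : G ≤ t * c ^ 2 := Nat.le_of_dvd (by positivity) hGdvd
  have hGleN : G ≤ N := Nat.le_of_dvd hN1 hGN
  -- the size of `D`
  have hDle : m ^ 2 * t * D ≤ 100 * n ^ 4 := by
    calc m ^ 2 * t * D = m ^ 2 * n * a * (t * b) := by rw [hD]; ring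
      _ ≤ m ^ 2 * n * a * (4 * (n * a)) := Nat.mul_le_mul_left _ h4
      _ = 4 * n ^ 2 * ((m * a) * (m * a)) := by ring
      _ ≤ 4 * n ^ 2 * ((5 * n) * (5 * n)) :=
          Nat.mul_le_mul_left _ (Nat.mul_le_mul h2 h2)
      _ = 100 * n ^ 4 := by ring
  -- passage to real numbers
  have htR : (1 : ℝ) ≤ (t : ℝ) := by exact_mod_cast ht1
  have hNR : (1 : ℝ) ≤ (N : ℝ) := by exact_mod_cast hN1
  have hDR : (1 : ℝ) ≤ (D : ℝ) := by exact_mod_cast hD1
  have hGR : (1 : ℝ) ≤ (G : ℝ) := by exact_mod_cast hG1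
  have hcR : (1 : ℝ) ≤ (c : ℝ) := by exact_mod_cast hc1
  have hmR : (0 : ℝ) < (m : ℝ) := by exact_mod_cast hm
  have hnR : (0 : ℝ) < (n : ℝ) := by exact_mod_cast hn
  have hDleR : (m : ℝ) ^ 2 * t * D ≤ 100 * (n : ℝ) ^ 4 := by exact_mod_cast hDle
  have hGleR : (G : ℝ) ≤ (t : ℝ) * (c : ℝ) ^ 2 := by exact_mod_cast hGle
  have hGleNR : (G : ℝ) ≤ (N : ℝ) := by exact_mod_cast hGleN
  rw [Nat.cast_div hGD (by positivity), Nat.cast_div hGN (by positivity)]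
  have hX0 : (0 : ℝ) ≤ (n : ℝ) ^ 2 / m := by positivity
  rw [TA_sq _ (by positivity), TA_four _ hX0, Real.div_rpow (by positivity) (by positivity)]
  set d : ℝ := (D : ℝ) ^ ((1 : ℝ) / 3) with hd
  set g : ℝ := (G : ℝ) ^ ((1 : ℝ) / 3) with hg
  set y : ℝ := ((n : ℝ) ^ 2 / m) ^ ((1 : ℝ) / 3) with hy
  obtain ⟨s, hs⟩ : ∃ s : ℝ, s = (t : ℝ) ^ ((1 : ℝ) / 3) := ⟨_, rfl⟩
  have hd3 : d ^ 3 = D := TA_cube _ (by positivity)
  have hg3 : g ^ 3 = G := TA_cube _ (by positivity)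
  have hy3 : y ^ 3 = (n : ℝ) ^ 2 / m := TA_cube _ hX0
  have hs3 : s ^ 3 = t := by rw [hs]; exact TA_cube _ (by positivity)
  have hd0 : 0 < d := by rw [hd]; positivity
  have hg0 : 0 < g := by rw [hg]; positivity
  have hy0 : 0 < y := by rw [hy]; positivity
  have hs0 : 0 < s := by rw [hs]; positivity
  have hs1 : 1 ≤ s := by
    rw [hs]
    exact Real.one_le_rpow htR (by norm_num)
  -- `d² s² ≤ 22 y⁴`
  have hkey : d ^ 2 * s ^ 2 ≤ 22 * y ^ 4 := by
    have e1 : d ^ 3 * s ^ 3 ≤ 100 * y ^ 6 := by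
      have e2 : y ^ 6 = ((n : ℝ) ^ 2 / m) ^ 2 := by
        calc y ^ 6 = (y ^ 3) ^ 2 := by ring
          _ = ((n : ℝ) ^ 2 / m) ^ 2 := by rw [hy3]
      rw [hd3, hs3, e2, div_pow, ← mul_div_assoc, le_div_iff₀ (by positivity)]
      calc (D : ℝ) * t * (m : ℝ) ^ 2 = (m : ℝ) ^ 2 * t * D := by ring
        _ ≤ 100 * (n : ℝ) ^ 4 := hDleR
        _ = 100 * ((n : ℝ) ^ 2) ^ 2 := by ring
    have e3 : (d ^ 2 * s ^ 2) ^ 3 ≤ (22 * y ^ 4) ^ 3 := by
      calc (d ^ 2 * s ^ 2) ^ 3 = (d ^ 3 * s ^ 3) ^ 2 := by ring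
        _ ≤ (100 * y ^ 6) ^ 2 := pow_le_pow_left₀ (by positivity) e1 2
        _ = 10000 * y ^ 12 := by ring
        _ ≤ 10648 * y ^ 12 := mul_le_mul_of_nonneg_right (by norm_num) (by positivity)
        _ = (22 * y ^ 4) ^ 3 := by ring
    exact (pow_le_pow_iff_left₀ (by positivity) (by positivity) (by norm_num)).1 e3
  -- the remaining inequality
  have hrem : g / (s ^ 2 * N) ≤
      1 / (N : ℝ) + 1 / ((t : ℝ) * ((max ((N / c - 1) / t) 1 : ℕ) : ℝ)) := by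
    rcases Nat.eq_zero_or_pos ((N / c - 1) / t) with hj | hj
    · rw [hj]
      have e : ((max 0 1 : ℕ) : ℝ) = 1 := by norm_num
      rw [e, mul_one]
      exact TA_real0 g s N t hg0 hs1 (by linarith) hs3 (by rw [hg3]; exact hGleNR)
    · obtain ⟨j, hjj⟩ : ∃ j, j = (N / c - 1) / t := ⟨_, rfl⟩
      rw [← hjj] at hj ⊢
      have e : max j 1 = j := max_eq_left hj
      rw [e]
      have hjt : j * t ≤ N / c - 1 := by
        rw [hjj]
        exact Nat.div_mul_le_self _ _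
      have hcj : c * j * t ≤ N := by
        obtain ⟨N', hN'⟩ := hcN
        have e1 : N / c = N' := by
          rw [hN']
          exact Nat.mul_div_cancel_left _ hc1
        rw [e1] at hjt
        have e2 : j * t ≤ N' := le_trans hjt (Nat.sub_le _ _)
        calc c * j * t = c * (j * t) := by ring
          _ ≤ c * N' := Nat.mul_le_mul_left _ e2
          _ = N := hN'.symm
      have hjR : (0 : ℝ) < (j : ℝ) := by exact_mod_cast hj
      have hcjR : (c : ℝ) * j * t ≤ N := by exact_mod_cast hcj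
      have h5 := TA_real1 g s c N t j hg0 hs1 hcR hjR hs3 hcjR (by rw [hg3]; exact hGleR)
      have h6 : 0 ≤ 1 / (N : ℝ) := by positivity
      linarith
  have hNpos : (0 : ℝ) < N := by linarith
  calc (d / g) ^ 2 / ((N : ℝ) / (G : ℝ)) = d ^ 2 * g / N := by
        rw [← hg3]
        field_simp
    _ = (d ^ 2 * s ^ 2) * (g / (s ^ 2 * N)) := by
        field_simp
    _ ≤ (22 * y ^ 4) * (g / (s ^ 2 * N)) :=
        mul_le_mul_of_nonneg_right hkey (by positivity)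
    _ ≤ (22 * y ^ 4) *
        (1 / (N : ℝ) + 1 / ((t : ℝ) * ((max ((N / c - 1) / t) 1 : ℕ) : ℝ))) :=
        mul_le_mul_of_nonneg_left hrem (by positivity)

end Pool.Agent.Lib.MP_9dd88f_nt.UB
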