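import Mathlib
import Pool.Agent.Lib.MP_9dd88f_nt.UB.Base
import Pool.Agent.Lib.MP_9dd88f_nt.UB.Div

/-!
# sum of 1/N over admissible pairs  (S-M)

For an admissible pair (a, b): t = m a - n ≥ 1 (as n < m a), N = NN m n a b = t b - n a ≥ 1, and
(*) (m a - n)(m b - n) = n² + m N  (natural subtraction; m b > n because a (m b - n) = n b + N > 0
in ℤ).  N ≤ 3 n a (t b ≤ 4 n a) and m a ≤ 5 n, so m N ≤ 15 n², n² + m N ≤ 16 n², and
N ≤ 15 n² ≤ 16 n².
So for each value N the number of pairs of I with this N is at most τ(n² + m N) ≤ T: the map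
(a, b) ↦ m a - n into divisors(n² + m N) is injective on the fibre ((a, b) is determined by
t = m a - n: a first, then m b - n = (n² + m N)/t gives b).
Σ_{p ∈ I} 1/N(p) = Σ_{N in the image} (number of p)/N ≤ T Σ_{N=1}^{16 n²} 1/N
≤ T (1 + log(16 n²)) (`harmonic_le_one_add_log`, with `harmonic` a rational sum; cast), by
`Finset.sum_fiberwise_of_maps_to` or `Finset.sum_comp`.
-/

namespace Pool.Agent.Lib.MP_9dd88f_nt.UB

open Finset

private lemma TB_basic (m n a b : ℕ) (hm : 0 < m) (hmn : m ≤ n) (h : Adm m n a b) :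
    ∃ t s N : ℕ, 1 ≤ t ∧ m * a = t + n ∧ m * b = s + n ∧ N = NN m n a b ∧ 1 ≤ N ∧
      t * s = n ^ 2 + m * N ∧ n ^ 2 + m * N ≤ 16 * n ^ 2 ∧ N ≤ 16 * n ^ 2 ∧ t = m * a - n := by
  obtain ⟨h1, h2, h3, h4⟩ := h
  obtain ⟨t, ht⟩ : ∃ t, m * a = t + n := ⟨m * a - n, by omega⟩
  have ht1 : m * a - n = t := by omega
  rw [ht1] at h3 h4
  have ht0 : 1 ≤ t := by omega
  obtain ⟨N, hN⟩ : ∃ N, t * b = N + n * a := ⟨t * b - n * a, by omega⟩
  have hN1 : NN m n a b = N := by
    unfold NN
    rw [ht1]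
    omega
  have hN0 : 1 ≤ N := by omega
  have hn0 : 0 < n := by omega
  have ha0 : 0 < a := by
    rcases Nat.eq_zero_or_pos a with h | h
    · subst h
      omega
    · exact h
  -- m b > n
  have hmb : n ≤ m * b := by
    by_contra hc
    push Not at hc
    have e1 : m * (t * b) = t * (m * b) := by ring
    have e2 : t * (m * b) ≤ t * n := Nat.mul_le_mul_left _ hc.le
    have e3 : m * (t * b) = m * N + n * (m * a) := by
      rw [hN]; ring
    have e4 : n * (m * a) = n * t + n * n := by rw [ht]; ring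
    have e5 : t * n = n * t := by ring
    have e6 : 0 < n * n := by positivity
    omega
  obtain ⟨s, hs⟩ : ∃ s, m * b = s + n := ⟨m * b - n, by omega⟩
  refine ⟨t, s, N, ht0, ht, hs, hN1.symm, hN0, ?_, ?_, ?_, ht1.symm⟩
  · have e1 : m * (t * b) = t * (m * b) := by ring
    have e3 : m * (t * b) = m * N + n * (m * a) := by
      rw [hN]; ring
    rw [e1, hs] at e3
    rw [ht] at e3
    nlinarith
  · have e1 : N ≤ 3 * (n * a) := by omega
    have e2 : m * N ≤ 3 * (n * (m * a)) := by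
      calc m * N ≤ m * (3 * (n * a)) := Nat.mul_le_mul_left _ e1
        _ = 3 * (n * (m * a)) := by ring
    have e3 : n * (m * a) ≤ n * (5 * n) := Nat.mul_le_mul_left _ h2
    have e4 : n * (5 * n) = 5 * n ^ 2 := by ring
    omega
  · have e1 : N ≤ 3 * (n * a) := by omega
    have e2 : m * N ≤ 3 * (n * (m * a)) := by
      calc m * N ≤ m * (3 * (n * a)) := Nat.mul_le_mul_left _ e1
        _ = 3 * (n * (m * a)) := by ring
    have e3 : n * (m * a) ≤ n * (5 * n) := Nat.mul_le_mul_left _ h2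
    have e4 : n * (5 * n) = 5 * n ^ 2 := by ring
    have e5 : N ≤ m * N := Nat.le_mul_of_pos_left _ hm
    omega

private lemma TB_harm (K : ℕ) (hK : 1 ≤ K) :
    ∑ N ∈ Finset.Icc 1 K, 1 / (N : ℝ) ≤ 1 + Real.log K := by
  have h := harmonic_le_one_add_log K
  rw [harmonic_eq_sum_Icc] at h
  push_cast at h
  simpa using h

theorem sum_inv_NN (m n : ℕ) (T : ℝ) (hm : 0 < m) (hmn : m ≤ n)
    (hT : ∀ x : ℕ, 1 ≤ x → x ≤ 16 * n ^ 2 → (x.divisors.card : ℝ) ≤ T)
    (I : Finset (ℕ × ℕ)) (hI : ∀ p ∈ I, Adm m n p.1 p.2) :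
    ∑ p ∈ I, 1 / (NN m n p.1 p.2 : ℝ) ≤ T * (1 + Real.log (16 * n ^ 2)) := by
  classical
  have hn0 : 0 < n := by omega
  have hT1 : (1 : ℝ) ≤ T := by
    have h1 := hT 1 le_rfl (by nlinarith)
    simpa using h1
  have hK : 1 ≤ 16 * n ^ 2 := by nlinarith
  have hmap : ∀ p ∈ I, NN m n p.1 p.2 ∈ Finset.Icc 1 (16 * n ^ 2) := by
    intro p hp
    obtain ⟨t, s, N, _, _, _, hN, hN1, _, _, hN2, _⟩ := TB_basic m n p.1 p.2 hm hmn (hI p hp)
    rw [← hN]
    exact Finset.mem_Icc.mpr ⟨hN1, hN2⟩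
  rw [← Finset.sum_fiberwise_of_maps_to hmap]
  have hfib : ∀ N ∈ Finset.Icc 1 (16 * n ^ 2),
      ∑ p ∈ I with NN m n p.1 p.2 = N, 1 / (NN m n p.1 p.2 : ℝ) ≤ T * (1 / (N : ℝ)) := by
    intro N hN
    have e1 : ∑ p ∈ I with NN m n p.1 p.2 = N, 1 / (NN m n p.1 p.2 : ℝ)
        = ∑ p ∈ I with NN m n p.1 p.2 = N, 1 / (N : ℝ) := by
      apply Finset.sum_congr rfl
      intro p hp
      rw [(Finset.mem_filter.mp hp).2]
    rw [e1, Finset.sum_const, nsmul_eq_mul]
    apply mul_le_mul_of_nonneg_right _ (by positivity)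
    rcases Finset.eq_empty_or_nonempty (I.filter (fun p => NN m n p.1 p.2 = N)) with h0 | h0
    · rw [h0]
      simp only [Finset.card_empty, Nat.cast_zero]
      linarith
    · obtain ⟨p0, hp0⟩ := h0
      rw [Finset.mem_filter] at hp0
      obtain ⟨t0, s0, N0, _, _, _, hN0, _, hts0, hle, _, _⟩ :=
        TB_basic m n p0.1 p0.2 hm hmn (hI p0 hp0.1)
      rw [hp0.2] at hN0
      rw [hN0] at hts0 hle
      have hx1 : 1 ≤ n ^ 2 + m * N := by nlinarith
      have h1 := hT (n ^ 2 + m * N) hx1 hle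
      refine le_trans ?_ h1
      have h2 : (I.filter (fun p => NN m n p.1 p.2 = N)).card ≤ (n ^ 2 + m * N).divisors.card := by
        apply Finset.card_le_card_of_injOn (fun p => m * p.1 - n)
        · intro p hp
          rw [Finset.mem_coe, Finset.mem_filter] at hp
          obtain ⟨t, s, N1, _, _, _, hN1, _, hts, _, _, ht⟩ :=
            TB_basic m n p.1 p.2 hm hmn (hI p hp.1)
          rw [hp.2] at hN1
          rw [hN1] at hts
          rw [Finset.mem_coe, Nat.mem_divisors]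
          refine ⟨?_, by omega⟩
          show m * p.1 - n ∣ _
          rw [← ht, ← hts]
          exact Dvd.intro _ rfl
        · intro p hp q hq hpq
          rw [Finset.mem_coe, Finset.mem_filter] at hp hq
          obtain ⟨t, s, N1, ht1, ha, hb, hN1, _, hts, _, _, ht⟩ :=
            TB_basic m n p.1 p.2 hm hmn (hI p hp.1)
          obtain ⟨t', s', N1', ht1', ha', hb', hN1', _, hts', _, _, ht'⟩ :=
            TB_basic m n q.1 q.2 hm hmn (hI q hq.1)
          rw [hp.2] at hN1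
          rw [hN1] at hts
          rw [hq.2] at hN1'
          rw [hN1'] at hts'
          have e2 : t = t' := by
            have : m * p.1 - n = m * q.1 - n := hpq
            omega
          subst e2
          have e3 : s = s' := by
            have : t * s = t * s' := by rw [hts, hts']
            exact Nat.eq_of_mul_eq_mul_left ht1 this
          subst e3
          have e4 : p.1 = q.1 := Nat.eq_of_mul_eq_mul_left hm (by rw [ha, ha'])
          have e5 : p.2 = q.2 := Nat.eq_of_mul_eq_mul_left hm (by rw [hb, hb'])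
          exact Prod.ext e4 e5
      exact_mod_cast h2
  calc _ ≤ ∑ N ∈ (Finset.Icc 1 (16 * n ^ 2) : Finset ℕ), T * (1 / (N : ℝ)) :=
        Finset.sum_le_sum hfib
    _ = T * ∑ N ∈ (Finset.Icc 1 (16 * n ^ 2) : Finset ℕ), 1 / (N : ℝ) := by rw [Finset.mul_sum]
    _ ≤ T * (1 + Real.log ((16 * n ^ 2 : ℕ) : ℝ)) :=
        mul_le_mul_of_nonneg_left (TB_harm _ hK) (by linarith)
    _ = _ := by push_cast; ring

end Pool.Agent.Lib.MP_9dd88f_nt.UB
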