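import Mathlib
import Pool.Agent.Lib.MP_9dd88f_nt.UB.Base
import Pool.Agent.Lib.MP_9dd88f_nt.UB.Div

/-!
# sum of 1/(t max(j,1))  (M)

For an admissible pair p = (a, b): t = m a - n ≥ 1, N = t b - n a ≥ 1, c = gcd(b, n a) ≥ 1, c | N,
j = (N/c - 1)/t.  The map p ↦ (a, c, j) is injective on I: given a and c, write b = c b',
n a = c y' ; N/c = t b' - y' ≥ 1 and j t ≤ N/c - 1 < (j+1) t; if b'_1 < b'_2 have the same (a, c, j)
then t ≤ t (b'_2 - b'_1) = N_2/c - N_1/c < t, a contradiction.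
So Σ_{p ∈ I} 1/(t max(j,1)) ≤ Σ_{a ∈ A} Σ_{c | n a} Σ_{j ≤ J} 1/(t_a max(j,1)) with A the set of
first components, J = 16 n² (j ≤ N ≤ 3 n a ≤ 15 n² since m a ≤ 5 n).
 Σ_{j=0}^{J} 1/max(j,1) = 1 + H_J ≤ 2 + log(16 n²) ≤ 2 (1 + log(16 n²));  the number of c is
 τ(n a) ≤ T since n a ≤ 5 n² ≤ 16 n²;  Σ_{a ∈ A} 1/t_a ≤ H_{16 n²} ≤ 1 + log(16 n²), since the
 t_a = m a - n are distinct (a ↦ t_a injective on A as m a > n) and t_a ≤ 4 n ≤ 16 n².
Product: 2 T (1 + log(16 n²))².  Harmonic sums: `harmonic_le_one_add_log` (rational, cast).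
T ≥ 1 from hT at x = 1.
-/

namespace Pool.Agent.Lib.MP_9dd88f_nt.UB

open Finset

private lemma TC_basic (m n a b : ℕ) (hm : 0 < m) (hmn : m ≤ n) (h : Adm m n a b) :
    ∃ t N c b' y : ℕ, 1 ≤ t ∧ m * a = t + n ∧ t = m * a - n ∧ t ≤ 4 * n ∧ a ≤ 5 * n ∧ 0 < a ∧
      c = b.gcd (n * a) ∧ 1 ≤ c ∧ b = c * b' ∧ n * a = c * y ∧ NN m n a b = N ∧
      N = c * (N / c) ∧ t * b' = N / c + y ∧ 1 ≤ N / c ∧ N / c ≤ 15 * n ^ 2 := by
  obtain ⟨h1, h2, h3, h4⟩ := h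
  obtain ⟨t, ht⟩ : ∃ t, m * a = t + n := ⟨m * a - n, by omega⟩
  have ht1 : m * a - n = t := by omega
  rw [ht1] at h3 h4
  have ht0 : 1 ≤ t := by omega
  obtain ⟨N, hN⟩ : ∃ N, t * b = N + n * a := ⟨t * b - n * a, by omega⟩
  have hN1 : NN m n a b = N := by
    unfold NN
    rw [ht1]
    omega
  have hN0 : 1 ≤ N := by omega
  have hn0 : 0 < n := by omega
  have ha0 : 0 < a := by
    rcases Nat.eq_zero_or_pos a with h | h
    · subst h
      omega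
    · exact h
  have ha5 : a ≤ 5 * n := le_trans (Nat.le_mul_of_pos_left _ hm) h2
  obtain ⟨c, hc⟩ : ∃ c, c = b.gcd (n * a) := ⟨_, rfl⟩
  have hna : 0 < n * a := Nat.mul_pos hn0 ha0
  have hc1 : 1 ≤ c := by
    rw [hc]
    exact Nat.gcd_pos_of_pos_right _ hna
  obtain ⟨b', hb'⟩ : c ∣ b := by rw [hc]; exact Nat.gcd_dvd_left _ _
  obtain ⟨y, hy⟩ : c ∣ n * a := by rw [hc]; exact Nat.gcd_dvd_right _ _
  have hcN : c ∣ N := by
    have e1 : c ∣ N + n * a := by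
      rw [← hN, hb']
      exact ⟨t * b', by ring⟩
    exact (Nat.dvd_add_left ⟨y, hy⟩).mp e1
  obtain ⟨z, hz⟩ := hcN
  have hzd : N / c = z := by
    rw [hz]
    exact Nat.mul_div_cancel_left _ hc1
  have hz1 : 1 ≤ z := by
    rcases Nat.eq_zero_or_pos z with h | h
    · subst h
      omega
    · exact h
  refine ⟨t, N, c, b', y, ht0, ht, ht1.symm, by omega, ha5, ha0, hc, hc1, hb', hy, hN1, ?_, ?_, ?_,
    ?_⟩
  · rw [hzd]; exact hz
  · rw [hzd]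
    rw [hb', hy, hz] at hN
    have e1 : c * (t * b') = c * (z + y) := by
      calc c * (t * b') = t * (c * b') := by ring
        _ = c * z + c * y := hN
        _ = c * (z + y) := by ring
    exact Nat.eq_of_mul_eq_mul_left hc1 e1
  · rw [hzd]; exact hz1
  · rw [hzd]
    have e0 : z ≤ N := by
      rw [hz]
      exact Nat.le_mul_of_pos_left _ hc1
    have e1 : N ≤ 3 * (n * a) := by omega
    have e3 : n * a ≤ n * (5 * n) := Nat.mul_le_mul_left _ ha5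
    have e4 : n * (5 * n) = 5 * n ^ 2 := by ring
    omega

private lemma TC_harm (K : ℕ) :
    ∑ N ∈ Finset.Icc 1 K, 1 / (N : ℝ) ≤ 1 + Real.log K := by
  have h := harmonic_le_one_add_log K
  rw [harmonic_eq_sum_Icc] at h
  push_cast at h
  simpa using h

private lemma TC_block {t z1 z2 b1 b2 y j : ℕ} (ht : 1 ≤ t) (h1 : t * b1 = z1 + y)
    (h2 : t * b2 = z2 + y) (hz1 : 1 ≤ z1) (hz2 : 1 ≤ z2) (hj1 : (z1 - 1) / t = j)
    (hj2 : (z2 - 1) / t = j) : b1 ≤ b2 := by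
  by_contra hc
  push Not at hc
  have e1 : t * (b2 + 1) ≤ t * b1 := Nat.mul_le_mul_left _ hc
  have e2 : t * (b2 + 1) = t * b2 + t := by ring
  have f1 := Nat.div_add_mod (z1 - 1) t
  have f2 := Nat.div_add_mod (z2 - 1) t
  have g1 := Nat.mod_lt (z1 - 1) ht
  have g2 := Nat.mod_lt (z2 - 1) ht
  rw [hj1] at f1
  rw [hj2] at f2
  omega

theorem sum_tj (m n : ℕ) (T : ℝ) (hm : 0 < m) (hmn : m ≤ n)
    (hT : ∀ x : ℕ, 1 ≤ x → x ≤ 16 * n ^ 2 → (x.divisors.card : ℝ) ≤ T)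
    (I : Finset (ℕ × ℕ)) (hI : ∀ p ∈ I, Adm m n p.1 p.2) :
    ∑ p ∈ I, 1 / (((m * p.1 - n : ℕ) : ℝ) * (max (jj m n p.1 p.2) 1 : ℕ)) ≤
      2 * T * (1 + Real.log (16 * n ^ 2)) ^ 2 := by
  classical
  have hn0 : 0 < n := by omega
  obtain ⟨K, hKdef⟩ : ∃ K, K = 16 * n ^ 2 := ⟨_, rfl⟩
  have hn2 : n ≤ n ^ 2 := by nlinarith
  have hn21 : 1 ≤ n ^ 2 := by nlinarith
  have hT1 : (1 : ℝ) ≤ T := by
    have h1 := hT 1 le_rfl (by omega)
    simpa using h1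
  obtain ⟨L, hL⟩ : ∃ L : ℝ, L = Real.log (16 * (n : ℝ) ^ 2) := ⟨_, rfl⟩
  have hLK : Real.log (K : ℝ) = L := by
    rw [hL, hKdef]
    push_cast
    rfl
  have hL0 : 0 ≤ L := by
    rw [hL]
    apply Real.log_nonneg
    have : (1 : ℝ) ≤ (n : ℝ) ^ 2 := by exact_mod_cast hn21
    linarith
  rw [← hL]
  -- the map
  obtain ⟨g, hg⟩ : ∃ g : ℕ × ℕ → (_ : ℕ) × (ℕ × ℕ), ∀ p, g p =
      ⟨p.1, (p.2.gcd (n * p.1), jj m n p.1 p.2)⟩ := ⟨_, fun _ => rfl⟩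
  obtain ⟨f, hf⟩ : ∃ f : (_ : ℕ) × (ℕ × ℕ) → ℝ, ∀ x, f x =
      1 / (((m * x.1 - n : ℕ) : ℝ) * (max x.2.2 1 : ℕ)) := ⟨_, fun _ => rfl⟩
  have hinj : Set.InjOn g I := by
    intro p hp q hq hpq
    rw [hg, hg] at hpq
    simp only [Sigma.mk.injEq, heq_eq_eq, Prod.mk.injEq] at hpq
    obtain ⟨e1, e2, e3⟩ := hpq
    obtain ⟨a, b⟩ := p
    obtain ⟨a', b2⟩ := q
    simp only at e1 e2 e3
    subst e1
    obtain ⟨t, N, c, b', y, ht1, ht2, ht3, _, _, _, hc, hc1, hb, hy, hN, hNc, hz, hz1, _⟩ :=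
      TC_basic m n a b hm hmn (hI _ hp)
    obtain ⟨t', N', c', b'', y', ht1', ht2', ht3', _, _, _, hc', hc1', hb2, hy', hN', hNc', hz',
      hz1', _⟩ := TC_basic m n a b2 hm hmn (hI _ hq)
    have q1 : t' = t := by omega
    subst q1
    have q2 : c' = c := by rw [hc, hc', e2]
    subst q2
    have q3 : y' = y := Nat.eq_of_mul_eq_mul_left hc1 (by rw [← hy, ← hy'])
    subst q3
    unfold jj at e3
    rw [hN, hN', ← ht3, ← hc, ← hc'] at e3
    have r1 := TC_block ht1 hz hz' hz1 hz1' e3 rfl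
    have r2 := TC_block ht1 hz' hz hz1' hz1 rfl e3
    have r3 : b' = b'' := le_antisymm r1 r2
    rw [hb, hb2, r3]
  have hsum1 : ∑ p ∈ I, 1 / (((m * p.1 - n : ℕ) : ℝ) * (max (jj m n p.1 p.2) 1 : ℕ))
      = ∑ x ∈ I.image g, f x := by
    rw [Finset.sum_image hinj]
    apply Finset.sum_congr rfl
    intro p _
    rw [hf, hg]
  obtain ⟨A, hA⟩ : ∃ A : Finset ℕ, A = I.image Prod.fst := ⟨_, rfl⟩
  obtain ⟨B, hB⟩ : ∃ B : Finset ((_ : ℕ) × (ℕ × ℕ)), B =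
      A.sigma (fun a => (n * a).divisors ×ˢ Finset.range (K + 1)) := ⟨_, rfl⟩
  have hsub : I.image g ⊆ B := by
    intro x hx
    rw [Finset.mem_image] at hx
    obtain ⟨p, hp, rfl⟩ := hx
    obtain ⟨a, b⟩ := p
    obtain ⟨t, N, c, b', y, ht1, ht2, ht3, _, _, ha0, hc, hc1, hb, hy, hN, hNc, hz, hz1, hz15⟩ :=
      TC_basic m n a b hm hmn (hI _ hp)
    rw [hg, hB, Finset.mem_sigma]
    refine ⟨?_, ?_⟩
    · rw [hA]
      exact Finset.mem_image_of_mem _ hp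
    · simp only [Finset.mem_product, Finset.mem_range, Nat.mem_divisors]
      refine ⟨⟨Nat.gcd_dvd_right _ _, (Nat.mul_pos hn0 ha0).ne'⟩, ?_⟩
      unfold jj
      rw [hN, ← ht3, ← hc]
      have := Nat.div_le_self (N / c - 1) t
      omega
  have hf0 : ∀ x, 0 ≤ f x := by
    intro x
    rw [hf]
    positivity
  have hAprop : ∀ a ∈ A, n < m * a ∧ m * a - n ≤ 4 * n ∧ 0 < a ∧ a ≤ 5 * n := by
    intro a ha
    rw [hA, Finset.mem_image] at ha
    obtain ⟨p, hp, rfl⟩ := ha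
    obtain ⟨t, N, c, b', y, ht1, ht2, ht3, ht4, ha5, ha0, _⟩ :=
      TC_basic m n p.1 p.2 hm hmn (hI _ hp)
    refine ⟨by omega, by omega, ha0, ha5⟩
  have hj : ∑ j ∈ Finset.range (K + 1), 1 / ((max j 1 : ℕ) : ℝ) ≤ 2 * (1 + L) := by
    have h1 : Finset.range (K + 1) = insert 0 (Finset.Icc 1 K) := by
      ext j
      simp only [Finset.mem_range, Finset.mem_insert, Finset.mem_Icc]
      omega
    rw [h1, Finset.sum_insert (by simp)]
    have h2 : ∑ j ∈ Finset.Icc 1 K, 1 / ((max j 1 : ℕ) : ℝ) = ∑ j ∈ Finset.Icc 1 K, 1 / (j : ℝ) := by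
      apply Finset.sum_congr rfl
      intro j hj
      rw [Finset.mem_Icc] at hj
      rw [max_eq_left hj.1]
    rw [h2]
    have h3 := TC_harm K
    rw [hLK] at h3
    have h4 : (1 : ℝ) / ((max 0 1 : ℕ) : ℝ) = 1 := by simp
    rw [h4]
    linarith
  have ha : ∑ a ∈ A, 1 / ((m * a - n : ℕ) : ℝ) ≤ 1 + L := by
    have hi : Set.InjOn (fun a => m * a - n) (A : Set ℕ) := by
      intro a ha b hb hab
      have h1 := (hAprop a ha).1
      have h2 := (hAprop b hb).1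
      have h3 : m * a - n = m * b - n := hab
      exact Nat.eq_of_mul_eq_mul_left hm (by omega)
    have h1 : ∑ a ∈ A, 1 / ((m * a - n : ℕ) : ℝ)
        = ∑ t ∈ A.image (fun a => m * a - n), 1 / (t : ℝ) := by
      rw [Finset.sum_image hi]
    rw [h1]
    have h2 : A.image (fun a => m * a - n) ⊆ Finset.Icc 1 K := by
      intro t ht
      rw [Finset.mem_image] at ht
      obtain ⟨a, ha, rfl⟩ := ht
      have h3 := hAprop a ha
      rw [Finset.mem_Icc]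
      omega
    have h3 : ∑ t ∈ A.image (fun a => m * a - n), 1 / (t : ℝ)
        ≤ ∑ t ∈ Finset.Icc 1 K, 1 / (t : ℝ) :=
      Finset.sum_le_sum_of_subset_of_nonneg h2 (fun _ _ _ => by positivity)
    have h4 := TC_harm K
    rw [hLK] at h4
    linarith
  have hinner : ∀ a ∈ A, ∑ x ∈ (n * a).divisors ×ˢ Finset.range (K + 1), f ⟨a, x⟩
      ≤ T * (2 * (1 + L)) * (1 / ((m * a - n : ℕ) : ℝ)) := by
    intro a ha
    obtain ⟨h1, h2, h3, h4⟩ := hAprop a ha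
    rw [Finset.sum_product]
    have e1 : ∀ c ∈ (n * a).divisors, ∑ j ∈ Finset.range (K + 1), f ⟨a, (c, j)⟩
        = (1 / ((m * a - n : ℕ) : ℝ)) * ∑ j ∈ Finset.range (K + 1), 1 / ((max j 1 : ℕ) : ℝ) := by
      intro c _
      rw [Finset.mul_sum]
      apply Finset.sum_congr rfl
      intro j _
      rw [hf]
      rw [one_div_mul_one_div]
    rw [Finset.sum_congr rfl e1, Finset.sum_const, nsmul_eq_mul]
    have hna1 : 1 ≤ n * a := Nat.mul_pos hn0 h3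
    have hna2 : n * a ≤ 16 * n ^ 2 := by
      have := Nat.mul_le_mul_left n h4
      have e4 : n * (5 * n) = 5 * n ^ 2 := by ring
      omega
    have h5 := hT (n * a) hna1 hna2
    have h6 : (0 : ℝ) ≤ 1 / ((m * a - n : ℕ) : ℝ) := by positivity
    have h7 : (0 : ℝ) ≤ ∑ j ∈ Finset.range (K + 1), 1 / ((max j 1 : ℕ) : ℝ) :=
      Finset.sum_nonneg (fun _ _ => by positivity)
    calc ((n * a).divisors.card : ℝ) * ((1 / ((m * a - n : ℕ) : ℝ)) *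
          ∑ j ∈ Finset.range (K + 1), 1 / ((max j 1 : ℕ) : ℝ))
        ≤ T * ((1 / ((m * a - n : ℕ) : ℝ)) *
          ∑ j ∈ Finset.range (K + 1), 1 / ((max j 1 : ℕ) : ℝ)) :=
          mul_le_mul_of_nonneg_right h5 (mul_nonneg h6 h7)
      _ ≤ T * ((1 / ((m * a - n : ℕ) : ℝ)) * (2 * (1 + L))) := by
          apply mul_le_mul_of_nonneg_left _ (by linarith)
          exact mul_le_mul_of_nonneg_left hj h6
      _ = _ := by ring
  calc ∑ p ∈ I, 1 / (((m * p.1 - n : ℕ) : ℝ) * (max (jj m n p.1 p.2) 1 : ℕ))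
      = ∑ x ∈ I.image g, f x := hsum1
    _ ≤ ∑ x ∈ B, f x := Finset.sum_le_sum_of_subset_of_nonneg hsub (fun x _ _ => hf0 x)
    _ = ∑ a ∈ A, ∑ x ∈ (n * a).divisors ×ˢ Finset.range (K + 1), f ⟨a, x⟩ := by
        rw [hB, Finset.sum_sigma]
    _ ≤ ∑ a ∈ A, T * (2 * (1 + L)) * (1 / ((m * a - n : ℕ) : ℝ)) := Finset.sum_le_sum hinner
    _ = T * (2 * (1 + L)) * ∑ a ∈ A, 1 / ((m * a - n : ℕ) : ℝ) := by rw [Finset.mul_sum]
    _ ≤ T * (2 * (1 + L)) * (1 + L) := by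
        apply mul_le_mul_of_nonneg_left ha
        have : 0 ≤ 1 + L := by linarith
        positivity
    _ = 2 * T * (1 + L) ^ 2 := by ring

end Pool.Agent.Lib.MP_9dd88f_nt.UB
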