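import Mathlib
import Pool.Agent.Lib.MP_9dd88f_nt.UB.Base
import Pool.Agent.Lib.MP_9dd88f_nt.UB.TA
import Pool.Agent.Lib.MP_9dd88f_nt.UB.TB
import Pool.Agent.Lib.MP_9dd88f_nt.UB.TC
import Pool.Agent.Lib.MP_9dd88f_nt.UB.Div

/-!
# assembly of the two-step lemma  (S)

Sum `wt_le` over I, then `sum_inv_NN` and `sum_tj`:
22 x (T L + 2 T L²) ≤ 66 T L² x with L = 1 + log(16 n²) ≥ 1, x = (n²/m)^(4/3) ≥ 0, T ≥ 1.
-/

namespace Pool.Agent.Lib.MP_9dd88f_nt.UB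

open Finset



theorem two_step (m n : ℕ) (T : ℝ) (hm : 0 < m) (hmn : m ≤ n)
    (hT : ∀ x : ℕ, 1 ≤ x → x ≤ 16 * n ^ 2 → (x.divisors.card : ℝ) ≤ T)
    (I : Finset (ℕ × ℕ)) (hI : ∀ p ∈ I, Adm m n p.1 p.2) :
    ∑ p ∈ I, wt m n p.1 p.2 ≤
      66 * T * (1 + Real.log (16 * n ^ 2)) ^ 2 * ((n : ℝ) ^ 2 / m) ^ ((4 : ℝ) / 3) := by
  have hn : 0 < n := lt_of_lt_of_le hm hmn
  have hn1 : (1 : ℝ) ≤ (n : ℝ) := by exact_mod_cast hn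
  have hx : (0 : ℝ) ≤ ((n : ℝ) ^ 2 / m) ^ ((4 : ℝ) / 3) := by positivity
  have hlog : 0 ≤ Real.log (16 * (n : ℝ) ^ 2) := by
    apply Real.log_nonneg
    nlinarith
  have hT1 : (1 : ℝ) ≤ T := by
    have h1 := hT 1 le_rfl (by nlinarith)
    simpa using h1
  have hL : (1 : ℝ) ≤ 1 + Real.log (16 * (n : ℝ) ^ 2) := by linarith
  have h1 : ∑ p ∈ I, wt m n p.1 p.2 ≤
      ∑ p ∈ I, 22 * ((n : ℝ) ^ 2 / m) ^ ((4 : ℝ) / 3) *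
        (1 / (NN m n p.1 p.2 : ℝ) +
          1 / (((m * p.1 - n : ℕ) : ℝ) * (max (jj m n p.1 p.2) 1 : ℕ))) :=
    Finset.sum_le_sum fun p hp => wt_le m n p.1 p.2 hm hn (hI p hp)
  rw [← Finset.mul_sum, Finset.sum_add_distrib] at h1
  have h2 := sum_inv_NN m n T hm hmn hT I hI
  have h3 := sum_tj m n T hm hmn hT I hI
  have h4 : T * (1 + Real.log (16 * (n : ℝ) ^ 2)) ≤ T * (1 + Real.log (16 * (n : ℝ) ^ 2)) ^ 2 := by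
    apply mul_le_mul_of_nonneg_left _ (by linarith)
    nlinarith
  calc ∑ p ∈ I, wt m n p.1 p.2 ≤ _ := h1
    _ ≤ 22 * ((n : ℝ) ^ 2 / m) ^ ((4 : ℝ) / 3) *
        (3 * (T * (1 + Real.log (16 * (n : ℝ) ^ 2)) ^ 2)) := by
      apply mul_le_mul_of_nonneg_left _ (by positivity)
      linarith
    _ = 66 * T * (1 + Real.log (16 * n ^ 2)) ^ 2 * ((n : ℝ) ^ 2 / m) ^ ((4 : ℝ) / 3) := by ring

end Pool.Agent.Lib.MP_9dd88f_nt.UB
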