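import Mathlib
import Pool.Agent.Lib.MP_9dd88f_nt.UB.Base
import Pool.Agent.Lib.MP_9dd88f_nt.UB.F3b
import Pool.Agent.Lib.MP_9dd88f_nt.UB.TD
import Pool.Agent.Lib.MP_9dd88f_nt.UB.TE
import Pool.Agent.Lib.MP_9dd88f_nt.UB.Div

/-!
# five terms, with T  (M)

Let s = (a, b, t1, t2, t3) ∈ S ⊆ Sol5 m n.  Then (a, b) is admissible (`Adm m n a b`):
m/n > 1/a gives n < m a; m/n ≤ 5/a gives m a ≤ 5 n; with t = m a - n,
m/n - 1/a = t/(n a) is > 1/b and ≤ 4/b, so n a < t b ≤ 4 n a.  With N = NN m n a b = t b - n a,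
D = n a b: N/D = m/n - 1/a - 1/b = 1/t1 + 1/t2 + 1/t3, so with G = GG m n a b = gcd(N, D) > 0,
m'' = N/G, n'' = D/G, (t1, t2, t3) ∈ Sol3 m'' n'', m'' > 0, n'' > 0, gcd(m'', n'') = 1
(`Nat.coprime_div_gcd_div_gcd`).
By `f3_bound m'' n'' T Z` with Z = 2 * wt m n a b: 3 n''² ≤ m''³ Z³ = 8 n''² (wt = n''^(2/3)/m'',
so m''³ Z³ = 8 (n''^(2/3))³ = 8 n''²); the hypothesis on T: 18 n''³ ≤ 18 D³ ≤ 18 (100 n⁴)³, as
a ≤ 5 n, b ≤ t b ≤ 4 n a ≤ 20 n², D ≤ 100 n⁴.  So each fibre of S over (a, b) has at most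
T⁵ (10 wt + 2) elements.  With I = image of S under s ↦ (a, b):
|S| ≤ Σ_{p ∈ I} T⁵ (10 wt(p) + 2) = T⁵ (10 Σ wt + 2 |I|)
 ≤ T⁵ (660 T L² x^(4/3) + 40 L x), x = n²/m ≥ 1 (m ≤ n), so x ≤ x^(4/3), L = 1 + log(16n²) ≥ 1,
 T ≥ 1, hence ≤ 700 T⁶ L² x^(4/3).  (`two_step` and `card_adm` have hypotheses 0 < m ≤ n; the hT of
 `two_step` is for x ≤ 16 n² ≤ 18 (100 n⁴)³.)
-/

namespace Pool.Agent.Lib.MP_9dd88f_nt.UB

open Finset



/-- The first two entries of a solution form an admissible pair. -/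
private theorem F5a_adm {m n : ℕ} (_hm : 0 < m) (hn : 0 < n) {s : ℕ × ℕ × ℕ × ℕ × ℕ}
    (hs : s ∈ Sol5 m n) : Adm m n s.1 s.2.1 ∧ 0 < s.1 ∧ 0 < s.2.1 := by
  obtain ⟨a, b, t1, t2, t3⟩ := s
  obtain ⟨ha, hab, hbt, h12, h23, heq⟩ := hs
  simp only at ha hab hbt h12 h23 heq
  have hb : 0 < b := lt_of_lt_of_le ha hab
  have ht1 : 0 < t1 := lt_of_lt_of_le hb hbt
  have ht2 : 0 < t2 := lt_of_lt_of_le ht1 h12
  have ht3 : 0 < t3 := lt_of_lt_of_le ht2 h23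
  have hnQ : (0 : ℚ) < n := by exact_mod_cast hn
  have haQ : (0 : ℚ) < a := by exact_mod_cast ha
  have hbQ : (0 : ℚ) < b := by exact_mod_cast hb
  have ht1Q : (0 : ℚ) < t1 := by exact_mod_cast ht1
  have ht2Q : (0 : ℚ) < t2 := by exact_mod_cast ht2
  have ht3Q : (0 : ℚ) < t3 := by exact_mod_cast ht3
  have e1 : (0 : ℚ) < 1 / b := by positivity
  have e2 : (0 : ℚ) < 1 / t1 := by positivity
  have e3 : (0 : ℚ) < 1 / t2 := by positivity
  have e4 : (0 : ℚ) < 1 / t3 := by positivity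
  have g1 : (1 : ℚ) / b ≤ 1 / a := one_div_le_one_div_of_le haQ (by exact_mod_cast hab)
  have g2 : (1 : ℚ) / t1 ≤ 1 / b := one_div_le_one_div_of_le hbQ (by exact_mod_cast hbt)
  have g3 : (1 : ℚ) / t2 ≤ 1 / t1 := one_div_le_one_div_of_le ht1Q (by exact_mod_cast h12)
  have g4 : (1 : ℚ) / t3 ≤ 1 / t2 := one_div_le_one_div_of_le ht2Q (by exact_mod_cast h23)
  have k1 : (1 : ℚ) / a < m / n := by rw [heq]; linarith
  have k2 : (m : ℚ) / n ≤ 5 / a := by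
    have h5 : (5 : ℚ) / a = 5 * (1 / a) := by ring
    rw [heq, h5]; linarith
  have c1 : n < m * a := by
    rw [div_lt_div_iff₀ haQ hnQ] at k1
    have : (n : ℚ) < m * a := by linarith
    exact_mod_cast this
  have c2 : m * a ≤ 5 * n := by
    rw [div_le_div_iff₀ hnQ haQ] at k2
    exact_mod_cast k2
  have hcast : ((m * a - n : ℕ) : ℚ) = m * a - n := by
    rw [Nat.cast_sub c1.le]; push_cast; ring
  have hrem : (m : ℚ) / n - 1 / a = ((m * a - n : ℕ) : ℚ) / (n * a) := by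
    rw [hcast]; field_simp
  have k3 : (1 : ℚ) / b < ((m * a - n : ℕ) : ℚ) / (n * a) := by
    rw [← hrem, heq]; linarith
  have k4 : ((m * a - n : ℕ) : ℚ) / (n * a) ≤ 4 / b := by
    have h4 : (4 : ℚ) / b = 4 * (1 / b) := by ring
    rw [← hrem, heq, h4]; linarith
  have hnaQ : (0 : ℚ) < n * a := by positivity
  have c3 : n * a < (m * a - n) * b := by
    rw [div_lt_div_iff₀ hbQ hnaQ] at k3
    have : ((n * a : ℕ) : ℚ) < (((m * a - n) * b : ℕ) : ℚ) := by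
      rw [Nat.cast_mul (m * a - n) b]; push_cast; linarith
    exact_mod_cast this
  have c4 : (m * a - n) * b ≤ 4 * (n * a) := by
    rw [div_le_div_iff₀ hnaQ hbQ] at k4
    have : (((m * a - n) * b : ℕ) : ℚ) ≤ ((4 * (n * a) : ℕ) : ℚ) := by
      rw [Nat.cast_mul (m * a - n) b]; push_cast; linarith
    exact_mod_cast this
  exact ⟨⟨c1, c2, c3, c4⟩, ha, hb⟩

/-- The last three entries of a solution solve the reduced equation. -/
private theorem F5a_sol3 {m n : ℕ} (hm : 0 < m) (hn : 0 < n) {s : ℕ × ℕ × ℕ × ℕ × ℕ}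
    (hs : s ∈ Sol5 m n) :
    (s.2.2.1, s.2.2.2.1, s.2.2.2.2) ∈
      Sol3 (NN m n s.1 s.2.1 / GG m n s.1 s.2.1) (n * s.1 * s.2.1 / GG m n s.1 s.2.1) := by
  obtain ⟨⟨c1, c2, c3, c4⟩, ha, hb⟩ := F5a_adm hm hn hs
  obtain ⟨a, b, t1, t2, t3⟩ := s
  obtain ⟨_, hab, hbt, h12, h23, heq⟩ := hs
  simp only at ha hb hab hbt h12 h23 heq c1 c2 c3 c4
  refine ⟨lt_of_lt_of_le hb hbt, h12, h23, ?_⟩
  simp only
  have hnQ : (n : ℚ) ≠ 0 := by exact_mod_cast hn.ne'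
  have haQ : (a : ℚ) ≠ 0 := by exact_mod_cast ha.ne'
  have hbQ : (b : ℚ) ≠ 0 := by exact_mod_cast hb.ne'
  have hD : 0 < n * a * b := by positivity
  have hG : 0 < GG m n a b := Nat.gcd_pos_of_pos_right _ hD
  have hGQ : ((GG m n a b : ℕ) : ℚ) ≠ 0 := by exact_mod_cast hG.ne'
  have d1 : GG m n a b ∣ NN m n a b := Nat.gcd_dvd_left _ _
  have d2 : GG m n a b ∣ n * a * b := Nat.gcd_dvd_right _ _
  rw [Nat.cast_div d1 hGQ, Nat.cast_div d2 hGQ, div_div_div_cancel_right₀ hGQ]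
  have hNN : ((NN m n a b : ℕ) : ℚ) = ((m : ℚ) * a - n) * b - n * a := by
    unfold NN
    rw [Nat.cast_sub c3.le, Nat.cast_mul (m * a - n) b, Nat.cast_sub c1.le]
    push_cast; ring
  rw [hNN]
  have h1 : (((m : ℚ) * a - n) * b - n * a) / ((n * a * b : ℕ) : ℚ) = m / n - 1 / a - 1 / b := by
    push_cast
    field_simp
  rw [h1, heq]; ring

theorem f5_T (m n : ℕ) (T : ℝ) (hm : 0 < m) (hmn : m ≤ n) (hco : m.Coprime n)
    (hT : ∀ x : ℕ, 1 ≤ x → x ≤ 18 * (100 * n ^ 4) ^ 3 → (x.divisors.card : ℝ) ≤ T)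
    (S : Finset (ℕ × ℕ × ℕ × ℕ × ℕ)) (hS : ∀ s ∈ S, s ∈ Sol5 m n) :
    (S.card : ℝ) ≤ 700 * T ^ 6 * (1 + Real.log (16 * n ^ 2)) ^ 2 *
      ((n : ℝ) ^ 2 / m) ^ ((4 : ℝ) / 3) := by
  classical
  have hn : 0 < n := lt_of_lt_of_le hm hmn
  have hmR : (0 : ℝ) < m := by exact_mod_cast hm
  have hnR : (0 : ℝ) < n := by exact_mod_cast hn
  have hn4 : 1 ≤ n ^ 4 := Nat.one_le_pow _ _ hn
  have hT1 : 1 ≤ T := by
    have h1 : 1 ≤ 18 * (100 * n ^ 4) ^ 3 := by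
      have : 1 ≤ (100 * n ^ 4) ^ 3 := Nat.one_le_pow _ _ (by omega)
      omega
    have h2 := hT 1 le_rfl h1
    simpa using h2
  have hT0 : 0 ≤ T := by linarith
  -- the set of the pairs
  set I : Finset (ℕ × ℕ) := S.image (fun s => (s.1, s.2.1)) with hIdef
  have hI : ∀ p ∈ I, Adm m n p.1 p.2 := by
    intro p hp
    obtain ⟨s, hs, rfl⟩ := mem_image.mp hp
    exact (F5a_adm hm hn (hS s hs)).1
  have hIpos : ∀ p ∈ I, 0 < p.1 ∧ 0 < p.2 := by
    intro p hp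
    obtain ⟨s, hs, rfl⟩ := mem_image.mp hp
    exact (F5a_adm hm hn (hS s hs)).2
  have hcard : S.card = ∑ p ∈ I, (S.filter (fun s => (s.1, s.2.1) = p)).card :=
    Finset.card_eq_sum_card_image (fun s : ℕ × ℕ × ℕ × ℕ × ℕ => (s.1, s.2.1)) S
  have hfib : ∀ p ∈ I, ((S.filter (fun s => (s.1, s.2.1) = p)).card : ℝ) ≤
      T ^ 5 * (10 * wt m n p.1 p.2 + 2) := by
    intro p hp
    obtain ⟨c1, c2, c3, c4⟩ := hI p hp
    obtain ⟨ha, hb⟩ := hIpos p hp
    obtain ⟨a, b⟩ := p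
    simp only at c1 c2 c3 c4 ha hb
    have hD : 0 < n * a * b := by positivity
    have hN : 0 < NN m n a b := by unfold NN; omega
    have hG : 0 < GG m n a b := Nat.gcd_pos_of_pos_right _ hD
    have d1 : GG m n a b ∣ NN m n a b := Nat.gcd_dvd_left _ _
    have d2 : GG m n a b ∣ n * a * b := Nat.gcd_dvd_right _ _
    have hm2 : 0 < NN m n a b / GG m n a b := Nat.div_pos (Nat.le_of_dvd hN d1) hG
    have hn2 : 0 < n * a * b / GG m n a b := Nat.div_pos (Nat.le_of_dvd hD d2) hG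
    have hco2 : (NN m n a b / GG m n a b).Coprime (n * a * b / GG m n a b) :=
      Nat.coprime_div_gcd_div_gcd hG
    have hm2R : (0 : ℝ) < ((NN m n a b / GG m n a b : ℕ) : ℝ) := by exact_mod_cast hm2
    have hn2R : (0 : ℝ) < ((n * a * b / GG m n a b : ℕ) : ℝ) := by exact_mod_cast hn2
    have hwt0 : 0 ≤ wt m n a b := by unfold wt; positivity
    have hDle : n * a * b ≤ 100 * n ^ 4 := by
      have ha5 : a ≤ 5 * n := le_trans (Nat.le_mul_of_pos_left a hm) c2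
      have hb20 : b ≤ 20 * n ^ 2 := by
        calc b ≤ (m * a - n) * b := Nat.le_mul_of_pos_left b (by omega)
          _ ≤ 4 * (n * a) := c4
          _ ≤ 4 * (n * (5 * n)) := by gcongr
          _ = 20 * n ^ 2 := by ring
      calc n * a * b ≤ n * (5 * n) * (20 * n ^ 2) := by gcongr
        _ = 100 * n ^ 4 := by ring
    have hT' : ∀ x : ℕ, 1 ≤ x → x ≤ 18 * (n * a * b / GG m n a b) ^ 3 →
        (x.divisors.card : ℝ) ≤ T := by
      intro x hx1 hx2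
      apply hT x hx1
      calc x ≤ 18 * (n * a * b / GG m n a b) ^ 3 := hx2
        _ ≤ 18 * (100 * n ^ 4) ^ 3 := by
            have : n * a * b / GG m n a b ≤ 100 * n ^ 4 := le_trans (Nat.div_le_self _ _) hDle
            gcongr
    have hZ : 3 * ((n * a * b / GG m n a b : ℕ) : ℝ) ^ 2 ≤
        ((NN m n a b / GG m n a b : ℕ) : ℝ) ^ 3 * (2 * wt m n a b) ^ 3 := by
      have hpow : (((n * a * b / GG m n a b : ℕ) : ℝ) ^ ((2 : ℝ) / 3)) ^ 3 =
          ((n * a * b / GG m n a b : ℕ) : ℝ) ^ 2 := by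
        rw [← Real.rpow_natCast, ← Real.rpow_mul hn2R.le]
        norm_num
      have h8 : ((NN m n a b / GG m n a b : ℕ) : ℝ) ^ 3 * (2 * wt m n a b) ^ 3 =
          8 * ((n * a * b / GG m n a b : ℕ) : ℝ) ^ 2 := by
        rw [← hpow]
        unfold wt
        field_simp
        ring
      rw [h8]
      have : (0 : ℝ) ≤ ((n * a * b / GG m n a b : ℕ) : ℝ) ^ 2 := by positivity
      linarith
    have hF := f3_bound (NN m n a b / GG m n a b) (n * a * b / GG m n a b) T (2 * wt m n a b)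
      hm2 hn2 hco2 hT' (by positivity) hZ
      ((S.filter (fun s => (s.1, s.2.1) = (a, b))).image
        (fun s => (s.2.2.1, s.2.2.2.1, s.2.2.2.2))) (by
        intro t ht
        obtain ⟨s, hs, rfl⟩ := mem_image.mp ht
        obtain ⟨hsS, hsp⟩ := mem_filter.mp hs
        have h3 := F5a_sol3 hm hn (hS s hsS)
        have hs1 : s.1 = a := congrArg Prod.fst hsp
        have hs2 : s.2.1 = b := congrArg Prod.snd hsp
        rw [hs1, hs2] at h3
        exact h3)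
    rw [Finset.card_image_of_injOn] at hF
    · calc ((S.filter (fun s => (s.1, s.2.1) = (a, b))).card : ℝ)
          ≤ T ^ 5 * (5 * (2 * wt m n a b) + 2) := hF
        _ = T ^ 5 * (10 * wt m n a b + 2) := by ring
    · intro s hs r hr hsr
      obtain ⟨_, hsp⟩ := mem_filter.mp (Finset.mem_coe.mp hs)
      obtain ⟨_, hrp⟩ := mem_filter.mp (Finset.mem_coe.mp hr)
      have e := hsp.trans hrp.symm
      obtain ⟨s1, s2, s3, s4, s5⟩ := s
      obtain ⟨r1, r2, r3, r4, r5⟩ := r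
      simp only [Prod.mk.injEq] at e hsr
      simp only [Prod.mk.injEq]
      exact ⟨e.1, e.2, hsr.1, hsr.2.1, hsr.2.2⟩
  -- the hypothesis of the two-step lemma
  have hT2 : ∀ x : ℕ, 1 ≤ x → x ≤ 16 * n ^ 2 → (x.divisors.card : ℝ) ≤ T := by
    intro x hx1 hx2
    apply hT x hx1
    calc x ≤ 16 * n ^ 2 := hx2
      _ ≤ 18 * (100 * n ^ 4) := by
          have : n ^ 2 ≤ n ^ 4 := Nat.pow_le_pow_right hn (by norm_num)
          omega
      _ ≤ 18 * (100 * n ^ 4) ^ 3 := by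
          have : 100 * n ^ 4 ≤ (100 * n ^ 4) ^ 3 := Nat.le_self_pow (by norm_num) _
          omega
  have hstep := two_step m n T hm hmn hT2 I hI
  have hadm := card_adm m n hm hmn I hI
  have hx1 : (1 : ℝ) ≤ (n : ℝ) ^ 2 / m := by
    rw [le_div_iff₀ hmR, one_mul]
    have h1 : (m : ℝ) ≤ n := by exact_mod_cast hmn
    have h2 : (1 : ℝ) ≤ n := by exact_mod_cast hn
    nlinarith
  have hx43 : (n : ℝ) ^ 2 / m ≤ ((n : ℝ) ^ 2 / m) ^ ((4 : ℝ) / 3) := by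
    calc (n : ℝ) ^ 2 / m = ((n : ℝ) ^ 2 / m) ^ (1 : ℝ) := (Real.rpow_one _).symm
      _ ≤ ((n : ℝ) ^ 2 / m) ^ ((4 : ℝ) / 3) :=
          Real.rpow_le_rpow_of_exponent_le hx1 (by norm_num)
  have hL : 1 ≤ 1 + Real.log (16 * n ^ 2) := by
    have h1 : (1 : ℝ) ≤ 16 * n ^ 2 := by
      have h2 : (1 : ℝ) ≤ n := by exact_mod_cast hn
      nlinarith
    have := Real.log_nonneg h1
    linarith
  set L : ℝ := 1 + Real.log (16 * n ^ 2) with hLdef
  set X : ℝ := ((n : ℝ) ^ 2 / m) ^ ((4 : ℝ) / 3) with hXdef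
  have hX0 : 0 ≤ X := by rw [hXdef]; positivity
  have hL0 : 0 ≤ L := by linarith
  have hT50 : 0 ≤ T ^ 5 := by positivity
  calc (S.card : ℝ) = ∑ p ∈ I, ((S.filter (fun s => (s.1, s.2.1) = p)).card : ℝ) := by
        rw [hcard]; push_cast; rfl
    _ ≤ ∑ p ∈ I, T ^ 5 * (10 * wt m n p.1 p.2 + 2) := Finset.sum_le_sum hfib
    _ = T ^ 5 * (10 * (∑ p ∈ I, wt m n p.1 p.2) + 2 * I.card) := by
        rw [← Finset.mul_sum, Finset.sum_add_distrib, ← Finset.mul_sum, Finset.sum_const,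
          nsmul_eq_mul]
        ring
    _ ≤ T ^ 5 * (10 * (66 * T * L ^ 2 * X) + 2 * (20 * L * X)) := by
        apply mul_le_mul_of_nonneg_left _ hT50
        have h1 : (I.card : ℝ) ≤ 20 * L * X := by
          calc (I.card : ℝ) ≤ 20 * L * ((n : ℝ) ^ 2 / m) := hadm
            _ ≤ 20 * L * X := by
                apply mul_le_mul_of_nonneg_left hx43
                positivity
        linarith
    _ ≤ 700 * T ^ 6 * L ^ 2 * X := by
        have h1 : L * X ≤ T * L ^ 2 * X := by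
          have h2 : L ≤ T * L ^ 2 := by nlinarith
          exact mul_le_mul_of_nonneg_right h2 hX0
        calc T ^ 5 * (10 * (66 * T * L ^ 2 * X) + 2 * (20 * L * X))
            = T ^ 5 * (660 * (T * L ^ 2 * X) + 40 * (L * X)) := by ring
          _ ≤ T ^ 5 * (660 * (T * L ^ 2 * X) + 40 * (T * L ^ 2 * X)) := by
              apply mul_le_mul_of_nonneg_left _ hT50
              linarith
          _ = 700 * T ^ 6 * L ^ 2 * X := by ring

end Pool.Agent.Lib.MP_9dd88f_nt.UB
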