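import Mathlib
import Pool.Agent.Lib.MP_9dd88f_nt.UB.Base
import Pool.Agent.Lib.MP_9dd88f_nt.UB.F5a
import Pool.Agent.Lib.MP_9dd88f_nt.UB.Div

/-!
# five terms, epsilon version  (S-M)

From `f5_T` and `divisor_bound` (file Div.lean: for δ > 0 there is C ≥ 1 with τ(x) ≤ C x^δ for x > 0).
Take δ = ε/144: for x ≤ 18 (100 n⁴)³ = 18·10⁶ n¹²: τ(x) ≤ C (18·10⁶)^δ n^(12 δ) =: T, so
T⁶ = C⁶ (18·10⁶)^(6δ) n^(72 δ) = C' n^(ε/2).  And (1 + log(16 n²))² ≤ C'' n^(ε/2) for n ≥ 1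
(log y ≤ y^η/η, `Real.log_le_rpow_div`; with y = 16 n² and η = ε/8: 1 + log y ≤ (1 + 1/η) y^η,
squared: (1+1/η)² 16^(2η) n^(4η), 4η = ε/2).
-/

namespace Pool.Agent.Lib.MP_9dd88f_nt.UB

open Finset



theorem f5_bound (ε : ℝ) (hε : 0 < ε) : ∃ C : ℝ, 1 ≤ C ∧ ∀ m n : ℕ, 0 < m → m ≤ n →
    m.Coprime n → ∀ S : Finset (ℕ × ℕ × ℕ × ℕ × ℕ), (∀ s ∈ S, s ∈ Sol5 m n) →
    (S.card : ℝ) ≤ C * (n : ℝ) ^ ε * ((n : ℝ) ^ 2 / m) ^ ((4 : ℝ) / 3) := by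
  have hδ : 0 < ε / 144 := by positivity
  have hη : 0 < ε / 8 := by positivity
  obtain ⟨C0, hC0, hdiv⟩ := divisor_bound (ε / 144) hδ
  have hC0' : 0 ≤ C0 := by linarith
  set A : ℝ := ((18000000 : ℝ) ^ (ε / 144)) ^ 6 with hA
  set B : ℝ := (1 + 1 / (ε / 8)) ^ 2 * (((16 : ℝ) ^ (ε / 8)) ^ 2) with hB
  have hA0 : 0 ≤ A := by positivity
  have hB0 : 0 ≤ B := by positivity
  refine ⟨max 1 (700 * (C0 ^ 6 * A) * B), le_max_left _ _, ?_⟩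
  intro m n hm hmn hco S hS
  have hn : 0 < n := lt_of_lt_of_le hm hmn
  have hn1 : (1 : ℝ) ≤ n := by exact_mod_cast hn
  have hn0 : (0 : ℝ) ≤ n := by linarith
  -- the divisor bound
  have hT := f5_T m n (C0 * ((18000000 : ℝ) ^ (ε / 144) * (n : ℝ) ^ (12 * (ε / 144)))) hm hmn hco
    (by
      intro x hx1 hx2
      refine (hdiv x (by omega)).trans (mul_le_mul_of_nonneg_left ?_ hC0')
      have h1 : (x : ℝ) ≤ 18000000 * (n : ℝ) ^ 12 := by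
        have h2 : (x : ℝ) ≤ ((18 * (100 * n ^ 4) ^ 3 : ℕ) : ℝ) := by exact_mod_cast hx2
        have h3 : ((18 * (100 * n ^ 4) ^ 3 : ℕ) : ℝ) = 18000000 * (n : ℝ) ^ 12 := by
          push_cast
          ring
        rw [h3] at h2
        exact h2
      have h4 : ((n : ℝ) ^ 12) ^ (ε / 144) = (n : ℝ) ^ (12 * (ε / 144)) := by
        rw [← Real.rpow_natCast, ← Real.rpow_mul hn0]
        norm_num
      calc (x : ℝ) ^ (ε / 144) ≤ (18000000 * (n : ℝ) ^ 12) ^ (ε / 144) :=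
            Real.rpow_le_rpow (Nat.cast_nonneg x) h1 hδ.le
        _ = (18000000 : ℝ) ^ (ε / 144) * (n : ℝ) ^ (12 * (ε / 144)) := by
            rw [Real.mul_rpow (by norm_num) (by positivity), h4]) S hS
  have hX : 0 ≤ ((n : ℝ) ^ 2 / m) ^ ((4 : ℝ) / 3) := by positivity
  -- the sixth power
  have hT6 : (C0 * ((18000000 : ℝ) ^ (ε / 144) * (n : ℝ) ^ (12 * (ε / 144)))) ^ 6 =
      C0 ^ 6 * A * (n : ℝ) ^ (ε / 2) := by
    have h1 : ((n : ℝ) ^ (12 * (ε / 144))) ^ 6 = (n : ℝ) ^ (ε / 2) := by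
      rw [← Real.rpow_natCast, ← Real.rpow_mul hn0]
      congr 1
      push_cast
      ring
    rw [mul_pow, mul_pow, h1, hA]
    ring
  -- the logarithm
  have hlog : (1 + Real.log (16 * (n : ℝ) ^ 2)) ^ 2 ≤ B * (n : ℝ) ^ (ε / 2) := by
    have hy1 : (1 : ℝ) ≤ 16 * (n : ℝ) ^ 2 := by nlinarith
    have h1 : Real.log (16 * (n : ℝ) ^ 2) ≤ (16 * (n : ℝ) ^ 2) ^ (ε / 8) / (ε / 8) :=
      Real.log_le_rpow_div (by positivity) hη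
    have h2 : 1 ≤ (16 * (n : ℝ) ^ 2) ^ (ε / 8) := Real.one_le_rpow hy1 hη.le
    have h3 : 0 ≤ Real.log (16 * (n : ℝ) ^ 2) := Real.log_nonneg hy1
    have h4 : 1 + Real.log (16 * (n : ℝ) ^ 2) ≤
        (1 + 1 / (ε / 8)) * (16 * (n : ℝ) ^ 2) ^ (ε / 8) := by
      have h5 : (16 * (n : ℝ) ^ 2) ^ (ε / 8) / (ε / 8) =
          1 / (ε / 8) * (16 * (n : ℝ) ^ 2) ^ (ε / 8) := by ring
      rw [h5] at h1
      nlinarith
    have h6 : ((16 * (n : ℝ) ^ 2) ^ (ε / 8)) ^ 2 = ((16 : ℝ) ^ (ε / 8)) ^ 2 * (n : ℝ) ^ (ε / 2) := by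
      rw [Real.mul_rpow (by norm_num) (by positivity), mul_pow]
      congr 1
      rw [← Real.rpow_natCast (n : ℝ) 2, ← Real.rpow_mul hn0, ← Real.rpow_natCast, ← Real.rpow_mul hn0]
      congr 1
      push_cast
      ring
    calc (1 + Real.log (16 * (n : ℝ) ^ 2)) ^ 2
        ≤ ((1 + 1 / (ε / 8)) * (16 * (n : ℝ) ^ 2) ^ (ε / 8)) ^ 2 :=
          pow_le_pow_left₀ (by linarith) h4 2
      _ = B * (n : ℝ) ^ (ε / 2) := by
          rw [mul_pow, h6, hB]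
          ring
  have hεε : (n : ℝ) ^ (ε / 2) * (n : ℝ) ^ (ε / 2) = (n : ℝ) ^ ε := by
    rw [← Real.rpow_add (by linarith)]
    congr 1
    ring
  rw [hT6] at hT
  calc (S.card : ℝ) ≤ 700 * (C0 ^ 6 * A * (n : ℝ) ^ (ε / 2)) *
        (1 + Real.log (16 * (n : ℝ) ^ 2)) ^ 2 * ((n : ℝ) ^ 2 / m) ^ ((4 : ℝ) / 3) := hT
    _ ≤ 700 * (C0 ^ 6 * A * (n : ℝ) ^ (ε / 2)) * (B * (n : ℝ) ^ (ε / 2)) *
        ((n : ℝ) ^ 2 / m) ^ ((4 : ℝ) / 3) := by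
        apply mul_le_mul_of_nonneg_right _ hX
        exact mul_le_mul_of_nonneg_left hlog (by positivity)
    _ = (700 * (C0 ^ 6 * A) * B) * ((n : ℝ) ^ (ε / 2) * (n : ℝ) ^ (ε / 2)) *
        ((n : ℝ) ^ 2 / m) ^ ((4 : ℝ) / 3) := by ring
    _ ≤ max 1 (700 * (C0 ^ 6 * A) * B) * (n : ℝ) ^ ε * ((n : ℝ) ^ 2 / m) ^ ((4 : ℝ) / 3) := by
        rw [hεε]
        apply mul_le_mul_of_nonneg_right _ hX
        exact mul_le_mul_of_nonneg_right (le_max_right _ _) (by positivity)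

end Pool.Agent.Lib.MP_9dd88f_nt.UB
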