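import Mathlib
import Pool.Agent.Lib.MP_9dd88f_nt.UB.Base
import Pool.Agent.Lib.MP_9dd88f_nt.UB.Div

/-!
# Curtiss' theorem  (M)

`Pre_pos`: induction on l.
`curtiss` (R(l) := Q l / l.prod ≥ 1/u_{length l}; with l = a_j :: … :: a_1 one has
 R(l) = 1 - Σ 1/a_i (reals; induction)).  Soundararajan's proof, by induction on l:
 put s_i = u_{i-1} + 1, so Σ_{i ≤ j} 1/s_i = 1 - 1/u_j and Π_{i ≤ j} s_i = u_j.  For a list l of
 length j define (recursively) Δ(l) = Σ_i (1/a_i - 1/s_i) = 1/u_j - R(l) and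
 A(l) = Σ_i (1 - a_i/s_i), i.e. A([]) = 0, A(a :: l) = A(l) + 1 - a/(u (length l) + 1).
 Claim 1: if Pre k l and Δ ≤ 0 for all proper tails (l = a :: l' : Δ(l') ≤ 0, …), then for
 l = a :: l', A(l) ≥ a Δ(l).  Induction: if l' = [], Δ(l) = 1/a - 1/2, A(l) = 1 - a/2 = a Δ(l).
 If l' = a' :: _, a' ≤ a:  A(l) = A(l') + a (Δ(l) - Δ(l')) ≥ a' Δ(l') + a Δ(l) - a Δ(l')
 = a Δ(l) - (a - a') Δ(l') ≥ a Δ(l).
 Claim 2: A(l) ≤ Σ -log(a_i/s_i) = log(u_j / l.prod)   (1 - x ≤ -log x, `Real.log_le_sub_one_of_pos`).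
 Main: suppose Δ(l) > 0 while Δ ≤ 0 on all proper tails.  Then A(l) ≥ a Δ(l) > 0, so by Claim 2
 l.prod < u_j.  But R(l) = Q l/l.prod ≥ 1/l.prod > 1/u_j, i.e. Δ(l) = 1/u_j - R(l) < 0,
 a contradiction.  So Δ(l) ≤ 0, which is the claim l.prod ≤ Q l * u_j.
 (Prove a strengthened induction statement: Δ(l) ≤ 0 for l and, for l = a :: l', A(l) ≥ a Δ(l).)
`prod_le`: induction: for a :: l with length l = j: Q l * a ≤ k * l.prod ≤ k * (Q l * u j), so
 a ≤ k u_j (Q l > 0) and a * l.prod ≤ k u_j * (k^j u_j) = k^(j+1) u_j² ≤ k^(j+1) u_{j+1}.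
-/

namespace Pool.Agent.Lib.MP_9dd88f_nt.UB

open Finset

theorem Pre_pos {k : ℕ} {l : List ℕ} (h : Pre k l) : 0 < l.prod ∧ 0 < Q l := by
  induction l with
  | nil => exact ⟨by simp, by simp [Q]⟩
  | cons a l ih =>
    obtain ⟨h1, h2, h3, h4⟩ := h
    obtain ⟨i1, i2⟩ := ih h1
    have ha : 0 < a := by
      rcases Nat.eq_zero_or_pos a with h | h
      · rw [h, mul_zero] at h2
        exact absurd h2 (Nat.not_lt_zero _)
      · exact h
    refine ⟨?_, ?_⟩
    · rw [List.prod_cons]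
      exact Nat.mul_pos ha i1
    · show 0 < Q l * a - l.prod
      omega

/-- the sum of `1 - a_i / s_i` -/
private noncomputable def R1_A : List ℕ → ℝ
  | [] => 0
  | a :: l => R1_A l + (1 - (a : ℝ) / ((u l.length : ℝ) + 1))

private noncomputable def R1_D (l : List ℕ) : ℝ := 1 / (u l.length : ℝ) - (Q l : ℝ) / (l.prod : ℝ)

private theorem R1_u_pos (m : ℕ) : 0 < u m := by
  induction m with
  | zero => exact Nat.one_pos
  | succ m ih =>
    show 0 < u m * (u m + 1)
    positivity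

private theorem R1_u_succ (m : ℕ) : u (m + 1) = u m * (u m + 1) := rfl

private theorem R1_D_cons {k : ℕ} (a : ℕ) (l : List ℕ) (h : Pre k (a :: l)) :
    (a : ℝ) * R1_D (a :: l) = (a : ℝ) * R1_D l + (1 - (a : ℝ) / ((u l.length : ℝ) + 1)) := by
  obtain ⟨h1, h2, h3, h4⟩ := h
  obtain ⟨i1, i2⟩ := Pre_pos h1
  have ha : 0 < a := by
    rcases Nat.eq_zero_or_pos a with h | h
    · rw [h, mul_zero] at h2
      exact absurd h2 (Nat.not_lt_zero _)
    · exact h
  have hu := R1_u_pos l.length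
  have ha' : (0 : ℝ) < a := by exact_mod_cast ha
  have hp' : (0 : ℝ) < l.prod := by exact_mod_cast i1
  have hu' : (0 : ℝ) < u l.length := by exact_mod_cast hu
  unfold R1_D
  have e1 : ((Q (a :: l) : ℕ) : ℝ) = (Q l : ℝ) * a - l.prod := by
    show ((Q l * a - l.prod : ℕ) : ℝ) = (Q l : ℝ) * a - l.prod
    rw [Nat.cast_sub h2.le]
    push_cast
    ring
  have e2 : ((u (a :: l).length : ℕ) : ℝ) = (u l.length : ℝ) * ((u l.length : ℝ) + 1) := by
    rw [List.length_cons, R1_u_succ]
    push_cast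
    ring
  have e3 : (((a :: l).prod : ℕ) : ℝ) = (a : ℝ) * l.prod := by
    rw [List.prod_cons]
    push_cast
    ring
  rw [e1, e2, e3]
  have hs : (0 : ℝ) < (u l.length : ℝ) + 1 := by linarith
  field_simp
  ring

private theorem R1_log {k : ℕ} (l : List ℕ) (h : Pre k l) :
    R1_A l ≤ Real.log ((u l.length : ℝ) / (l.prod : ℝ)) := by
  induction l with
  | nil => simp [R1_A, u]
  | cons a l ih =>
    have h' := h
    obtain ⟨h1, h2, h3, h4⟩ := h
    obtain ⟨i1, i2⟩ := Pre_pos h1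
    have ha : 0 < a := by
      rcases Nat.eq_zero_or_pos a with h | h
      · rw [h, mul_zero] at h2
        exact absurd h2 (Nat.not_lt_zero _)
      · exact h
    have hu := R1_u_pos l.length
    have ha' : (0 : ℝ) < a := by exact_mod_cast ha
    have hp' : (0 : ℝ) < l.prod := by exact_mod_cast i1
    have hu' : (0 : ℝ) < u l.length := by exact_mod_cast hu
    have hs : (0 : ℝ) < (u l.length : ℝ) + 1 := by linarith
    have e2 : ((u (a :: l).length : ℕ) : ℝ) = (u l.length : ℝ) * ((u l.length : ℝ) + 1) := by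
      rw [List.length_cons, R1_u_succ]
      push_cast
      ring
    have e3 : (((a :: l).prod : ℕ) : ℝ) = (a : ℝ) * l.prod := by
      rw [List.prod_cons]
      push_cast
      ring
    rw [e2, e3]
    have e4 : (u l.length : ℝ) * ((u l.length : ℝ) + 1) / ((a : ℝ) * l.prod) =
        ((u l.length : ℝ) / (l.prod : ℝ)) * ((a : ℝ) / ((u l.length : ℝ) + 1))⁻¹ := by
      field_simp
    rw [e4, Real.log_mul (by positivity) (by positivity), Real.log_inv]
    have h5 := Real.log_le_sub_one_of_pos (show 0 < (a : ℝ) / ((u l.length : ℝ) + 1) by positivity)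
    have h6 := ih h1
    show R1_A l + (1 - (a : ℝ) / ((u l.length : ℝ) + 1)) ≤ _
    linarith

private theorem R1_main {k : ℕ} (l : List ℕ) (h : Pre k l) :
    R1_D l ≤ 0 ∧ ∀ a : ℕ, (∀ x ∈ l, x ≤ a) → (a : ℝ) * R1_D l ≤ R1_A l := by
  induction l with
  | nil =>
    have h0 : R1_D [] = 0 := by simp [R1_D, Q, u]
    refine ⟨h0.le, fun a _ => ?_⟩
    rw [h0, mul_zero]
    exact le_refl _
  | cons a l ih =>
    have h' := h
    obtain ⟨h1, h2, h3, h4⟩ := h
    obtain ⟨i1, i2⟩ := Pre_pos h'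
    obtain ⟨j1, j2⟩ := ih h1
    have hc := R1_D_cons a l h'
    have hA : (a : ℝ) * R1_D (a :: l) ≤ R1_A (a :: l) := by
      rw [hc]
      have := j2 a h4
      show _ ≤ R1_A l + (1 - (a : ℝ) / ((u l.length : ℝ) + 1))
      linarith
    have hp' : (0 : ℝ) < (a :: l).prod := by exact_mod_cast i1
    have hq' : (1 : ℝ) ≤ Q (a :: l) := by exact_mod_cast i2
    have hu' : (0 : ℝ) < u (a :: l).length := by exact_mod_cast R1_u_pos _
    have ha : 0 < a := by
      rcases Nat.eq_zero_or_pos a with h | h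
      · rw [h, mul_zero] at h2
        exact absurd h2 (Nat.not_lt_zero _)
      · exact h
    have ha' : (0 : ℝ) < a := by exact_mod_cast ha
    have hD : R1_D (a :: l) ≤ 0 := by
      by_contra hcon
      push Not at hcon
      have hApos : 0 < R1_A (a :: l) := lt_of_lt_of_le (mul_pos ha' hcon) hA
      have hlog := lt_of_lt_of_le hApos (R1_log (a :: l) h')
      have hone : 1 < (u (a :: l).length : ℝ) / ((a :: l).prod : ℝ) := by
        by_contra hle
        push Not at hle
        have := Real.log_nonpos (by positivity) hle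
        linarith
      rw [one_lt_div hp'] at hone
      unfold R1_D at hcon
      have e1 : 1 / (u (a :: l).length : ℝ) < 1 / ((a :: l).prod : ℝ) :=
        one_div_lt_one_div_of_lt hp' hone
      have e2 : 1 / ((a :: l).prod : ℝ) ≤ (Q (a :: l) : ℝ) / ((a :: l).prod : ℝ) :=
        div_le_div_of_nonneg_right hq' hp'.le
      linarith
    refine ⟨hD, fun b hb => ?_⟩
    have hab : (a : ℝ) ≤ b := by exact_mod_cast hb a List.mem_cons_self
    have : (b : ℝ) * R1_D (a :: l) ≤ (a : ℝ) * R1_D (a :: l) :=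
      mul_le_mul_of_nonpos_right hab hD
    linarith

theorem curtiss {k : ℕ} {l : List ℕ} (h : Pre k l) : l.prod ≤ Q l * u l.length := by
  have h1 := (R1_main l h).1
  obtain ⟨i1, i2⟩ := Pre_pos h
  have hp' : (0 : ℝ) < l.prod := by exact_mod_cast i1
  have hu' : (0 : ℝ) < u l.length := by exact_mod_cast R1_u_pos _
  unfold R1_D at h1
  have h2 : 1 / (u l.length : ℝ) ≤ (Q l : ℝ) / (l.prod : ℝ) := by linarith
  rw [div_le_div_iff₀ hu' hp'] at h2
  have h3 : (l.prod : ℝ) ≤ (Q l : ℝ) * (u l.length : ℝ) := by linarith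
  exact_mod_cast h3

theorem prod_le {k : ℕ} {l : List ℕ} (h : Pre k l) : l.prod ≤ k ^ l.length * u l.length := by
  induction l with
  | nil => simp [u]
  | cons a l ih =>
    obtain ⟨h1, h2, h3, h4⟩ := h
    obtain ⟨i1, i2⟩ := Pre_pos h1
    have hc := curtiss h1
    have hi := ih h1
    have ha : a ≤ k * u l.length := by
      have : Q l * a ≤ Q l * (k * u l.length) := by
        calc Q l * a ≤ k * l.prod := h3
          _ ≤ k * (Q l * u l.length) := Nat.mul_le_mul_left k hc
          _ = Q l * (k * u l.length) := by ring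
      exact Nat.le_of_mul_le_mul_left this i2
    rw [List.prod_cons, List.length_cons, R1_u_succ]
    calc a * l.prod ≤ (k * u l.length) * (k ^ l.length * u l.length) := Nat.mul_le_mul ha hi
      _ = k ^ (l.length + 1) * (u l.length * u l.length) := by ring
      _ ≤ k ^ (l.length + 1) * (u l.length * (u l.length + 1)) :=
        Nat.mul_le_mul_left _ (Nat.mul_le_mul_left _ (Nat.le_succ _))

end Pool.Agent.Lib.MP_9dd88f_nt.UB
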