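import Mathlib
import Pool.Agent.Lib.MP_9dd88f_nt.UB.Base
import Pool.Agent.Lib.MP_9dd88f_nt.UB.R1
import Pool.Agent.Lib.MP_9dd88f_nt.UB.Div

/-!
# the sum over beginnings  (M)

Induction on j.  j = 0: I ⊆ {[]}, the sum is ≤ 1 (u 0 = 1, Q [] = 1, prod = 1).
Step j → j+1: every l ∈ I is a :: l' with Pre k l', length l' = j (I' = image of I under tail).
For fixed l' put P = l'.prod, q = Q l' > 0, t = q a - P ≥ 1 = Q (a :: l').  Distinct a give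
distinct t.  (a :: l').prod / Q (a :: l') = a P / t ≤ (k P/q) P / t (as q a ≤ k P).  So
(…)^(4/3) ≤ (k P · (P/q))^(4/3) t^(-4/3), and Σ_t t^(-4/3) ≤ 4 over distinct t ≥ 1
(t^(-4/3) ≤ 3 ((t-1)^(-1/3) - t^(-1/3)) for t ≥ 2, or `Real.summable_…`; or compare with any
proof that Σ_{t=1}^∞ t^(-4/3) ≤ 4).  With P ≤ k^j u_j (`prod_le`):
Σ_I ≤ 4 (k^(j+1) u_j)^(4/3) Σ_{I'} (P/q)^(4/3) ≤ 4 (k^(j+1) u_j)^(4/3) 4^j k^(2j²) u_j^(4/3)
 ≤ 4^(j+1) k^(2 (j+1)²) (u_j²)^(4/3) ≤ 4^(j+1) k^(2 (j+1)²) u_{j+1}^(4/3),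
using k^((4/3)(j+1)) ≤ k^(4 j + 2) … (k ≥ 1; (4/3)(j+1) ≤ 4j + 2) and u_j² ≤ u_{j+1}.
-/

namespace Pool.Agent.Lib.MP_9dd88f_nt.UB

open Finset



private theorem R2_key (x : ℝ) (hx : 1 ≤ x) :
    (x + 1) ^ (-((4 : ℝ) / 3)) ≤ 3 * (x ^ (-((1 : ℝ) / 3)) - (x + 1) ^ (-((1 : ℝ) / 3))) := by
  have hx0 : 0 < x := by linarith
  have hx1 : 0 < x + 1 := by linarith
  set a : ℝ := x ^ ((1 : ℝ) / 3) with ha
  set b : ℝ := (x + 1) ^ ((1 : ℝ) / 3) with hb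
  have ha0 : 0 < a := Real.rpow_pos_of_pos hx0 _
  have hb0 : 0 < b := Real.rpow_pos_of_pos hx1 _
  have ha3 : a ^ 3 = x := by
    rw [ha, ← Real.rpow_natCast, ← Real.rpow_mul hx0.le]; norm_num
  have hb3 : b ^ 3 = x + 1 := by
    rw [hb, ← Real.rpow_natCast, ← Real.rpow_mul hx1.le]; norm_num
  have hab : a ≤ b := Real.rpow_le_rpow hx0.le (by linarith) (by norm_num)
  have e1 : x ^ (-((1 : ℝ) / 3)) = a⁻¹ := by rw [Real.rpow_neg hx0.le]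
  have e2 : (x + 1) ^ (-((1 : ℝ) / 3)) = b⁻¹ := by rw [Real.rpow_neg hx1.le]
  have e3 : (x + 1) ^ (-((4 : ℝ) / 3)) = (b ^ 4)⁻¹ := by
    rw [Real.rpow_neg hx1.le, hb, ← Real.rpow_natCast, ← Real.rpow_mul hx1.le]; norm_num
  rw [e1, e2, e3]
  have h1 : (b - a) * (b ^ 2 + a * b + a ^ 2) = 1 := by
    have : (b - a) * (b ^ 2 + a * b + a ^ 2) = b ^ 3 - a ^ 3 := by ring
    rw [this, ha3, hb3]; ring
  have h2 : b ^ 2 + a * b + a ^ 2 ≤ 3 * b ^ 2 := by nlinarith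
  have h3 : 1 ≤ (b - a) * (3 * b ^ 2) := by
    rw [← h1]
    exact mul_le_mul_of_nonneg_left h2 (by linarith)
  have h4 : 3 * (a⁻¹ - b⁻¹) = 3 * (b - a) / (a * b) := by
    field_simp
  rw [h4, inv_eq_one_div, div_le_div_iff₀ (by positivity) (by positivity)]
  have h5 : a * b ≤ b ^ 2 := by nlinarith
  calc 1 * (a * b) ≤ b ^ 2 := by linarith
    _ = b ^ 2 * 1 := by ring
    _ ≤ b ^ 2 * ((b - a) * (3 * b ^ 2)) := mul_le_mul_of_nonneg_left h3 (by positivity)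
    _ = 3 * (b - a) * b ^ 4 := by ring

private theorem R2_icc (N : ℕ) :
    ∑ t ∈ Finset.Icc 1 (N + 1), (t : ℝ) ^ (-((4 : ℝ) / 3)) ≤
      4 - 3 * ((N + 1 : ℕ) : ℝ) ^ (-((1 : ℝ) / 3)) := by
  induction N with
  | zero => simp; norm_num
  | succ N ih =>
    rw [Finset.sum_Icc_succ_top (by omega)]
    have h := R2_key ((N + 1 : ℕ) : ℝ) (by push_cast; linarith [Nat.cast_nonneg (α := ℝ) N])
    have e : ((N + 1 + 1 : ℕ) : ℝ) = ((N + 1 : ℕ) : ℝ) + 1 := by push_cast; ring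
    rw [e]
    linarith

private theorem R2_sum (T : Finset ℕ) (hT : ∀ t ∈ T, 0 < t) :
    ∑ t ∈ T, (t : ℝ) ^ (-((4 : ℝ) / 3)) ≤ 4 := by
  have hsub : T ⊆ Finset.Icc 1 (T.sup id + 1) := by
    intro t ht
    rw [Finset.mem_Icc]
    have := Finset.le_sup (f := id) ht
    simp only [id] at this
    exact ⟨hT t ht, by omega⟩
  calc ∑ t ∈ T, (t : ℝ) ^ (-((4 : ℝ) / 3))
      ≤ ∑ t ∈ Finset.Icc 1 (T.sup id + 1), (t : ℝ) ^ (-((4 : ℝ) / 3)) :=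
        Finset.sum_le_sum_of_subset_of_nonneg hsub fun i _ _ => Real.rpow_nonneg (Nat.cast_nonneg _) _
    _ ≤ 4 - 3 * ((T.sup id + 1 : ℕ) : ℝ) ^ (-((1 : ℝ) / 3)) := R2_icc _
    _ ≤ 4 := by
        have : 0 ≤ ((T.sup id + 1 : ℕ) : ℝ) ^ (-((1 : ℝ) / 3)) :=
          Real.rpow_nonneg (Nat.cast_nonneg _) _
        linarith

private theorem R2_fib (k : ℕ) (l' : List ℕ) (J : Finset (List ℕ))
    (hJ : ∀ l ∈ J, Pre k l ∧ l.tail = l' ∧ l ≠ []) (hl' : Pre k l') :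
    ∑ l ∈ J, ((l.prod : ℝ) / Q l) ^ ((4 : ℝ) / 3) ≤
      4 * (((k * l'.prod : ℕ) : ℝ) * ((l'.prod : ℝ) / Q l')) ^ ((4 : ℝ) / 3) := by
  obtain ⟨hP, hq⟩ := Pre_pos hl'
  have hP' : (0 : ℝ) < (l'.prod : ℝ) := by exact_mod_cast hP
  have hq' : (0 : ℝ) < (Q l' : ℝ) := by exact_mod_cast hq
  have hform : ∀ l ∈ J, ∃ a : ℕ, l = a :: l' := by
    intro l hl
    obtain ⟨_, h2, h3⟩ := hJ l hl
    cases l with
    | nil => exact absurd rfl h3
    | cons a l => exact ⟨a, by simp at h2; rw [h2]⟩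
  -- injectivity
  have hinj : Set.InjOn Q (J : Set (List ℕ)) := by
    intro x hx y hy hxy
    obtain ⟨a, rfl⟩ := hform x hx
    obtain ⟨b, rfl⟩ := hform y hy
    have h1 := (hJ _ hx).1
    have h2 := (hJ _ hy).1
    simp only [Pre] at h1 h2
    simp only [Q] at hxy
    have h3 : Q l' * a = Q l' * b := by omega
    have h4 : a = b := Nat.eq_of_mul_eq_mul_left hq h3
    rw [h4]
  set C : ℝ := (((k * l'.prod : ℕ) : ℝ) * ((l'.prod : ℝ) / Q l')) with hC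
  have hC0 : 0 ≤ C := by positivity
  have hterm : ∀ l ∈ J, ((l.prod : ℝ) / Q l) ^ ((4 : ℝ) / 3) ≤
      C ^ ((4 : ℝ) / 3) * ((Q l : ℕ) : ℝ) ^ (-((4 : ℝ) / 3)) := by
    intro l hl
    obtain ⟨a, rfl⟩ := hform l hl
    have h1 := (hJ _ hl).1
    have hpos := Pre_pos h1
    simp only [Pre] at h1
    have ht : (0 : ℝ) < ((Q (a :: l') : ℕ) : ℝ) := by exact_mod_cast hpos.2
    rw [Real.rpow_neg ht.le, ← div_eq_mul_inv, ← Real.div_rpow hC0 ht.le]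
    refine Real.rpow_le_rpow (by positivity) ?_ (by norm_num)
    refine div_le_div_of_nonneg_right ?_ ht.le
    rw [List.prod_cons, hC]
    have h2 : (Q l' : ℝ) * a ≤ k * l'.prod := by
      have := h1.2.2.1
      rw [← Nat.cast_mul, ← Nat.cast_mul]
      exact Nat.cast_le.2 this
    rw [Nat.cast_mul, Nat.cast_mul, mul_div_assoc', le_div_iff₀ hq']
    calc (a : ℝ) * l'.prod * Q l' = (Q l' * a) * l'.prod := by ring
      _ ≤ (k * l'.prod) * l'.prod := mul_le_mul_of_nonneg_right h2 hP'.le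
  calc ∑ l ∈ J, ((l.prod : ℝ) / Q l) ^ ((4 : ℝ) / 3)
      ≤ ∑ l ∈ J, C ^ ((4 : ℝ) / 3) * ((Q l : ℕ) : ℝ) ^ (-((4 : ℝ) / 3)) :=
        Finset.sum_le_sum hterm
    _ = C ^ ((4 : ℝ) / 3) * ∑ t ∈ J.image Q, (t : ℝ) ^ (-((4 : ℝ) / 3)) := by
        rw [Finset.sum_image hinj, Finset.mul_sum]
    _ ≤ C ^ ((4 : ℝ) / 3) * 4 := by
        refine mul_le_mul_of_nonneg_left (R2_sum _ ?_) (Real.rpow_nonneg hC0 _)
        intro t ht
        obtain ⟨l, hl, rfl⟩ := Finset.mem_image.1 ht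
        exact (Pre_pos (hJ l hl).1).2
    _ = 4 * C ^ ((4 : ℝ) / 3) := by ring

theorem prefix_sum (k j : ℕ) (hk : 1 ≤ k) (I : Finset (List ℕ))
    (hI : ∀ l ∈ I, Pre k l ∧ l.length = j) :
    ∑ l ∈ I, ((l.prod : ℝ) / Q l) ^ ((4 : ℝ) / 3) ≤
      4 ^ j * (k : ℝ) ^ (2 * j ^ 2) * (u j : ℝ) ^ ((4 : ℝ) / 3) := by
  classical
  induction j generalizing I with
  | zero =>
    have hsub : I ⊆ {[]} := by
      intro l hl
      have := (hI l hl).2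
      rw [List.length_eq_zero_iff] at this
      simp [this]
    calc ∑ l ∈ I, ((l.prod : ℝ) / Q l) ^ ((4 : ℝ) / 3)
        ≤ ∑ l ∈ ({[]} : Finset (List ℕ)), ((l.prod : ℝ) / Q l) ^ ((4 : ℝ) / 3) :=
          Finset.sum_le_sum_of_subset_of_nonneg hsub fun i _ _ => Real.rpow_nonneg (by positivity) _
      _ ≤ _ := by simp [Q, u]
  | succ j ih =>
    set I' : Finset (List ℕ) := I.image List.tail with hI'
    have hI'p : ∀ l ∈ I', Pre k l ∧ l.length = j := by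
      intro l' hl'
      obtain ⟨l, hl, rfl⟩ := Finset.mem_image.1 hl'
      obtain ⟨h1, h2⟩ := hI l hl
      cases l with
      | nil => simp at h2
      | cons a l => exact ⟨h1.1, by simpa using h2⟩
    have hstep : ∑ l ∈ I, ((l.prod : ℝ) / Q l) ^ ((4 : ℝ) / 3) ≤
        ∑ l' ∈ I', 4 * (((k * l'.prod : ℕ) : ℝ) * ((l'.prod : ℝ) / Q l')) ^ ((4 : ℝ) / 3) := by
      rw [← Finset.sum_fiberwise_of_maps_to (s := I) (t := I') (g := List.tail)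
        (fun l hl => Finset.mem_image_of_mem _ hl)]
      refine Finset.sum_le_sum fun l' hl' => ?_
      refine R2_fib k l' _ ?_ (hI'p l' hl').1
      intro l hl
      rw [Finset.mem_filter] at hl
      obtain ⟨h1, h2⟩ := hI l hl.1
      refine ⟨h1, hl.2, ?_⟩
      rintro rfl
      simp at h2
    have hk0 : (1 : ℝ) ≤ k := by exact_mod_cast hk
    have hB : ∀ l' ∈ I', 4 * (((k * l'.prod : ℕ) : ℝ) * ((l'.prod : ℝ) / Q l')) ^ ((4 : ℝ) / 3) ≤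
        4 * ((k : ℝ) ^ (j + 1) * u j) ^ ((4 : ℝ) / 3) * ((l'.prod : ℝ) / Q l') ^ ((4 : ℝ) / 3) := by
      intro l' hl'
      obtain ⟨h1, h2⟩ := hI'p l' hl'
      rw [Real.mul_rpow (by positivity) (by positivity), ← mul_assoc]
      refine mul_le_mul_of_nonneg_right (mul_le_mul_of_nonneg_left ?_ (by norm_num))
        (Real.rpow_nonneg (by positivity) _)
      refine Real.rpow_le_rpow (by positivity) ?_ (by norm_num)
      have h3 := prod_le h1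
      rw [h2] at h3
      have h4 : k * l'.prod ≤ k ^ (j + 1) * u j := by
        calc k * l'.prod ≤ k * (k ^ j * u j) := Nat.mul_le_mul_left _ h3
          _ = k ^ (j + 1) * u j := by ring
      exact_mod_cast h4
    have hD0 : 0 ≤ 4 * ((k : ℝ) ^ (j + 1) * u j) ^ ((4 : ℝ) / 3) := by positivity
    have hu0 : (0 : ℝ) ≤ (u j : ℝ) := Nat.cast_nonneg _
    calc ∑ l ∈ I, ((l.prod : ℝ) / Q l) ^ ((4 : ℝ) / 3)
        ≤ ∑ l' ∈ I', 4 * (((k * l'.prod : ℕ) : ℝ) * ((l'.prod : ℝ) / Q l')) ^ ((4 : ℝ) / 3) := hstep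
      _ ≤ ∑ l' ∈ I', 4 * ((k : ℝ) ^ (j + 1) * u j) ^ ((4 : ℝ) / 3) *
            ((l'.prod : ℝ) / Q l') ^ ((4 : ℝ) / 3) := Finset.sum_le_sum hB
      _ = 4 * ((k : ℝ) ^ (j + 1) * u j) ^ ((4 : ℝ) / 3) *
            ∑ l' ∈ I', ((l'.prod : ℝ) / Q l') ^ ((4 : ℝ) / 3) := by rw [Finset.mul_sum]
      _ ≤ 4 * ((k : ℝ) ^ (j + 1) * u j) ^ ((4 : ℝ) / 3) *
            (4 ^ j * (k : ℝ) ^ (2 * j ^ 2) * (u j : ℝ) ^ ((4 : ℝ) / 3)) :=
          mul_le_mul_of_nonneg_left (ih I' hI'p) hD0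
      _ = 4 ^ (j + 1) * (((k : ℝ) ^ (j + 1)) ^ ((4 : ℝ) / 3) * (k : ℝ) ^ (2 * j ^ 2)) *
            (((u j : ℝ) * u j) ^ ((4 : ℝ) / 3)) := by
          rw [Real.mul_rpow (by positivity) hu0, Real.mul_rpow hu0 hu0]; ring
      _ ≤ 4 ^ (j + 1) * (k : ℝ) ^ (2 * (j + 1) ^ 2) * (u (j + 1) : ℝ) ^ ((4 : ℝ) / 3) := by
          have g1 : ((k : ℝ) ^ (j + 1)) ^ ((4 : ℝ) / 3) * (k : ℝ) ^ (2 * j ^ 2) ≤
              (k : ℝ) ^ (2 * (j + 1) ^ 2) := by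
            have g2 : ((k : ℝ) ^ (j + 1)) ^ ((4 : ℝ) / 3) ≤ (k : ℝ) ^ (4 * j + 2) := by
              rw [← Real.rpow_natCast, ← Real.rpow_mul (by positivity),
                ← Real.rpow_natCast (k : ℝ) (4 * j + 2)]
              refine Real.rpow_le_rpow_of_exponent_le hk0 ?_
              push_cast
              nlinarith [Nat.cast_nonneg (α := ℝ) j]
            calc ((k : ℝ) ^ (j + 1)) ^ ((4 : ℝ) / 3) * (k : ℝ) ^ (2 * j ^ 2)
                ≤ (k : ℝ) ^ (4 * j + 2) * (k : ℝ) ^ (2 * j ^ 2) :=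
                  mul_le_mul_of_nonneg_right g2 (by positivity)
              _ = (k : ℝ) ^ (2 * (j + 1) ^ 2) := by rw [← pow_add]; ring_nf
          have g3 : ((u j : ℝ) * u j) ^ ((4 : ℝ) / 3) ≤ (u (j + 1) : ℝ) ^ ((4 : ℝ) / 3) := by
            refine Real.rpow_le_rpow (by positivity) ?_ (by norm_num)
            have : u j * u j ≤ u (j + 1) := by
              show u j * u j ≤ u j * (u j + 1)
              exact Nat.mul_le_mul_left _ (by omega)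
            exact_mod_cast this
          refine mul_le_mul (mul_le_mul_of_nonneg_left g1 (by positivity)) g3
            (Real.rpow_nonneg (by positivity) _) (by positivity)

end Pool.Agent.Lib.MP_9dd88f_nt.UB
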