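import Mathlib
import Pool.Agent.Lib.MP_9dd88f_nt.UB.Base
import Pool.Agent.Lib.MP_9dd88f_nt.UB.Div

/-!
# the constant c0  (S)

c0 = ⨆ m, u_m^(2^(-m)) (real power).  u_m + 1 ≤ 2^(2^m) (induction: u_{m+1} + 1 = u_m² + u_m + 1
≤ (u_m + 1)²), so u_m^(2^(-m)) ≤ 2: the set is bounded above, `le_ciSup`.  c0 ≥ u_1^(1/2) = √2 > 1.
u_j = (u_j^(2^(-j)))^(2^j) ≤ c0^(2^j) (real powers: Real.rpow_mul, Real.rpow_le_rpow).
-/

namespace Pool.Agent.Lib.MP_9dd88f_nt.UB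

open Finset

private theorem Z1_le (m : ℕ) : u m + 1 ≤ 2 ^ (2 ^ m) := by
  induction m with
  | zero => simp [u]
  | succ m ih =>
    have h1 : u (m + 1) + 1 ≤ (u m + 1) ^ 2 := by
      simp only [u]
      nlinarith
    have h2 : (u m + 1) ^ 2 ≤ (2 ^ (2 ^ m)) ^ 2 := Nat.pow_le_pow_left ih 2
    have h3 : ((2 : ℕ) ^ (2 ^ m)) ^ 2 = 2 ^ (2 ^ (m + 1)) := by
      rw [← pow_mul, pow_succ]
    omega

private theorem Z1_two (m : ℕ) : (u m : ℝ) ^ (((2 : ℝ) ^ m)⁻¹) ≤ 2 := by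
  have h1 : (u m : ℝ) ≤ (2 : ℝ) ^ (2 ^ m) := by
    have h : u m ≤ 2 ^ (2 ^ m) := by
      have := Z1_le m
      omega
    exact_mod_cast h
  have hpos : (0 : ℝ) < (2 : ℝ) ^ m := by positivity
  calc (u m : ℝ) ^ (((2 : ℝ) ^ m)⁻¹) ≤ ((2 : ℝ) ^ (2 ^ m)) ^ (((2 : ℝ) ^ m)⁻¹) :=
        Real.rpow_le_rpow (by positivity) h1 (by positivity)
    _ = 2 := by
        rw [← Real.rpow_natCast (2 : ℝ) (2 ^ m), ← Real.rpow_mul (by norm_num)]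
        push_cast
        rw [mul_inv_cancel₀ hpos.ne', Real.rpow_one]

private theorem Z1_bdd : BddAbove (Set.range fun m : ℕ => (u m : ℝ) ^ (((2 : ℝ) ^ m)⁻¹)) := by
  refine ⟨2, ?_⟩
  rintro _ ⟨m, rfl⟩
  exact Z1_two m

private theorem Z1_le_c0 (m : ℕ) : (u m : ℝ) ^ (((2 : ℝ) ^ m)⁻¹) ≤ c0 :=
  le_ciSup Z1_bdd m

theorem one_lt_c0 : 1 < c0 := by
  have h := Z1_le_c0 1
  have h1 : (u 1 : ℝ) = 2 := by simp [u]
  rw [h1] at h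
  refine lt_of_lt_of_le ?_ h
  exact Real.one_lt_rpow (by norm_num) (by positivity)

theorem u_le_c0 (j : ℕ) : (u j : ℝ) ≤ c0 ^ ((2 : ℝ) ^ j) := by
  have hpos : (0 : ℝ) < (2 : ℝ) ^ j := by positivity
  have hu : (0 : ℝ) ≤ (u j : ℝ) := by positivity
  calc (u j : ℝ) = ((u j : ℝ) ^ (((2 : ℝ) ^ j)⁻¹)) ^ ((2 : ℝ) ^ j) := by
        rw [← Real.rpow_mul hu, inv_mul_cancel₀ hpos.ne', Real.rpow_one]
    _ ≤ c0 ^ ((2 : ℝ) ^ j) :=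
        Real.rpow_le_rpow (Real.rpow_nonneg hu _) (Z1_le_c0 j) hpos.le

end Pool.Agent.Lib.MP_9dd88f_nt.UB
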