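import Mathlib
import Pool.Agent.Lib.MP_9dd88f_nt.UB.Base
import Pool.Agent.Lib.MP_9dd88f_nt.UB.Z1
import Pool.Agent.Lib.MP_9dd88f_nt.UB.Div

/-!
# the factor k^(O(k²)) is negligible  (S-M)

Take logarithms.  log of the left side ≤ log C + (4/3 + ε) k log k + k log 4 + 2 k² log k
 ≤ A k³ for some constant A and k ≥ 1 (log k ≤ k), while the right side has logarithm
 ε 2^k log c0 with log c0 > 0, and k³/2^k → 0 (e.g. `tendsto_pow_const_div_const_pow_of_one_lt`).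
 Note k^k etc. are natural powers of the real (k : ℝ); the exponent 4/3 + ε is a real power; the
 right side is c0 ^ (ε * 2 ^ k) with a real exponent.
-/

namespace Pool.Agent.Lib.MP_9dd88f_nt.UB

open Finset



theorem asym (C ε : ℝ) (hC : 0 < C) (hε : 0 < ε) : ∃ K : ℕ, ∀ k : ℕ, K ≤ k →
    C * ((k : ℝ) ^ k) ^ ((4 : ℝ) / 3 + ε) * (4 ^ k * (k : ℝ) ^ (2 * k ^ 2)) ≤
      c0 ^ (ε * 2 ^ k) := by
  have hc := one_lt_c0
  have hc0 : 0 < c0 := by linarith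
  have hlog : 0 < Real.log c0 := Real.log_pos hc
  set A : ℝ := |Real.log C| + (4 / 3 + ε) + 4 with hA
  have hApos : 0 < A := by
    have := abs_nonneg (Real.log C)
    rw [hA]
    linarith
  have hlim := tendsto_pow_const_div_const_pow_of_one_lt 3 (by norm_num : (1 : ℝ) < 2)
  have hev := hlim.eventually (gt_mem_nhds (show (0 : ℝ) < ε * Real.log c0 / A by positivity))
  obtain ⟨K, hK⟩ := Filter.eventually_atTop.mp hev
  refine ⟨max K 1, fun k hk => ?_⟩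
  have hkK : K ≤ k := (le_max_left _ _).trans hk
  have hk1 : 1 ≤ k := (le_max_right _ _).trans hk
  have hk1R : (1 : ℝ) ≤ (k : ℝ) := by exact_mod_cast hk1
  have hkpos : (0 : ℝ) < (k : ℝ) := by linarith
  have h1 := hK k hkK
  rw [div_lt_div_iff₀ (by positivity) hApos] at h1
  have hlk : Real.log (k : ℝ) ≤ (k : ℝ) := by
    have := Real.log_le_sub_one_of_pos hkpos
    linarith
  have hlk0 : 0 ≤ Real.log (k : ℝ) := Real.log_nonneg hk1R
  have hl4 : Real.log 4 ≤ 2 := by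
    have h2 : Real.log 4 = 2 * Real.log 2 := by
      rw [show (4 : ℝ) = 2 ^ 2 by norm_num, Real.log_pow]
      push_cast
      ring
    have h3 := Real.log_two_lt_d9
    linarith
  have hL : 0 < C * ((k : ℝ) ^ k) ^ ((4 : ℝ) / 3 + ε) * (4 ^ k * (k : ℝ) ^ (2 * k ^ 2)) := by
    have : 0 < ((k : ℝ) ^ k) ^ ((4 : ℝ) / 3 + ε) := Real.rpow_pos_of_pos (by positivity) _
    positivity
  rw [← Real.log_le_log_iff hL (Real.rpow_pos_of_pos hc0 _), Real.log_rpow hc0]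
  have hp : 0 < ((k : ℝ) ^ k) ^ ((4 : ℝ) / 3 + ε) := Real.rpow_pos_of_pos (by positivity) _
  rw [Real.log_mul (by positivity) (by positivity), Real.log_mul hC.ne' hp.ne',
    Real.log_mul (by positivity) (by positivity), Real.log_rpow (by positivity), Real.log_pow,
    Real.log_pow, Real.log_pow]
  push_cast
  have e1 : Real.log C ≤ |Real.log C| * (k : ℝ) ^ 3 := by
    have h2 : (1 : ℝ) ≤ (k : ℝ) ^ 3 := one_le_pow₀ hk1R
    calc Real.log C ≤ |Real.log C| * 1 := by rw [mul_one]; exact le_abs_self _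
      _ ≤ |Real.log C| * (k : ℝ) ^ 3 := mul_le_mul_of_nonneg_left h2 (abs_nonneg _)
  have e2 : (4 / 3 + ε) * ((k : ℝ) * Real.log k) ≤ (4 / 3 + ε) * (k : ℝ) ^ 3 := by
    refine mul_le_mul_of_nonneg_left ?_ (by positivity)
    calc (k : ℝ) * Real.log k ≤ (k : ℝ) * (k : ℝ) := mul_le_mul_of_nonneg_left hlk hkpos.le
      _ = (k : ℝ) ^ 2 := by ring
      _ ≤ (k : ℝ) ^ 3 := pow_le_pow_right₀ hk1R (by norm_num)
  have e3 : (k : ℝ) * Real.log 4 ≤ 2 * (k : ℝ) ^ 3 := by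
    have h2 : (k : ℝ) ≤ (k : ℝ) ^ 3 := by
      calc (k : ℝ) = (k : ℝ) ^ 1 := by ring
        _ ≤ (k : ℝ) ^ 3 := pow_le_pow_right₀ hk1R (by norm_num)
    have h3 := Real.log_nonneg (show (1 : ℝ) ≤ 4 by norm_num)
    nlinarith
  have e4 : 2 * (k : ℝ) ^ 2 * Real.log k ≤ 2 * (k : ℝ) ^ 3 := by
    have h2 : 0 ≤ 2 * (k : ℝ) ^ 2 := by positivity
    calc 2 * (k : ℝ) ^ 2 * Real.log k ≤ 2 * (k : ℝ) ^ 2 * (k : ℝ) :=
          mul_le_mul_of_nonneg_left hlk h2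
      _ = 2 * (k : ℝ) ^ 3 := by ring
  have e5 : A * (k : ℝ) ^ 3 = |Real.log C| * (k : ℝ) ^ 3 + (4 / 3 + ε) * (k : ℝ) ^ 3 +
      2 * (k : ℝ) ^ 3 + 2 * (k : ℝ) ^ 3 := by
    rw [hA]
    ring
  have e6 : (k : ℝ) ^ 3 * A = A * (k : ℝ) ^ 3 := by ring
  have e7 : ε * Real.log c0 * 2 ^ k = ε * 2 ^ k * Real.log c0 := by ring
  rw [e6, e7] at h1
  linarith

end Pool.Agent.Lib.MP_9dd88f_nt.UB
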