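import Mathlib
import Pool.Agent.Lib.MP_9dd88f_nt.UB.Base
import Pool.Agent.Lib.MP_9dd88f_nt.UB.R1
import Pool.Agent.Lib.MP_9dd88f_nt.UB.Div

/-!
# the beginnings of a solution are admissible  (M)

l ∈ Lsol k: a list of length k, pairwise ≥ (largest first), positive entries, Σ 1/x = 1.
For j < k, l.drop (k - j) is the list of the j smallest entries.  Show Pre k (l.drop (k - j)).
Induction on j.  j = 0: the list is [] , Pre is True.  Step: j + 1 < k, put i = k - (j+1) ≥ 1, so
l.drop i = a :: l.drop (i + 1) with a = l[i], and l.drop (i+1) = l.drop (k - j) satisfies Pre.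
Let l' = l.drop (i+1).  For every suffix l' with Pre k l': (Q l' : ℚ)/l'.prod = 1 - Σ_{x ∈ l'} 1/x
(general lemma, induction on Pre; `Pre_pos` gives positivity, so natural subtraction in Q is exact).
 1 - Σ_{l'} 1/x = Σ_{x ∈ l.take (i+1)} 1/x, a sum of i + 1 ≥ 2 positive terms each ≤ 1/a
 (pairwise: entries before a in l are ≥ a), the last one being 1/a.  So
 1/a < Q l'/l'.prod ≤ (i+1)/a ≤ k/a, i.e. l'.prod < Q l' * a and Q l' * a ≤ k * l'.prod.
 And x ≤ a for x ∈ l' from pairwise.
-/

namespace Pool.Agent.Lib.MP_9dd88f_nt.UB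

open Finset



private theorem Z3_rem {k : ℕ} {l : List ℕ} (h : Pre k l) :
    (Q l : ℚ) / (l.prod : ℚ) = 1 - (l.map (fun x : ℕ => (1 : ℚ) / x)).sum := by
  induction l with
  | nil => simp [Q]
  | cons a l ih =>
    have hpos := Pre_pos h
    obtain ⟨h1, h2, h3, h4⟩ := h
    obtain ⟨i1, i2⟩ := Pre_pos h1
    have ih' := ih h1
    have ha : 0 < a := by
      rcases Nat.eq_zero_or_pos a with h | h
      · rw [h, mul_zero] at h2
        exact absurd h2 (Nat.not_lt_zero _)
      · exact h
    have ha' : (0 : ℚ) < a := by exact_mod_cast ha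
    have hp' : (0 : ℚ) < (l.prod : ℚ) := by exact_mod_cast i1
    have e1 : ((Q (a :: l) : ℕ) : ℚ) = (Q l : ℚ) * a - (l.prod : ℚ) := by
      show ((Q l * a - l.prod : ℕ) : ℚ) = (Q l : ℚ) * a - (l.prod : ℚ)
      rw [Nat.cast_sub h2.le]
      push_cast
      ring
    rw [e1, List.map_cons, List.sum_cons, List.prod_cons, Nat.cast_mul]
    have e2 : (Q l : ℚ) = (1 - (l.map (fun x : ℕ => (1 : ℚ) / x)).sum) * (l.prod : ℚ) := by
      rw [← ih']
      field_simp
    rw [e2]
    field_simp
    ring

theorem Pre_of_Lsol (k j : ℕ) (hj : j < k) (l : List ℕ) (hl : l ∈ Lsol k) :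
    Pre k (l.drop (k - j)) := by
  obtain ⟨hlen, hpw, hpos, hsum⟩ := hl
  induction j with
  | zero =>
    have : l.drop (k - 0) = [] := by
      rw [Nat.sub_zero, List.drop_eq_nil_iff]
      omega
    rw [this]
    trivial
  | succ j ih =>
    have ih' := ih (by omega)
    obtain ⟨i, hi⟩ : ∃ i, i = k - (j + 1) := ⟨_, rfl⟩
    have hi1 : 1 ≤ i := by omega
    have hij : k - j = i + 1 := by omega
    have hil : i < l.length := by omega
    rw [← hi]
    rw [hij] at ih'
    have hd : l.drop i = l[i] :: l.drop (i + 1) := List.drop_eq_getElem_cons hil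
    have hsplit : l.take i ++ (l[i] :: l.drop (i + 1)) = l := by
      rw [← hd, List.take_append_drop]
    obtain ⟨a, ha⟩ : ∃ a, a = l[i] := ⟨_, rfl⟩
    rw [← ha] at hd hsplit
    have hamem : a ∈ l := by rw [ha]; exact List.getElem_mem hil
    have ha0 : 0 < a := hpos a hamem
    have ha' : (0 : ℚ) < a := by exact_mod_cast ha0
    rw [← hsplit, List.pairwise_append] at hpw
    obtain ⟨_, hp2, hp3⟩ := hpw
    rw [List.pairwise_cons] at hp2
    obtain ⟨hp4, _⟩ := hp2
    -- the sum
    have hs : ((l.take i).map (fun x : ℕ => (1 : ℚ) / x)).sum + ((1 : ℚ) / a +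
        ((l.drop (i + 1)).map (fun x : ℕ => (1 : ℚ) / x)).sum) = 1 := by
      have h := hsum
      rw [← hsplit, List.map_append, List.sum_append, List.map_cons, List.sum_cons] at h
      exact h
    have hrem := Z3_rem ih'
    obtain ⟨q1, q2⟩ := Pre_pos ih'
    have hP : (0 : ℚ) < ((l.drop (i + 1)).prod : ℚ) := by exact_mod_cast q1
    have htpos : 0 < ((l.take i).map (fun x : ℕ => (1 : ℚ) / x)).sum := by
      apply List.sum_pos
      · intro x hx
        rw [List.mem_map] at hx
        obtain ⟨y, hy, rfl⟩ := hx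
        have : 0 < y := hpos y (List.mem_of_mem_take hy)
        have : (0 : ℚ) < y := by exact_mod_cast this
        positivity
      · intro h
        have h2 := congrArg List.length h
        rw [List.length_map, List.length_take, List.length_nil] at h2
        omega
    have htle : ((l.take i).map (fun x : ℕ => (1 : ℚ) / x)).sum ≤ (i : ℚ) * (1 / a) := by
      have h := List.sum_le_card_nsmul ((l.take i).map (fun x : ℕ => (1 : ℚ) / x)) (1 / (a : ℚ))
        (by
          intro x hx
          rw [List.mem_map] at hx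
          obtain ⟨y, hy, rfl⟩ := hx
          have hay : a ≤ y := hp3 y hy a List.mem_cons_self
          have hay' : (a : ℚ) ≤ y := by exact_mod_cast hay
          exact one_div_le_one_div_of_le ha' hay')
      rw [List.length_map, List.length_take, nsmul_eq_mul] at h
      have hm : min i l.length = i := by omega
      rwa [hm] at h
    have hR : (Q (l.drop (i + 1)) : ℚ) / ((l.drop (i + 1)).prod : ℚ) =
        ((l.take i).map (fun x : ℕ => (1 : ℚ) / x)).sum + 1 / a := by
      rw [hrem]; linarith
    rw [hd]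
    refine ⟨ih', ?_, ?_, ?_⟩
    · have h1 : (1 : ℚ) / a < (Q (l.drop (i + 1)) : ℚ) / ((l.drop (i + 1)).prod : ℚ) := by
        rw [hR]; linarith
      rw [div_lt_div_iff₀ ha' hP, one_mul] at h1
      exact_mod_cast h1
    · have h1 : (Q (l.drop (i + 1)) : ℚ) / ((l.drop (i + 1)).prod : ℚ) ≤ (k : ℚ) / a := by
        rw [hR]
        have hik : (i : ℚ) + 1 ≤ k := by
          have : i + 1 ≤ k := by omega
          exact_mod_cast this
        calc ((l.take i).map (fun x : ℕ => (1 : ℚ) / x)).sum + 1 / a
            ≤ (i : ℚ) * (1 / a) + 1 / a := by linarith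
          _ = ((i : ℚ) + 1) / a := by ring
          _ ≤ (k : ℚ) / a := by gcongr
      rw [div_le_div_iff₀ hP ha'] at h1
      exact_mod_cast h1
    · intro x hx
      exact hp4 x hx

end Pool.Agent.Lib.MP_9dd88f_nt.UB
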