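import Mathlib
import Pool.Agent.Lib.MP_9dd88f_nt.UB.Base
import Pool.Agent.Lib.MP_9dd88f_nt.UB.F5b
import Pool.Agent.Lib.MP_9dd88f_nt.UB.R1
import Pool.Agent.Lib.MP_9dd88f_nt.UB.R2
import Pool.Agent.Lib.MP_9dd88f_nt.UB.Z3
import Pool.Agent.Lib.MP_9dd88f_nt.UB.Div

/-!
# counting the solutions with k terms  (M)

Let C be the constant of `f5_bound ε`, j = k - 5, S a finite set of solutions
(lists).  Every l ∈ S is x5 :: x4 :: x3 :: x2 :: x1 :: l' with l' = l.drop 5 of length j,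
Pre k l' by `Pre_of_Lsol` (j < k, k - j = 5).  I = image of S under l ↦ l.drop 5.
For l' ∈ I put P = l'.prod, q = Q l', g = gcd(q, P), m = q/g, n = P/g: gcd(m, n) = 1,
m/n = q/P = 1 - Σ_{l'} 1/x = 1/x1 + … + 1/x5, 0 < m ≤ n (Q l ≤ l.prod by induction), and
(x1, …, x5) ∈ Sol5 m n (x1 ≤ x2 ≤ … ≤ x5 since the list is pairwise ≥).  So the fibre over l' has at
most C n^ε (n²/m)^(4/3) elements by `f5_bound` (the map l ↦ (x1, …, x5) is injective on the fibre).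
 n ≤ P ≤ k^j u_j (`prod_le`), n/m = P/q, so n^ε (n²/m)^(4/3) = n^(ε + 4/3) (P/q)^(4/3)
 ≤ (k^j u_j)^(4/3 + ε) (P/q)^(4/3).
 Sum over I and use `prefix_sum` (length j).
-/

namespace Pool.Agent.Lib.MP_9dd88f_nt.UB

open Finset



/-- the numerator -/
private theorem Z4_Q {k : ℕ} : ∀ {l : List ℕ}, Pre k l →
    (Q l : ℚ) = (l.prod : ℚ) * (1 - (l.map (fun x : ℕ => (1 : ℚ) / x)).sum)
  | [], _ => by simp [Q]
  | a :: l, h => by
    obtain ⟨h1, h2, -, -⟩ := h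
    have ih := Z4_Q h1
    have ha : a ≠ 0 := by
      rintro rfl
      rw [Nat.mul_zero] at h2
      exact Nat.not_lt_zero _ h2
    have ha' : (a : ℚ) ≠ 0 := by exact_mod_cast ha
    have h3 : (Q (a :: l) : ℚ) = (Q l : ℚ) * a - l.prod := by
      change ((Q l * a - l.prod : ℕ) : ℚ) = _
      rw [Nat.cast_sub h2.le]
      push_cast
      ring
    rw [h3, ih, List.map_cons, List.sum_cons, List.prod_cons]
    push_cast
    field_simp
    ring

private theorem Z4_sum_nonneg (l : List ℕ) : 0 ≤ (l.map (fun x : ℕ => (1 : ℚ) / x)).sum := by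
  apply List.sum_nonneg
  intro x hx
  obtain ⟨y, _, rfl⟩ := List.mem_map.1 hx
  positivity

/-- the first five entries -/
private def Z4_f (l : List ℕ) : ℕ × ℕ × ℕ × ℕ × ℕ :=
  (l.getD 4 0, l.getD 3 0, l.getD 2 0, l.getD 1 0, l.getD 0 0)

private theorem Z4_form {k : ℕ} (hk : 5 < k) {l : List ℕ} (hl : l.length = k) :
    ∃ a b c d e l', l = a :: b :: c :: d :: e :: l' := by
  match l, hl with
  | [], h => simp at h; omega
  | [_], h => simp at h; omega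
  | [_, _], h => simp at h; omega
  | [_, _, _], h => simp at h; omega
  | [_, _, _, _], h => simp at h; omega
  | a :: b :: c :: d :: e :: l', _ => exact ⟨a, b, c, d, e, l', rfl⟩

private theorem Z4_sol5 {k : ℕ} (hk : 5 < k) {l : List ℕ} (hl : l ∈ Lsol k) {l' : List ℕ}
    (hl' : l.drop 5 = l') (hpre : Pre k l') (hq : 0 < Q l') (hP : 0 < l'.prod) :
    Z4_f l ∈ Sol5 (Q l' / (Q l').gcd l'.prod) (l'.prod / (Q l').gcd l'.prod) := by
  obtain ⟨hlen, hpw, hpos, hsum⟩ := hl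
  obtain ⟨a, b, c, d, e, l2, rfl⟩ := Z4_form hk hlen
  have h2 : l2 = l' := by
    rw [← hl']
    rfl
  subst h2
  simp only [List.pairwise_cons, List.mem_cons] at hpw
  have hab : b ≤ a := hpw.1 b (Or.inl rfl)
  have hbc : c ≤ b := hpw.2.1 c (Or.inl rfl)
  have hcd : d ≤ c := hpw.2.2.1 d (Or.inl rfl)
  have hde : e ≤ d := hpw.2.2.2.1 e (Or.inl rfl)
  have he : 0 < e := hpos e (by simp)
  refine ⟨he, hde, hcd, hbc, hab, ?_⟩
  have hg : 0 < (Q l2).gcd l2.prod := Nat.gcd_pos_of_pos_left _ hq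
  have hg' : (((Q l2).gcd l2.prod : ℕ) : ℚ) ≠ 0 := by exact_mod_cast hg.ne'
  have hP' : (l2.prod : ℚ) ≠ 0 := by exact_mod_cast hP.ne'
  change (((Q l2 / (Q l2).gcd l2.prod : ℕ) : ℚ)) / ((l2.prod / (Q l2).gcd l2.prod : ℕ) : ℚ) =
    1 / (e : ℚ) + 1 / (d : ℚ) + 1 / (c : ℚ) + 1 / (b : ℚ) + 1 / (a : ℚ)
  rw [Nat.cast_div (Nat.gcd_dvd_left _ _) hg', Nat.cast_div (Nat.gcd_dvd_right _ _) hg',
    div_div_div_cancel_right₀ hg', Z4_Q hpre, mul_div_cancel_left₀ _ hP']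
  simp only [List.map_cons, List.sum_cons] at hsum
  linarith

private theorem Z4_inj {k : ℕ} (hk : 5 < k) {l m : List ℕ} (hl : l.length = k) (hm : m.length = k)
    (hd : l.drop 5 = m.drop 5) (hf : Z4_f l = Z4_f m) : l = m := by
  obtain ⟨a, b, c, d, e, l2, rfl⟩ := Z4_form hk hl
  obtain ⟨a', b', c', d', e', m2, rfl⟩ := Z4_form hk hm
  have h2 : l2 = m2 := hd
  have h3 : (e, d, c, b, a) = (e', d', c', b', a') := hf
  simp only [Prod.mk.injEq] at h3
  obtain ⟨rfl, rfl, rfl, rfl, rfl⟩ := h3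
  rw [h2]

theorem Lsol_card (ε : ℝ) (hε : 0 < ε) : ∃ C : ℝ, 1 ≤ C ∧ ∀ k : ℕ, 5 < k →
    ∀ S : Finset (List ℕ), (∀ l ∈ S, l ∈ Lsol k) →
    (S.card : ℝ) ≤ C * ((k : ℝ) ^ (k - 5) * u (k - 5)) ^ ((4 : ℝ) / 3 + ε) *
      (4 ^ (k - 5) * (k : ℝ) ^ (2 * (k - 5) ^ 2) * (u (k - 5) : ℝ) ^ ((4 : ℝ) / 3)) := by
  classical
  obtain ⟨C, hC, hbd⟩ := f5_bound ε hε
  have hC0 : 0 ≤ C := by linarith
  refine ⟨C, hC, fun k hk S hS => ?_⟩
  have hpre : ∀ l ∈ S, Pre k (l.drop 5) ∧ (l.drop 5).length = k - 5 := by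
    intro l hl
    have h1 := Pre_of_Lsol k (k - 5) (by omega) l (hS l hl)
    have h2 : k - (k - 5) = 5 := by omega
    rw [h2] at h1
    refine ⟨h1, ?_⟩
    rw [List.length_drop, (hS l hl).1]
  have hI : ∀ l' ∈ S.image (fun l => l.drop 5), Pre k l' ∧ l'.length = k - 5 := by
    intro l' hl'
    obtain ⟨l, hl, rfl⟩ := Finset.mem_image.1 hl'
    exact hpre l hl
  -- one fibre
  have hfib : ∀ l' ∈ S.image (fun l => l.drop 5),
      (((S.filter (fun l => l.drop 5 = l')).card : ℕ) : ℝ) ≤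
        C * ((k : ℝ) ^ (k - 5) * u (k - 5)) ^ ((4 : ℝ) / 3 + ε) *
          ((l'.prod : ℝ) / Q l') ^ ((4 : ℝ) / 3) := by
    intro l' hl'
    obtain ⟨hp, hlen⟩ := hI l' hl'
    obtain ⟨hP, hq⟩ := Pre_pos hp
    have hg : 0 < (Q l').gcd l'.prod := Nat.gcd_pos_of_pos_left _ hq
    have hqP : Q l' ≤ l'.prod := by
      have h1 := Z4_Q hp
      have h2 := Z4_sum_nonneg l'
      have h3 : (0 : ℚ) ≤ l'.prod := Nat.cast_nonneg _
      have h4 : (Q l' : ℚ) ≤ l'.prod := by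
        rw [h1]
        nlinarith
      exact_mod_cast h4
    have hm : 0 < Q l' / (Q l').gcd l'.prod :=
      Nat.div_pos (Nat.le_of_dvd hq (Nat.gcd_dvd_left _ _)) hg
    have hmn : Q l' / (Q l').gcd l'.prod ≤ l'.prod / (Q l').gcd l'.prod :=
      Nat.div_le_div_right hqP
    have hco := Nat.coprime_div_gcd_div_gcd hg
    have hinj : Set.InjOn Z4_f (S.filter (fun l => l.drop 5 = l') : Finset (List ℕ)) := by
      intro l hl m hm' hf
      have hl2 := Finset.mem_filter.1 (Finset.mem_coe.1 hl)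
      have hm2 := Finset.mem_filter.1 (Finset.mem_coe.1 hm')
      exact Z4_inj hk (hS l hl2.1).1 (hS m hm2.1).1 (hl2.2.trans hm2.2.symm) hf
    have hcard : ((S.filter (fun l => l.drop 5 = l')).image Z4_f).card =
        (S.filter (fun l => l.drop 5 = l')).card := Finset.card_image_of_injOn hinj
    have h1 := hbd _ _ hm hmn hco ((S.filter (fun l => l.drop 5 = l')).image Z4_f) (by
      intro t ht
      obtain ⟨l, hl, rfl⟩ := Finset.mem_image.1 ht
      have hl2 := Finset.mem_filter.1 hl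
      exact Z4_sol5 hk (hS l hl2.1) hl2.2 hp hq hP)
    rw [hcard] at h1
    refine h1.trans ?_
    -- real arithmetic
    have hg' : (((Q l').gcd l'.prod : ℕ) : ℝ) ≠ 0 := by exact_mod_cast hg.ne'
    have hn : 0 < l'.prod / (Q l').gcd l'.prod := lt_of_lt_of_le hm hmn
    have hn0 : (0 : ℝ) < ((l'.prod / (Q l').gcd l'.prod : ℕ) : ℝ) := by exact_mod_cast hn
    have hm0 : (0 : ℝ) < ((Q l' / (Q l').gcd l'.prod : ℕ) : ℝ) := by exact_mod_cast hm
    have hratio : ((l'.prod / (Q l').gcd l'.prod : ℕ) : ℝ) / ((Q l' / (Q l').gcd l'.prod : ℕ) : ℝ) =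
        (l'.prod : ℝ) / Q l' := by
      rw [Nat.cast_div (Nat.gcd_dvd_left _ _) hg', Nat.cast_div (Nat.gcd_dvd_right _ _) hg',
        div_div_div_cancel_right₀ hg']
    have hle : ((l'.prod / (Q l').gcd l'.prod : ℕ) : ℝ) ≤ (k : ℝ) ^ (k - 5) * u (k - 5) := by
      have h2 : l'.prod / (Q l').gcd l'.prod ≤ k ^ (k - 5) * u (k - 5) := by
        refine (Nat.div_le_self _ _).trans ?_
        have := prod_le hp
        rwa [hlen] at this
      exact_mod_cast h2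
    generalize ((l'.prod / (Q l').gcd l'.prod : ℕ) : ℝ) = N at *
    generalize ((Q l' / (Q l').gcd l'.prod : ℕ) : ℝ) = M at *
    have h3 : (N ^ 2 / M) ^ ((4 : ℝ) / 3) = N ^ ((4 : ℝ) / 3) * ((l'.prod : ℝ) / Q l') ^ ((4 : ℝ) / 3) := by
      rw [← hratio, ← Real.mul_rpow hn0.le (by positivity)]
      congr 1
      ring
    have h4 : N ^ ε * N ^ ((4 : ℝ) / 3) = N ^ ((4 : ℝ) / 3 + ε) := by
      rw [← Real.rpow_add hn0]
      congr 1
      ring
    have h5 : N ^ ((4 : ℝ) / 3 + ε) ≤ ((k : ℝ) ^ (k - 5) * u (k - 5)) ^ ((4 : ℝ) / 3 + ε) :=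
      Real.rpow_le_rpow hn0.le hle (by positivity)
    calc C * N ^ ε * (N ^ 2 / M) ^ ((4 : ℝ) / 3)
        = C * (N ^ ε * N ^ ((4 : ℝ) / 3)) * ((l'.prod : ℝ) / Q l') ^ ((4 : ℝ) / 3) := by
          rw [h3]
          ring
      _ ≤ _ := by
          rw [h4]
          apply mul_le_mul_of_nonneg_right _ (by positivity)
          exact mul_le_mul_of_nonneg_left h5 hC0
  have hsum := prefix_sum k (k - 5) (by omega) (S.image (fun l => l.drop 5)) hI
  have hX : 0 ≤ C * ((k : ℝ) ^ (k - 5) * u (k - 5)) ^ ((4 : ℝ) / 3 + ε) := by positivity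
  have hcount : (S.card : ℝ) = ∑ l' ∈ S.image (fun l => l.drop 5),
      (((S.filter (fun l => l.drop 5 = l')).card : ℕ) : ℝ) := by
    rw [← Nat.cast_sum]
    congr 1
    exact Finset.card_eq_sum_card_image (fun l => l.drop 5) S
  rw [hcount]
  refine (Finset.sum_le_sum hfib).trans ?_
  rw [← Finset.mul_sum]
  exact mul_le_mul_of_nonneg_left hsum hX

end Pool.Agent.Lib.MP_9dd88f_nt.UB
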