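import Mathlib
import Pool.Agent.Lib.MP_9dd88f_nt.UB.Base
import Pool.Agent.Lib.MP_9dd88f_nt.UB.Z1
import Pool.Agent.Lib.MP_9dd88f_nt.UB.Z2
import Pool.Agent.Lib.MP_9dd88f_nt.UB.Z4
import Pool.Agent.Lib.MP_9dd88f_nt.UB.Div

/-!
# the bound for lists  (S-M)

Apply `Lsol_card` with ε1 = 8 ε … :
with j = k - 5 and u_j ≤ c0^(2^j) = c0^(2^k/32):
 (k^j u_j)^(4/3 + ε1) · 4^j k^(2j²) u_j^(4/3) = (k^j)^(4/3+ε1) 4^j k^(2j²) u_j^(8/3 + ε1)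
 ≤ [C (k^k)^(4/3 + ε1) 4^k k^(2k²)] · c0^((8/3 + ε1) 2^k/32) /C, and (8/3 + ε1)/32 = 1/12 + ε1/32.
 Choose ε1 = ε; `asym C (ε/2)`-type: note that asym's ε is used both in the exponent 4/3 + ε and on
 the right side; take asym C (ε/2) and Lsol_card (ε/2): the bracket is ≤ c0^((ε/2) 2^k), total
 exponent (1/12 + ε/64 + ε/2) 2^k ≤ (1/12 + ε) 2^k, c0 > 1.
-/

namespace Pool.Agent.Lib.MP_9dd88f_nt.UB

open Finset



private theorem Z5_u_pos (j : ℕ) : 1 ≤ u j := by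
  induction j with
  | zero => simp [u]
  | succ n ih => simp only [u]; exact Nat.one_le_iff_ne_zero.mpr (by positivity)

theorem Lsol_bound (ε : ℝ) (hε : 0 < ε) : ∃ K : ℕ, ∀ k : ℕ, K ≤ k →
    ∀ S : Finset (List ℕ), (∀ l ∈ S, l ∈ Lsol k) →
    (S.card : ℝ) ≤ c0 ^ ((1 / 12 + ε) * 2 ^ k) := by
  have hc0 := one_lt_c0
  have hc0' : 0 < c0 := by linarith
  obtain ⟨C, hC1, hC⟩ := Lsol_card (ε / 2) (by linarith)
  obtain ⟨K, hK⟩ := asym C (ε / 2) (by linarith) (by linarith)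
  refine ⟨max K 6, fun k hk S hS => ?_⟩
  have hkK : K ≤ k := le_trans (le_max_left _ _) hk
  have hk6 : 6 ≤ k := le_trans (le_max_right _ _) hk
  have h1 := hC k (by omega) S hS
  have h2 := hK k hkK
  obtain ⟨j, rfl⟩ : ∃ j, k = j + 5 := ⟨k - 5, by omega⟩
  have hj : j + 5 - 5 = j := by omega
  rw [hj] at h1
  set κ : ℝ := ((j + 5 : ℕ) : ℝ) with hκ
  have hκ1 : 1 ≤ κ := by
    rw [hκ]; exact_mod_cast (by omega : 1 ≤ j + 5)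
  have hκ0 : 0 < κ := by linarith
  have hU1 : (1 : ℝ) ≤ (u j : ℝ) := by exact_mod_cast Z5_u_pos j
  have hU0 : (0 : ℝ) < (u j : ℝ) := by linarith
  have hUc := u_le_c0 j
  set U : ℝ := (u j : ℝ) with hU
  set e : ℝ := ε / 2 with he
  have he0 : 0 < e := by rw [he]; linarith
  have hC0 : 0 < C := by linarith
  -- the factor with `U`
  have hUU : U ^ ((4 : ℝ) / 3 + e) * U ^ ((4 : ℝ) / 3) ≤ c0 ^ ((2 : ℝ) ^ j * (8 / 3 + e)) := by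
    rw [← Real.rpow_add hU0]
    calc U ^ ((4 : ℝ) / 3 + e + 4 / 3) ≤ (c0 ^ ((2 : ℝ) ^ j)) ^ ((4 : ℝ) / 3 + e + 4 / 3) :=
          Real.rpow_le_rpow hU0.le hUc (by linarith)
      _ = c0 ^ ((2 : ℝ) ^ j * (8 / 3 + e)) := by
          rw [← Real.rpow_mul hc0'.le]; congr 1; ring
  -- the other factors
  have hA : (κ ^ j) ^ ((4 : ℝ) / 3 + e) ≤ (κ ^ (j + 5)) ^ ((4 : ℝ) / 3 + e) :=
    Real.rpow_le_rpow (by positivity) (pow_le_pow_right₀ hκ1 (by omega)) (by linarith)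
  have hB : (4 : ℝ) ^ j ≤ 4 ^ (j + 5) := pow_le_pow_right₀ (by norm_num) (by omega)
  have hD : κ ^ (2 * j ^ 2) ≤ κ ^ (2 * (j + 5) ^ 2) := by
    refine pow_le_pow_right₀ hκ1 ?_
    have : j ^ 2 ≤ (j + 5) ^ 2 := Nat.pow_le_pow_left (by omega) 2
    omega
  have hE : (κ ^ j * U) ^ ((4 : ℝ) / 3 + e) = (κ ^ j) ^ ((4 : ℝ) / 3 + e) * U ^ ((4 : ℝ) / 3 + e) :=
    Real.mul_rpow (by positivity) hU0.le
  have hBD : (4 : ℝ) ^ j * κ ^ (2 * j ^ 2) ≤ 4 ^ (j + 5) * κ ^ (2 * (j + 5) ^ 2) :=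
    mul_le_mul hB hD (by positivity) (by positivity)
  have hF : C * (κ ^ j) ^ ((4 : ℝ) / 3 + e) * (4 ^ j * κ ^ (2 * j ^ 2)) ≤
      C * (κ ^ (j + 5)) ^ ((4 : ℝ) / 3 + e) * (4 ^ (j + 5) * κ ^ (2 * (j + 5) ^ 2)) := by
    refine mul_le_mul (mul_le_mul_of_nonneg_left hA hC0.le) hBD (by positivity) ?_
    exact mul_nonneg hC0.le (Real.rpow_nonneg (by positivity) _)
  have hpow : (2 : ℝ) ^ (j + 5) = 32 * 2 ^ j := by rw [pow_add]; norm_num; ring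
  calc (S.card : ℝ) ≤ C * (κ ^ j * U) ^ ((4 : ℝ) / 3 + e) *
        (4 ^ j * κ ^ (2 * j ^ 2) * U ^ ((4 : ℝ) / 3)) := h1
    _ = (C * (κ ^ j) ^ ((4 : ℝ) / 3 + e) * (4 ^ j * κ ^ (2 * j ^ 2))) *
        (U ^ ((4 : ℝ) / 3 + e) * U ^ ((4 : ℝ) / 3)) := by rw [hE]; ring
    _ ≤ c0 ^ (e * 2 ^ (j + 5)) * c0 ^ ((2 : ℝ) ^ j * (8 / 3 + e)) := by
        refine mul_le_mul (le_trans hF h2) hUU ?_ (by positivity)
        exact mul_nonneg (Real.rpow_nonneg hU0.le _) (Real.rpow_nonneg hU0.le _)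
    _ = c0 ^ (e * 2 ^ (j + 5) + (2 : ℝ) ^ j * (8 / 3 + e)) := (Real.rpow_add hc0' _ _).symm
    _ ≤ c0 ^ ((1 / 12 + ε) * 2 ^ (j + 5)) := by
        refine Real.rpow_le_rpow_of_exponent_le hc0.le ?_
        rw [hpow]
        have h3 : (0 : ℝ) < 2 ^ j := by positivity
        have h4 : ε = 2 * e := by rw [he]; ring
        rw [h4]
        nlinarith [mul_pos h3 he0]

end Pool.Agent.Lib.MP_9dd88f_nt.UB
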