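import Mathlib
import Pool.Agent.Lib.MP_9dd88f_nt.UB.Base
import Pool.Agent.Lib.MP_9dd88f_nt.UB.Z5
import Pool.Agent.Lib.MP_9dd88f_nt.UB.Div

/-!
# from lists to monotone tuples and to finite sets  (M)

(a) n ∈ msols k ↦ (List.ofFn n).reverse ∈ Lsol k, injective (`List.ofFn_injective`,
 `List.reverse_injective`); monotone gives ofFn pairwise ≤, the reverse is pairwise ≥; the sum of
 1/x over the list is Σ_i 1/n i (`List.sum_ofFn`, map and reverse).
(b) So every Finset of elements of msols k has card ≤ B := c0^(…); hence msols k is finite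
 (`Set.infinite_of_not_…`: an infinite set has finite subsets of every size, e.g.
 `Set.Infinite.exists_subset_card_eq`), and ncard ≤ B (`Set.Finite.toFinset`,
 `Set.ncard_eq_toFinset_card`).
(c) F k = (sols k 1).ncard with sols k 1 = {S : Finset ℕ | S.card = k ∧ (∀ n ∈ S, 0 < n) ∧
 Σ_{n ∈ S} 1/n = 1}.  The map S ↦ S.sort (· ≥ ·) (check the current form in Mathlib), or
 S ↦ (S.sort (· ≤ ·)).reverse, goes into Lsol k and is injective (`Finset.sort_toFinset`).  If
 sols k 1 is infinite then ncard = 0; in any case ncard ≤ B by the same argument as in (b)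
 (B ≥ 0).
-/

namespace Pool.Agent.Lib.MP_9dd88f_nt.UB

open Finset



private theorem Z6_mem_msols {k : ℕ} {n : Fin k → ℕ} (hn : n ∈ msols k) :
    (List.ofFn n).reverse ∈ Lsol k := by
  obtain ⟨hmono, hpos, hsum⟩ := hn
  refine ⟨?_, ?_, ?_, ?_⟩
  · rw [List.length_reverse, List.length_ofFn]
  · rw [List.pairwise_reverse, List.pairwise_ofFn]
    intro i j hij
    exact hmono hij.le
  · intro x hx
    rw [List.mem_reverse, List.mem_ofFn] at hx
    obtain ⟨i, rfl⟩ := hx
    exact hpos i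
  · rw [List.map_reverse, List.sum_reverse, List.map_ofFn, List.sum_ofFn]
    exact hsum

private theorem Z6_mem_sols {k : ℕ} {S : Finset ℕ} (hS : S ∈ sols k 1) :
    (S.sort (· ≤ ·)).reverse ∈ Lsol k := by
  obtain ⟨hcard, hpos, hsum⟩ := hS
  refine ⟨?_, ?_, ?_, ?_⟩
  · rw [List.length_reverse, Finset.length_sort, hcard]
  · rw [List.pairwise_reverse]
    exact Finset.pairwise_sort S (· ≤ ·)
  · intro x hx
    rw [List.mem_reverse, Finset.mem_sort] at hx
    exact hpos x hx
  · rw [List.map_reverse, List.sum_reverse]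
    have h1 : ((S.sort (· ≤ ·)).map (fun x : ℕ => (1 : ℚ) / x)).sum =
        (Multiset.map (fun x : ℕ => (1 : ℚ) / x) S.1).sum := by
      rw [← Finset.sort_eq S (· ≤ ·), Multiset.map_coe, Multiset.sum_coe]
    rw [h1]
    exact hsum

theorem main (ε : ℝ) (hε : 0 < ε) : ∃ K : ℕ, ∀ k : ℕ, K ≤ k →
    (msols k).Finite ∧ ((msols k).ncard : ℝ) ≤ c0 ^ ((1 / 12 + ε) * 2 ^ k) ∧
    (F k : ℝ) ≤ c0 ^ ((1 / 12 + ε) * 2 ^ k) := by
  obtain ⟨K, hK⟩ := Lsol_bound ε hε
  refine ⟨K, fun k hk => ?_⟩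
  have hB := hK k hk
  have hfin : (Lsol k).Finite := by
    by_contra hinf
    obtain ⟨t, ht, hcard⟩ := (Set.not_finite.1 hinf : (Lsol k).Infinite).exists_subset_card_eq
      (⌊c0 ^ ((1 / 12 + ε) * 2 ^ k)⌋₊ + 1)
    have h1 := hB t fun l hl => ht hl
    rw [hcard] at h1
    have h2 := Nat.lt_floor_add_one (c0 ^ ((1 / 12 + ε) * 2 ^ k))
    push_cast at h1
    linarith
  have hcard : ((Lsol k).ncard : ℝ) ≤ c0 ^ ((1 / 12 + ε) * 2 ^ k) := by
    rw [Set.ncard_eq_toFinset_card (Lsol k) hfin]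
    exact hB _ fun l hl => hfin.mem_toFinset.1 hl
  have hinj1 : Set.InjOn (fun n : Fin k → ℕ => (List.ofFn n).reverse) (msols k) := by
    intro a _ b _ hab
    exact List.ofFn_injective (List.reverse_injective hab)
  have hinj2 : Set.InjOn (fun S : Finset ℕ => (S.sort (· ≤ ·)).reverse) (sols k 1) := by
    intro a _ b _ hab
    have h1 : a.sort (· ≤ ·) = b.sort (· ≤ ·) := List.reverse_injective hab
    rw [← Finset.sort_toFinset (s := a) (r := (· ≤ ·)), h1, Finset.sort_toFinset]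
  refine ⟨Set.Finite.of_injOn (fun n hn => Z6_mem_msols hn) hinj1 hfin, ?_, ?_⟩
  · refine le_trans ?_ hcard
    exact_mod_cast Set.ncard_le_ncard_of_injOn _ (fun n hn => Z6_mem_msols hn) hinj1 hfin
  · refine le_trans ?_ hcard
    unfold F
    exact_mod_cast Set.ncard_le_ncard_of_injOn _ (fun n hn => Z6_mem_sols hn) hinj2 hfin

end Pool.Agent.Lib.MP_9dd88f_nt.UB
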